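import Mathlib
import Pool.Agent.H823.HC.Defs

/-!
# Bounded sectional curvature and injectivity radius: the definitions

The Levi-Civita connection and the curvature of the metric `g_J` are written in the charts of `M`.
-/

open scoped Topology ContDiff Manifold
open Set Metric

noncomputable section

namespace Pool.Agent.H823.HC

universe u v

section

variable {V : Type u} [NormedAddCommGroup V] [InnerProductSpace ℝ V]
  {M : Type v} [MetricSpace M] [ChartedSpace V M] (A : AlmostKahler V M)

/-- `Γ x v w` is the Christoffel map (the Levi-Civita connection) of the metric `g_J` in the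
chart `e`: `2 g(Γ(v, w), z) = ∂_v g(w, z) + ∂_w g(v, z) - ∂_z g(v, w)`. -/
def AlmostKahler.IsChristoffel (e : OpenPartialHomeomorph M V) (Γ : V → V → V → V) : Prop :=
  ∀ x ∈ e.target, ∀ v w z : V, 2 * A.gC e x (Γ x v w) z =
    fderiv ℝ (fun y => A.gC e y w z) x v + fderiv ℝ (fun y => A.gC e y v z) x w -
      fderiv ℝ (fun y => A.gC e y v w) x z

/-- The Riemann curvature tensor `R(u, v) w` in coordinates, for the Christoffel map `Γ`. -/
def riem (Γ : V → V → V → V) (x u v w : V) : V :=
  fderiv ℝ (fun y => Γ y v w) x u - fderiv ℝ (fun y => Γ y u w) x v +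
    Γ x u (Γ x v w) - Γ x v (Γ x u w)

/-- The absolute values of the sectional curvatures of `g_J` are at most `K`. -/
def AlmostKahler.SecBound (K : ℝ) : Prop :=
  ∀ e ∈ Charts V M, ∀ Γ : V → V → V → V, A.IsChristoffel e Γ → ∀ x ∈ e.target, ∀ v w : V,
    |A.gC e x (riem Γ x v w w) v| ≤
      K * (A.gC e x v v * A.gC e x w w - A.gC e x v w ^ 2)

/-- `E` is the exponential map of `g_J` at the point `p`, on the open ball of radius `r` of the
tangent space `T_p M`, which is identified with `V` by the chart `e`: `E` is smooth, and for every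
`v` the curve `t ↦ E (t v)` is a geodesic (its covariant acceleration is zero, in all the charts)
with the initial velocity `v`. -/
structure AlmostKahler.IsExp (e : OpenPartialHomeomorph M V) (p : M) (r : ℝ) (E : V → M) :
    Prop where
  zero : E 0 = p
  smooth : ContMDiffOn 𝓘(ℝ, V) 𝓘(ℝ, V) ∞ E {v | A.gC e (e p) v v < r ^ 2}
  veloc : ∀ v : V, deriv (fun t : ℝ => e (E (t • v))) 0 = v
  geod : ∀ (v : V) (t : ℝ), A.gC e (e p) (t • v) (t • v) < r ^ 2 → ∀ e' ∈ Charts V M,
    E (t • v) ∈ e'.source → ∀ ξ : V, A.covAcc e' (fun s => E ((t + s) • v)) ξ = 0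

/-- The injectivity radius of `g_J` is at least `r` at all the points: the exponential map at
every point `p` is defined on the open ball of radius `r` of `T_p M`, and there it is injective and
immersive, that is a diffeomorphism onto an open set. -/
def AlmostKahler.InjRad (r : ℝ) : Prop :=
  ∀ p : M, ∃ e ∈ Charts V M, p ∈ e.source ∧ ∃ E : V → M, A.IsExp e p r E ∧
    InjOn E {v | A.gC e (e p) v v < r ^ 2} ∧
    ∀ v, A.gC e (e p) v v < r ^ 2 → Function.Injective (mfderiv 𝓘(ℝ, V) 𝓘(ℝ, V) E v)

end

end Pool.Agent.H823.HC
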