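import Mathlib

/-!
# Project BG, part W: Riemannian metrics on open sets of a vector space

Every `S_X` below is a closed statement to be proved (`theorem t_X : S_X`), with a complete paper
proof in its docstring.
-/

open scoped Topology ContDiff RealInnerProductSpace
open Set Metric

noncomputable section

namespace Pool.Agent.H823.BG

universe u

section

variable {V : Type u} [NormedAddCommGroup V] [InnerProductSpace ℝ V]

/-- `G` is a smooth Riemannian metric on the open set `O`. -/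
structure IsMet (O : Set V) (G : V → V →L[ℝ] V →L[ℝ] ℝ) : Prop where
  isOpen : IsOpen O
  smooth : ContDiffOn ℝ ∞ G O
  symm : ∀ x ∈ O, ∀ v w, G x v w = G x w v
  pos : ∀ x ∈ O, ∀ v, v ≠ 0 → 0 < G x v v

/-- `Γ` is the Levi-Civita connection of the metric `G` on `O`. -/
structure IsLC (O : Set V) (G : V → V →L[ℝ] V →L[ℝ] ℝ) (Γ : V → V →L[ℝ] V →L[ℝ] V) :
    Prop where
  smooth : ContDiffOn ℝ ∞ Γ O
  symm : ∀ x ∈ O, ∀ v w, Γ x v w = Γ x w v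
  koszul : ∀ x ∈ O, ∀ v w z, 2 * G x (Γ x v w) z =
    fderiv ℝ G x v w z + fderiv ℝ G x w v z - fderiv ℝ G x z v w

/-- The Hessian of the function `f`, for the connection `Γ`. -/
def hess (Γ : V → V →L[ℝ] V →L[ℝ] V) (f : V → ℝ) (x v w : V) : ℝ :=
  fderiv ℝ (fderiv ℝ f) x v w - fderiv ℝ f x (Γ x v w)

/-- The curvature tensor `R(u, v) w` of the connection `Γ`. -/
def riemV (Γ : V → V →L[ℝ] V →L[ℝ] V) (x u v w : V) : V :=
  fderiv ℝ Γ x u v w - fderiv ℝ Γ x v u w + Γ x u (Γ x v w) - Γ x v (Γ x u w)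

/-- The orthonormal basis used for the distance coordinates. -/
def bas (V : Type u) [NormedAddCommGroup V] [InnerProductSpace ℝ V] [FiniteDimensional ℝ V] :
    OrthonormalBasis (Fin (Module.finrank ℝ V)) ℝ V :=
  stdOrthonormalBasis ℝ V

/-- The Gram form of the vectors `N i x`: `gam G N x a a' = ∑ i j, a_i a'_j G x (N i x) (N j x)`. -/
def gam [FiniteDimensional ℝ V] (G : V → V →L[ℝ] V →L[ℝ] ℝ)
    (N : Fin (Module.finrank ℝ V) → V → V) (x a a' : V) : ℝ :=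
  G x (∑ i, ⟪bas V i, a⟫ • N i x) (∑ i, ⟪bas V i, a'⟫ • N i x)

/-- The data of the distance coordinates, on the ball of radius `s`: a metric `G` with its connection
`Γ` in normal coordinates (`gauss`, `inner_zero`), functions `f i` with the unit gradients `N i`,
which are the vectors of the orthonormal basis at `0`, and with Hessians bounded by `C`. -/
structure DistData [FiniteDimensional ℝ V] (s C : ℝ) (G : V → V →L[ℝ] V →L[ℝ] ℝ)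
    (Γ : V → V →L[ℝ] V →L[ℝ] V) (f : Fin (Module.finrank ℝ V) → V → ℝ)
    (N : Fin (Module.finrank ℝ V) → V → V) : Prop where
  met : IsMet (ball 0 s) G
  lc : IsLC (ball 0 s) G Γ
  gauss : ∀ x ∈ ball (0:V) s, ∀ w, G x x w = ⟪x, w⟫
  inner_zero : ∀ v w, G 0 v w = ⟪v, w⟫
  f_smooth : ∀ i, ContDiffOn ℝ ∞ (f i) (ball 0 s)
  N_smooth : ∀ i, ContDiffOn ℝ ∞ (N i) (ball 0 s)
  grad : ∀ i, ∀ x ∈ ball (0:V) s, ∀ w, fderiv ℝ (f i) x w = G x (N i x) w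
  unit : ∀ i, ∀ x ∈ ball (0:V) s, G x (N i x) (N i x) = 1
  N_zero : ∀ i, N i 0 = bas V i
  hess_le : ∀ i, ∀ x ∈ ball (0:V) s, ∀ w, |hess Γ (f i) x w w| ≤ C * G x w w

end

/-- **CHR.** Existence of the Levi-Civita connection.

Proof.  For `x ∈ O` the continuous linear map `G x : V →L[ℝ] (V →L[ℝ] ℝ)` is injective (positivity), hence an
isomorphism (`finrank`).  The inverse `I x : (V →L[ℝ] ℝ) →L[ℝ] V` (`ContinuousLinearMap.inverse`, or `Ring.inverse` after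
the identification of `V` with its dual) depends smoothly on `x ∈ O`
(`contDiffAt_map_inverse`/`ContDiffAt.comp`).  Put
`Γ x v w = I x ((1/2) • (z ↦ DG x v w z + DG x w v z - DG x z v w))`, a smooth family of bilinear maps
(build it from `fderiv ℝ G`, `ContinuousLinearMap.flip`, compositions).  Symmetry: `G` is symmetric on the
open set `O`, so `DG x z v w = DG x z w v`. -/
def S_CHR : Prop := ∀ (V : Type u) [NormedAddCommGroup V] [InnerProductSpace ℝ V]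
  [FiniteDimensional ℝ V] (O : Set V) (G : V → V →L[ℝ] V →L[ℝ] ℝ), IsMet O G →
  ∃ Γ : V → V →L[ℝ] V →L[ℝ] V, IsLC O G Γ

/-- **GRD.** Smooth gradients.

Proof.  `N x = (G x)⁻¹ (fderiv ℝ f x)`; see `S_CHR`. -/
def S_GRD : Prop := ∀ (V : Type u) [NormedAddCommGroup V] [InnerProductSpace ℝ V]
  [FiniteDimensional ℝ V] (O : Set V) (G : V → V →L[ℝ] V →L[ℝ] ℝ), IsMet O G →
  ∀ f : V → ℝ, ContDiffOn ℝ ∞ f O →
  ∃ N : V → V, ContDiffOn ℝ ∞ N O ∧ ∀ x ∈ O, ∀ w, fderiv ℝ f x w = G x (N x) w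

/-- **RIC.** The Riccati inequality for the Hessian of a function with a unit gradient.

Proof.  Metric compatibility (from `koszul`): `DG x u v w = G x (Γ x u v) w + G x v (Γ x u w)`.  The first claim follows
by the product rule.  Put `U x v = DN x v + Γ x v (N x)`; differentiating `Df(w) = G(N, w)` gives
`hess(v, w) = D²f(v, w) - Df(Γ(v, w)) = DG(v)(N, w) + G(DN v, w) - G(N, Γ(v, w)) = G(U v, w)`, which is
symmetric in `v, w` (symmetry of `D²f` and of `Γ`).  `2 G(U w, N) = D_w (G(N, N)) = 0`, so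
`G(U N, w) = G(U w, N) = 0` for all `w`, i.e. `U x (N x) = 0` for `x ∈ O`:
`DN N + Γ(N, N) = 0`.  Differentiating this identity in the direction `w`:
`D²N(w, N) = - DN(DN w) - DΓ(w)(N, N) - 2 Γ(N, DN w)`.
The derivative at `t₁` of `G(U W, W)` is, with `W' = - Γ(N, w)` and metric compatibility,
`G(Z, w)` with `Z = Γ(N, U w) + D²N(N, w) + DΓ(N)(w, N) + Γ(w, DN N) - DN(Γ(N, w)) - Γ(Γ(N, w), N)`;
inserting `D²N` and `DN N = - Γ(N, N)`: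
`Z = - U (U w) + riemV Γ x N w N`.  So `D = - G(U w, U w) + G(riemV Γ x N w N, w)`
(`G(U U w, w) = G(U w, U w)` by the symmetry), `riemV Γ x N w N = - riemV Γ x w N N`, and the curvature bound
gives `G(riemV Γ x N w N, w) ≤ K (G(w, w) - G(w, N) ^ 2) ≤ K G(w, w)`.  Finally
`G(w, w) G(U w, U w) ≥ G(U w, w) ^ 2 = hess(w, w) ^ 2` (Cauchy-Schwarz for the positive form `G x`). -/
def S_RIC : Prop := ∀ (V : Type u) [NormedAddCommGroup V] [InnerProductSpace ℝ V]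
  [FiniteDimensional ℝ V] (O : Set V) (G : V → V →L[ℝ] V →L[ℝ] ℝ)
  (Γ : V → V →L[ℝ] V →L[ℝ] V) (f : V → ℝ) (N : V → V) (K : ℝ), 0 ≤ K → IsMet O G → IsLC O G Γ →
  ContDiffOn ℝ ∞ f O → ContDiffOn ℝ ∞ N O → (∀ x ∈ O, ∀ w, fderiv ℝ f x w = G x (N x) w) →
  (∀ x ∈ O, G x (N x) (N x) = 1) →
  (∀ x ∈ O, ∀ v w, -(K * (G x v v * G x w w - G x v w ^ 2)) ≤ G x (riemV Γ x v w w) v) →
  ∀ x ∈ O, ∀ (w : V) (c W : ℝ → V) (t₁ : ℝ), c t₁ = x → HasDerivAt c (N x) t₁ → W t₁ = w →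
    HasDerivAt W (-(Γ x (N x) w)) t₁ →
    HasDerivAt (fun t => G (c t) (W t) (W t)) 0 t₁ ∧
    ∃ D : ℝ, HasDerivAt (fun t => hess Γ f (c t) (W t) (W t)) D t₁ ∧
      G x w w * D ≤ K * G x w w ^ 2 - hess Γ f x w w ^ 2

/-- **HSB.** Hessian comparison: two-sided bounds for the Hessian of the norm in normal coordinates
on the ball of radius `r`, if the sectional curvatures are at least `- K`.

Proof.  `f y = ‖y‖` has on `ball 0 r \ {0}` the gradient `N y = ‖y‖⁻¹ • y` (by `gauss`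
`G y (N y) w = ⟪y, w⟫ / ‖y‖`), of length one.  Let `t₀ = ‖x‖`, `v = t₀⁻¹ • x`.
Upper bound.  Suppose `hess x w₀ w₀ > (1 / t₀ + √K) G x w₀ w₀`.  Choose `K' > K` and `a ∈ (0, t₀)` such that still
`hess x w₀ w₀ > (1 / (t₀ - a) + √K') G x w₀ w₀` and put `ψ t = 1 / (t - a) + √K'` for `t ∈ (a, t₀]`.
Let `Z = {(t, w) | t ∈ (a, t₀], ‖w‖ = 1, hess (t v) w w ≥ ψ t * G (t v) w w}` (nonempty).  On the compact set
`[a, t₀] × sphere` the continuous function `hess` is bounded and `G` is bounded below by a positive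
constant, so `t - a ≥ ε` on `Z` and `Z` is compact.  Let `(t₁, w₁) ∈ Z` with `t₁` minimal.  For `t < t₁` close to
`t₁` (or any `t ∈ (a, t₁)`) and all `w ≠ 0` one has `hess (t v) w w < ψ t * G (t v) w w`; by continuity `hess (t₁ v) w₁ w₁ =
ψ t₁ * G (t₁ v) w₁ w₁`.  With `W t = w₁ - (t - t₁) • Γ (t₁ v) v w₁` the function
`F t = hess (t v) (W t) (W t) - ψ t * G (t v) (W t) (W t)` vanishes at `t₁` and is negative for `t < t₁` close to `t₁`, so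
`F' t₁ ≥ 0`.  But by `S_RIC` (with `K'`, `c t = t v`), writing `g = G (t₁ v) w₁ w₁ > 0`,
`g * F' t₁ ≤ (K' - ψ ^ 2 - ψ') g ^ 2 = - (2 √K' / (t₁ - a)) g ^ 2 < 0` (`ψ' = - 1 / (t - a) ^ 2`).
Lower bound.  Similarly with `ψ t = - (1 / (b - t) + √K')` on `[t₀, b)`, `b < r`, `K' > K`:
`Z = {(t, w) | t ∈ [t₀, b), ‖w‖ = 1, hess ≤ ψ t * G}`, `t₁` maximal, `F > 0` for `t > t₁`, so `F' t₁ ≥ 0`, but
`K' - ψ ^ 2 - ψ' = - 2 √K' / (b - t) < 0`. -/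
def S_HSB : Prop := ∀ (V : Type u) [NormedAddCommGroup V] [InnerProductSpace ℝ V]
  [FiniteDimensional ℝ V] (r K : ℝ) (G : V → V →L[ℝ] V →L[ℝ] ℝ)
  (Γ : V → V →L[ℝ] V →L[ℝ] V), 0 < r → 0 ≤ K → IsMet (ball 0 r) G → IsLC (ball 0 r) G Γ →
  (∀ x ∈ ball (0:V) r, ∀ w, G x x w = ⟪x, w⟫) →
  (∀ x ∈ ball (0:V) r, ∀ v w, -(K * (G x v v * G x w w - G x v w ^ 2)) ≤
    G x (riemV Γ x v w w) v) →
  ∀ x ∈ ball (0:V) r, x ≠ 0 → ∀ w,
    hess Γ (fun y => ‖y‖) x w w ≤ (1 / ‖x‖ + √K) * G x w w ∧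
    -((1 / (r - ‖x‖) + √K) * G x w w) ≤ hess Γ (fun y => ‖y‖) x w w

/-- **HCUR.** The second derivative of a function along a geodesic.

Proof.  By `koszul` (with `v = w = c'`, `z = ξ`) the equation says `G x (c'' + Γ x c' c') ξ = 0` for all `ξ`, so
`c'' = - Γ x c' c'`.  And `(f ∘ c)'' = D²f(c', c') + Df(c'')`. -/
def S_HCUR : Prop := ∀ (V : Type u) [NormedAddCommGroup V] [InnerProductSpace ℝ V]
  [FiniteDimensional ℝ V] (O : Set V) (G : V → V →L[ℝ] V →L[ℝ] ℝ)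
  (Γ : V → V →L[ℝ] V →L[ℝ] V) (f : V → ℝ) (c : ℝ → V), IsMet O G → IsLC O G Γ → c 0 ∈ O →
  ContDiffAt ℝ ∞ f (c 0) → ContDiffAt ℝ ∞ c 0 →
  (∀ ξ, G (c 0) ξ (deriv (deriv c) 0) + fderiv ℝ G (c 0) (deriv c 0) (deriv c 0) ξ
    - (1 / 2) * fderiv ℝ G (c 0) ξ (deriv c 0) (deriv c 0) = 0) →
  deriv (deriv (fun t => f (c t))) 0 = hess Γ f (c 0) (deriv c 0) (deriv c 0)

/-- **GRAM.** The derivative of the Gram form.

Proof.  `gam G N y a a' = ∑ i j, a_i a'_j G y (N i y) (N j y)` with `a_i = ⟪b i, a⟫`.  By metric compatibility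
(`DG u v w = G (Γ u v) w + G v (Γ u w)`) the derivative of `G (N i) (N j)` in the direction `w` is
`G (DN i w + Γ w (N i)) (N j) + G (N i) (DN j w + Γ w (N j)) = hess (f i) w (N j) + hess (f j) w (N i)`
(differentiate `grad` as in `S_RIC`).  The symmetric bilinear form `h = hess Γ (f i) x` satisfies
`|h v w| ≤ C √(G v v) √(G w w)` (polarization of `|h v v| ≤ C G v v`: for `G v v = G w w = 1`,
`4 h v w = h (v + w) (v + w) - h (v - w) (v - w)` and the parallelogram law), so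
`|D_w (G (N i) (N j))| ≤ 2 C √(G w w)` by `unit`.  Finally `∑ i, |a_i| ≤ √n ‖a‖`. -/
def S_GRAM : Prop := ∀ (V : Type u) [NormedAddCommGroup V] [InnerProductSpace ℝ V]
  [FiniteDimensional ℝ V] (s C : ℝ) (G : V → V →L[ℝ] V →L[ℝ] ℝ)
  (Γ : V → V →L[ℝ] V →L[ℝ] V) (f : Fin (Module.finrank ℝ V) → V → ℝ)
  (N : Fin (Module.finrank ℝ V) → V → V), 0 < s → 0 ≤ C → DistData s C G Γ f N →
  ∀ x ∈ ball (0:V) s, ∀ a a' : V, DifferentiableAt ℝ (fun y => gam G N y a a') x ∧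
    ∀ w, |fderiv ℝ (fun y => gam G N y a a') x w| ≤
      2 * Module.finrank ℝ V * C * √(G x w w) * ‖a‖ * ‖a'‖

/-- **NEAR.** The Gram form is close to the scalar product near `0`.

Proof.  At `x = 0` the Gram form is the scalar product (`N_zero`, `inner_zero`).  Along the ray `t ↦ t x`,
`t ∈ [0, 1]`, `G (t x) x x = ‖x‖ ^ 2` (by `gauss` at `t x`, `t > 0`; by `inner_zero` for `t = 0`), so by `S_GRAM`
the derivative of `gam G N (t x) a a'` is at most `2 n C ‖x‖ ‖a‖ ‖a'‖`; use the mean value inequality. -/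
def S_NEAR : Prop := ∀ (V : Type u) [NormedAddCommGroup V] [InnerProductSpace ℝ V]
  [FiniteDimensional ℝ V] (s C : ℝ) (G : V → V →L[ℝ] V →L[ℝ] ℝ)
  (Γ : V → V →L[ℝ] V →L[ℝ] V) (f : Fin (Module.finrank ℝ V) → V → ℝ)
  (N : Fin (Module.finrank ℝ V) → V → V), 0 < s → 0 ≤ C → DistData s C G Γ f N →
  ∀ x ∈ ball (0:V) s, ∀ a a' : V, |gam G N x a a' - ⟪a, a'⟫| ≤
    2 * Module.finrank ℝ V * C * ‖x‖ * ‖a‖ * ‖a'‖

/-- **LIN.** Linear algebra of the Gram form.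

Proof.  Let `T a = ∑ i, ⟪b i, a⟫ • n i` and `L w = ∑ i, g (n i) w • b i`, so `g (T a) w = ⟪a, L w⟫` and
`g (T a) (T a') = ⟪a, L (T a')⟫`.  `g (T a) (T a) ≥ ‖a‖ ^ 2 / 2`, so `T` is injective, hence bijective
(`V → V`), and `w = T a`; `g w w = ⟪a, L w⟫ ≤ ‖a‖ ‖L w‖` and `‖a‖ ^ 2 ≤ 2 g w w` give
`g w w ≤ √2 √(g w w) ‖L w‖`, so `g w w ≤ 2 ‖L w‖ ^ 2`.  For `ξ = L w`:
`‖ξ‖ ^ 2 = ⟪ξ, L w⟫ = g (T ξ) w ≤ √(g (T ξ) (T ξ)) √(g w w) ≤ √(3/2) ‖ξ‖ √(g w w)`, so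
`‖L w‖ ^ 2 ≤ (3/2) g w w`. -/
def S_LIN : Prop := ∀ (V : Type u) [NormedAddCommGroup V] [InnerProductSpace ℝ V]
  [FiniteDimensional ℝ V] (g : V →L[ℝ] V →L[ℝ] ℝ) (n : Fin (Module.finrank ℝ V) → V),
  (∀ v w, g v w = g w v) → (∀ v, v ≠ 0 → 0 < g v v) →
  (∀ a a' : V, |g (∑ i, ⟪bas V i, a⟫ • n i) (∑ i, ⟪bas V i, a'⟫ • n i) - ⟪a, a'⟫| ≤
    (1 / 2) * ‖a‖ * ‖a'‖) →
  (∀ w, g w w ≤ 2 * ‖∑ i, g (n i) w • bas V i‖ ^ 2) ∧
  (∀ w, ‖∑ i, g (n i) w • bas V i‖ ^ 2 ≤ (3 / 2) * g w w) ∧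
  ∀ v : V, ∃ a : V, (∑ i, g (n i) (∑ j, ⟪bas V j, a⟫ • n j) • bas V i) = v ∧ ‖a‖ ≤ 2 * ‖v‖

/-- **FLOW.** A smooth section, by lifting the rays.

Proof.  `DF x` is bijective for `x ∈ ball 0 s` (injective by the inequality, and `V` is finite-dimensional); its
inverse is smooth in `x`.  Let `s' = (3/4) s` and `χ` a smooth bump function, `1` on `closedBall 0 s'`, with compact
support in `ball 0 s`; `χ'` a smooth bump function on `V`, equal to `1` on `closedBall 0 s`.  The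
vector field `(x, ξ) ↦ (χ x * χ' ξ • (DF x)⁻¹ ξ, 0)` on `V × V` is smooth with compact support, so it has a
complete smooth flow (library: Pool/Graph/R_seed8/Helper186/Flow.lean, `contMDiff_flow`).  For
`‖ξ‖ < s / 2` let `x(t)` be the first component of the trajectory from `(0, ξ)`, `t ∈ [0, 1]`.  As long as
`‖x‖ ≤ s'` one has `x' = (DF x)⁻¹ ξ`, `G x x' x' ≤ 2 ‖ξ‖ ^ 2` and, by `gauss`,
`(‖x‖ ^ 2)' = 2 G x x x' ≤ 2 √(G x x x) √(G x x' x') ≤ 2 ‖x‖ √2 ‖ξ‖` (`G x x x = ‖x‖ ^ 2`), so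
`‖x(t)‖ ≤ √2 ‖ξ‖ t < s' `; hence it is true for all `t ∈ [0, 1]` and `F (x(t)) = t ξ`.  Put
`σ ξ = x(1)`: smooth, `F (σ ξ) = ξ`, `‖σ ξ‖ < s' < s`, `σ 0 = 0`. -/
def S_FLOW : Prop := ∀ (V : Type u) [NormedAddCommGroup V] [InnerProductSpace ℝ V]
  [FiniteDimensional ℝ V] (s : ℝ) (G : V → V →L[ℝ] V →L[ℝ] ℝ) (F : V → V), 0 < s →
  IsMet (ball 0 s) G → (∀ x ∈ ball (0:V) s, ∀ w, G x x w = ⟪x, w⟫) →
  ContDiffOn ℝ ∞ F (ball 0 s) → F 0 = 0 →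
  (∀ x ∈ ball (0:V) s, ∀ w, G x w w ≤ 2 * ‖fderiv ℝ F x w‖ ^ 2) →
  ∃ σ : V → V, ContDiffOn ℝ ∞ σ (ball 0 (s / 2)) ∧ σ 0 = 0 ∧
    ∀ y ∈ ball (0:V) (s / 2), σ y ∈ ball (0:V) s ∧ F (σ y) = y

/-- **SIG.** The metric in the distance coordinates.

Proof.  Here `F x = ∑ i, (f i x - f i 0) • b i`, so `DF x w = ∑ i, G x (N i x) w • b i`, and by `S_NEAR`
and `2 n C s ≤ 1/2` the hypothesis of `S_LIN` holds for `g = G x`, `n i = N i x`.  Differentiating `F (σ y) = y`: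
`DF (σ y) (Dσ y v) = v`, so the bounds `‖v‖ ^ 2 ≤ (3/2) G(Dσ v, Dσ v)` and `G(Dσ v, Dσ v) ≤ 2 ‖v‖ ^ 2` follow from `S_LIN`.
Let `M(y)` be the operator with `⟪M(y) a, a'⟫ = gam G N (σ y) a a'`, i.e.
`M(y) = DF (σ y) ∘ T_y`, `T_y a = ∑ i, ⟪b i, a⟫ • N i (σ y)`; by `S_LIN` it is invertible, differentiable in `y`, and
`‖M(y)⁻¹ v‖ ≤ 2 ‖v‖`.  `Dσ y v = T_y (M(y)⁻¹ v)` (`DF (σ y)` is injective), so
`G (σ y) (Dσ v) (Dσ w) = gam G N (σ y) (M⁻¹ v) (M⁻¹ w) = ⟪v, M(y)⁻¹ w⟫`, whose derivative in the direction `u` is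
`- ⟪v, M⁻¹ (D_u M) M⁻¹ w⟫ = - D_u (gam G N (σ ·) a a')` at fixed `a = M⁻¹ v`, `a' = M⁻¹ w`, and by `S_GRAM`
this is at most `2 n C √(G(Dσ u, Dσ u)) ‖a‖ ‖a'‖ ≤ 2 n C √2 ‖u‖ * 4 ‖v‖ ‖w‖ ≤ 12 n C ‖u‖ ‖v‖ ‖w‖`. -/
def S_SIG : Prop := ∀ (V : Type u) [NormedAddCommGroup V] [InnerProductSpace ℝ V]
  [FiniteDimensional ℝ V] (s C R : ℝ) (G : V → V →L[ℝ] V →L[ℝ] ℝ)
  (Γ : V → V →L[ℝ] V →L[ℝ] V) (f : Fin (Module.finrank ℝ V) → V → ℝ)
  (N : Fin (Module.finrank ℝ V) → V → V) (σ : V → V), 0 < s → 0 ≤ C → 0 < R →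
  DistData s C G Γ f N → 2 * Module.finrank ℝ V * C * s ≤ 1 / 2 →
  ContDiffOn ℝ ∞ σ (ball 0 R) →
  (∀ y ∈ ball (0:V) R, σ y ∈ ball (0:V) s ∧ ∑ i, (f i (σ y) - f i 0) • bas V i = y) →
  ∀ y ∈ ball (0:V) R,
    (∀ v, ‖v‖ ^ 2 ≤ (3 / 2) * G (σ y) (fderiv ℝ σ y v) (fderiv ℝ σ y v)) ∧
    (∀ v, G (σ y) (fderiv ℝ σ y v) (fderiv ℝ σ y v) ≤ 2 * ‖v‖ ^ 2) ∧
    ∀ u v w, |fderiv ℝ (fun z => G (σ z) (fderiv ℝ σ z v) (fderiv ℝ σ z w)) y u| ≤
      12 * Module.finrank ℝ V * C * ‖u‖ * ‖v‖ * ‖w‖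

end Pool.Agent.H823.BG
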