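import Mathlib
import Pool.Agent.H823.HC.StmM
import Pool.Agent.H823.BG.Defs
import Pool.Agent.H823.BG.StmW

/-!
# Project BG, part N: bounded curvature and injectivity radius imply bounded geometry

Every `S_X` below is a closed statement to be proved (`theorem t_X : S_X`), with a complete paper
proof in its docstring.
-/

open scoped Topology ContDiff Manifold RealInnerProductSpace
open Set Metric Filter MeasureTheory
open Pool.Agent.H823.HC

noncomputable section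

namespace Pool.Agent.H823.BG

universe u v

/-- `e` is a normal chart at `p`, onto the ball of radius `r`: the coefficients of the metric at `0`
are those of the scalar product, and the Gauss lemma holds. -/
structure NormalChart {V : Type u} [NormedAddCommGroup V] [InnerProductSpace ℝ V]
    {M : Type v} [MetricSpace M] [ChartedSpace V M] (A : AlmostKahler V M) (r : ℝ) (p : M)
    (e : OpenPartialHomeomorph M V) : Prop where
  mem : e ∈ Charts V M
  target : e.target = ball 0 r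
  symm_zero : e.symm 0 = p
  gauss : ∀ x ∈ ball (0:V) r, ∀ w, A.gC e x x w = ⟪x, w⟫
  inner_zero : ∀ v w, A.gC e 0 v w = ⟪v, w⟫

/-- **TENG.** The metric in a chart, as a smooth map to the space of bilinear forms.

Proof.  As in `S_TENS` (see Pool/Agent/H823/HC/P_TENS.lean, `exists_bil`): `frame e x` is the continuous
linear map `mfderiv e.symm x`; `G x v w = A.gC e x v w` is bilinear in `v, w`; it is smooth on `e.target`
because its evaluations are (`smooth_g`; the space of bilinear forms is finite-dimensional), symmetric by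
`symm`, and positive by `pos`, because `mfderiv e.symm x` is injective for `x ∈ e.target` (a chart is a
diffeomorphism). -/
def S_TENG : Prop := ∀ (V : Type u) [NormedAddCommGroup V] [InnerProductSpace ℝ V]
  [FiniteDimensional ℝ V] (M : Type v) [MetricSpace M] [ChartedSpace V M]
  [IsManifold 𝓘(ℝ, V) ∞ M] (A : AlmostKahler V M), ∀ e ∈ Charts V M,
  ∃ G : V → V →L[ℝ] V →L[ℝ] ℝ, IsMet e.target G ∧
    ∀ x ∈ e.target, ∀ v w, G x v w = A.gC e x v w

/-- **SECV.** The curvature bound in terms of `riemV`.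

Proof.  Apply `SecBound` to the function `Γ' x v w = Γ x v w`: it is Christoffel because
`fderiv ℝ (fun y => A.gC e y v w) x u = fderiv ℝ G x u v w` at the points of the open set `e.target`, and
`riem Γ' x v w w = riemV Γ x v w w` (`fderiv ℝ (fun y => Γ y v w) x u = fderiv ℝ Γ x u v w`). -/
def S_SECV : Prop := ∀ (V : Type u) [NormedAddCommGroup V] [InnerProductSpace ℝ V]
  [FiniteDimensional ℝ V] (M : Type v) [MetricSpace M] [ChartedSpace V M]
  [IsManifold 𝓘(ℝ, V) ∞ M] (A : AlmostKahler V M) (K : ℝ), A.SecBound K → ∀ e ∈ Charts V M,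
  ∀ (G : V → V →L[ℝ] V →L[ℝ] ℝ) (Γ : V → V →L[ℝ] V →L[ℝ] V), IsMet e.target G →
  (∀ x ∈ e.target, ∀ v w, G x v w = A.gC e x v w) → IsLC e.target G Γ →
  ∀ x ∈ e.target, ∀ v w, |G x (riemV Γ x v w w) v| ≤ K * (G x v v * G x w w - G x v w ^ 2)

/-- **GEO.** Geodesics with a given initial velocity.

Proof.  Let `e, E` be as in `InjRad` at the point `y`.  Put `w' = D(e ∘ e'.symm)(e' y) w` and
`c t = E (t • w')`; it is smooth near `0` (`r > 0`), its velocity in the chart `e` is `w'`, hence `w` in the chart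
`e'`; `geod` at `t = 0`. -/
def S_GEO : Prop := ∀ (V : Type u) [NormedAddCommGroup V] [InnerProductSpace ℝ V]
  [FiniteDimensional ℝ V] (M : Type v) [MetricSpace M] [ChartedSpace V M]
  [IsManifold 𝓘(ℝ, V) ∞ M] (A : AlmostKahler V M) (r : ℝ), 0 < r → A.InjRad r →
  ∀ y : M, ∀ e' ∈ Charts V M, y ∈ e'.source → ∀ w : V, ∃ c : ℝ → M, c 0 = y ∧
    ContMDiffAt 𝓘(ℝ, ℝ) 𝓘(ℝ, V) ∞ c 0 ∧ deriv (fun t => e' (c t)) 0 = w ∧
    ∀ e'' ∈ Charts V M, y ∈ e''.source → ∀ ξ : V, A.covAcc e'' c ξ = 0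

/-- **ENE.** Geodesics have constant speed.

Proof.  Fix `v` and let `c t = E (t • v)`, `q t = g(c', c')` at the time `t`, `t ∈ [0, 1]` (defined and smooth for `t` in an
open interval containing `[0, 1]`).  In a chart `e'` around `c t₀`, with `x t = e' (c t)`,
`q t = A.gC e' (x t) (x' t) (x' t)`, so `q' = D_{x'} g(x', x') + 2 g(x', x'')`, and `geod` with `ξ = x'` gives
`g(x', x'') = - (1/2) D_{x'} g(x', x')`.  So `q' = 0` on `[0, 1]`, `q 1 = q 0`.  `q 0 = A.gC e (e p) v v` by `veloc`;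
`q 1` is the left hand side because `c' 1 = mfderiv E v v`. -/
def S_ENE : Prop := ∀ (V : Type u) [NormedAddCommGroup V] [InnerProductSpace ℝ V]
  [FiniteDimensional ℝ V] (M : Type v) [MetricSpace M] [ChartedSpace V M]
  [IsManifold 𝓘(ℝ, V) ∞ M] (A : AlmostKahler V M) (r : ℝ) (p : M)
  (e : OpenPartialHomeomorph M V) (E : V → M), 0 < r → e ∈ Charts V M → p ∈ e.source →
  A.IsExp e p r E → ∀ v : V, A.gC e (e p) v v < r ^ 2 →
  A.om (E v) (mfderiv 𝓘(ℝ, V) 𝓘(ℝ, V) E v v) (A.J (E v) (mfderiv 𝓘(ℝ, V) 𝓘(ℝ, V) E v v)) =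
    A.gC e (e p) v v

/-- **GAU.** The Gauss lemma.

Proof.  Fix `v, w`, and let `f (t, s) = E (t (v + s w))`, defined and smooth near `[0, 1] × {0}`, and
`a t = g(∂_t f, ∂_s f)` at `(t, 0)`, so `a 0 = 0` (`∂_s f = t * mfderiv E (t v) w`) and `a 1` is the left hand side.
In a chart `e'` around `f (t₀, 0)` write `F = e' ∘ f`, `g = A.gC e'`:
`a' = (D_{F_t} g)(F_t, F_s) + g(F_tt, F_s) + g(F_t, F_ts)`, and `geod` with `ξ = F_s` gives
`g(F_s, F_tt) = - (D_{F_t} g)(F_t, F_s) + (1/2) (D_{F_s} g)(F_t, F_t)`, so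
`a' = (1/2) (D_{F_s} g)(F_t, F_t) + g(F_t, F_st) = (1/2) ∂_s (g(F_t, F_t))`.  By `S_ENE` (scaled: for `t > 0`,
`∂_t f (t, s) = (1/t) mfderiv E (t(v + s w)) (t (v + s w))`) `g(F_t, F_t) = A.gC e (e p) (v + s w) (v + s w)`,
so `a' = A.gC e (e p) v w` for `t ∈ (0, 1]`, and `a 1 = A.gC e (e p) v w`. -/
def S_GAU : Prop := ∀ (V : Type u) [NormedAddCommGroup V] [InnerProductSpace ℝ V]
  [FiniteDimensional ℝ V] (M : Type v) [MetricSpace M] [ChartedSpace V M]
  [IsManifold 𝓘(ℝ, V) ∞ M] (A : AlmostKahler V M) (r : ℝ) (p : M)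
  (e : OpenPartialHomeomorph M V) (E : V → M), 0 < r → e ∈ Charts V M → p ∈ e.source →
  A.IsExp e p r E → ∀ v : V, A.gC e (e p) v v < r ^ 2 → ∀ w : V,
  A.om (E v) (mfderiv 𝓘(ℝ, V) 𝓘(ℝ, V) E v v) (A.J (E v) (mfderiv 𝓘(ℝ, V) 𝓘(ℝ, V) E v w)) =
    A.gC e (e p) v w

/-- **NCH.** Existence of normal charts.

Proof.  Let `e, E` be as in `InjRad` at `p`.  The positive definite symmetric form `A.gC e (e p)` (`S_TENG`) is
`⟪L⁻¹ ·, L⁻¹ ·⟫` for a linear isomorphism `L : V → V` (two inner products on a finite-dimensional space are isometric,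
e.g. send the orthonormal basis to a Gram-Schmidt basis or use `stdOrthonormalBasis` of both
structures).  `E' = E ∘ L` is smooth and injective on `ball 0 r` with injective, hence bijective
differentials, so by the inverse function theorem it is the inverse of an `OpenPartialHomeomorph` `e₁` from an
open subset of `M` onto `ball 0 r`, with both directions smooth, so `e₁ ∈ Charts V M`
(`IsManifold.maximalAtlas`; check the compatibility with the charts of the atlas, or use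
`contMDiffOn_... mem_maximalAtlas` lemmas).  `frame e₁ x v = mfderiv E (L x) (L v)`, so `S_GAU` gives
`gauss`; at `0`, `mfderiv E 0 v = frame e (e p) v` by `veloc`, which gives `inner_zero`. -/
def S_NCH : Prop := ∀ (V : Type u) [NormedAddCommGroup V] [InnerProductSpace ℝ V]
  [FiniteDimensional ℝ V] (M : Type v) [MetricSpace M] [ChartedSpace V M]
  [IsManifold 𝓘(ℝ, V) ∞ M] (A : AlmostKahler V M) (r : ℝ), 0 < r → A.InjRad r →
  ∀ p : M, ∃ e : OpenPartialHomeomorph M V, NormalChart A r p e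

/-- **DST.** Distances in a normal chart.

Proof.  Radial segments: for `x ∈ ball 0 r`, `A.gC e (t x) x x = ‖x‖ ^ 2` for `t ∈ [0, 1]` (by `gauss` at `t x` if
`t ≠ 0`).  So by `S_LEN` (for the curve `τ ↦ e.symm (τ v)` on `[s, t]`, velocity `frame e (τ v) v`)
`dist (e.symm (s v)) (e.symm (t v)) ≤ t - s` for `‖v‖ = 1`, and `dist p (e.symm x) ≤ ‖x‖`.
Conversely let `dist p y < ℓ < r` and let `c` be a `C^1` curve from `p` to `y` of length `< ℓ` (`isGLB_dist`).  Let
`I = {t ∈ [0, 1] | ∀ s ∈ [0, t], c s ∈ e.source ∧ ‖e (c s)‖ ≤ ℓ}`.  On `I` put `x = e ∘ c`; by `gauss` and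
Cauchy-Schwarz `⟪x, x'⟫ = g(x, x') ≤ √g(x, x) √g(x', x') = ‖x‖ speed`, so `‖x(t)‖` is at most the length of `c` on
`[0, t]` (differentiate `√(‖x‖ ^ 2 + ε ^ 2)`), which is `< ℓ`.  So `I` is open and closed in `[0, 1]` (closed: `c s` is in
the compact set `e.symm '' closedBall 0 ℓ`).  So `y ∈ e.source` and `‖e y‖ ≤ ℓ` for all such `ℓ`, i.e. `‖e y‖ ≤ dist p y`. -/
def S_DST : Prop := ∀ (V : Type u) [NormedAddCommGroup V] [InnerProductSpace ℝ V]
  [FiniteDimensional ℝ V] (M : Type v) [MetricSpace M] [ChartedSpace V M]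
  [IsManifold 𝓘(ℝ, V) ∞ M] (A : AlmostKahler V M) (r : ℝ) (p : M)
  (e : OpenPartialHomeomorph M V), 0 < r → NormalChart A r p e →
  e.source = ball p r ∧ (∀ x ∈ ball (0:V) r, dist p (e.symm x) = ‖x‖) ∧
    ∀ v : V, ‖v‖ = 1 → ∀ s t : ℝ, -r < s → s ≤ t → t < r →
      dist (e.symm (s • v)) (e.symm (t • v)) ≤ t - s

/-- **HDI.** Hessian bounds for the distance functions, in all the charts.

Proof.  Let `n` be a normal chart at `q` (`S_NCH`), `y' = n (e.symm y)`, `0 < ‖y'‖ = dist q (e.symm y) < r` (`S_DST`).  The map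
`τ = n ∘ e.symm` is a diffeomorphism near `y`, and `f z = dist q (e.symm z) = ‖τ z‖` near `y`, so `f` is smooth at `y`.
By the chain rule `A.gC e z v w = A.gC n (τ z) (Dτ v) (Dτ w)`.  Gradient:
`Df(w) = ⟪y', Dτ w⟫ / ‖y'‖ = A.gC n y' (y' / ‖y'‖) (Dτ w) = G y ν w` with `ν = (Dτ)⁻¹ (y' / ‖y'‖)`, and
`G y ν ν = A.gC n y' y' y' / ‖y'‖ ^ 2 = 1`.  Hessian: let `c` be the geodesic through `e.symm y` with `(e ∘ c)' = w`
(`S_GEO`), `w' = (n ∘ c)' = Dτ w`.  `S_HCUR` in the charts `e` and `n` (with the metric and connection of `n` from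
`S_TENG`, `S_CHR`; `A.covAcc` is the expression in `S_HCUR`, as `fderiv ℝ (fun y => A.gC e y v w) x u = fderiv ℝ G x u v w`)
gives `hess Γ f y w w = (f ∘ e ∘ c)'' = (‖·‖ ∘ n ∘ c)'' = hess Γ_n (‖·‖) y' w' w'`; `S_SECV` and `S_HSB` give the
bounds, with `A.gC n y' w' w' = G y w w`. -/
def S_HDI : Prop := ∀ (V : Type u) [NormedAddCommGroup V] [InnerProductSpace ℝ V]
  [FiniteDimensional ℝ V] (M : Type v) [MetricSpace M] [ChartedSpace V M]
  [IsManifold 𝓘(ℝ, V) ∞ M] (A : AlmostKahler V M) (K r : ℝ), 0 < r → 0 ≤ K → A.SecBound K →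
  A.InjRad r → ∀ q : M, ∀ e ∈ Charts V M, ∀ (G : V → V →L[ℝ] V →L[ℝ] ℝ)
  (Γ : V → V →L[ℝ] V →L[ℝ] V), IsMet e.target G →
  (∀ x ∈ e.target, ∀ v w, G x v w = A.gC e x v w) → IsLC e.target G Γ →
  ∀ y ∈ e.target, 0 < dist q (e.symm y) → dist q (e.symm y) < r →
    ContDiffAt ℝ ∞ (fun z => dist q (e.symm z)) y ∧
    (∃ ν : V, G y ν ν = 1 ∧ ∀ w, fderiv ℝ (fun z => dist q (e.symm z)) y w = G y ν w) ∧
    ∀ w, hess Γ (fun z => dist q (e.symm z)) y w w ≤ (1 / dist q (e.symm y) + √K) * G y w w ∧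
      -((1 / (r - dist q (e.symm y)) + √K) * G y w w) ≤
        hess Γ (fun z => dist q (e.symm z)) y w w

/-- **COO.** The distance functions from `n = dim V` points form the data of the distance
coordinates.

Proof.  Let `b = bas V`, `ρ = r / 2`, `q i = e.symm (- ρ b i)`, `f i x = dist (q i) (e.symm x)`.  By `S_DST`
`dist (q i) p = ρ` and `dist p (e.symm x) = ‖x‖ < r / 4`, so `r / 4 < f i x < 3 r / 4` on `ball 0 (r / 4)`.  `S_HDI` gives
smoothness, `|hess| ≤ (4 / r + √K) G`, and unit gradients; `S_GRD` gives the smooth gradients `N i` (equal to `ν`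
by the positivity of `G x`).  By `S_DST` (third part, with `v = - b i`) `f i (- t b i) ≤ ρ - t` for `0 ≤ t ≤ ρ`, and
`f i (- t b i) ≥ dist (q i) p - dist p (e.symm (- t b i)) = ρ - t`, so `D(f i)(0)(b i) = 1`:
`G 0 (N i 0) (b i) = ⟪N i 0, b i⟫ = 1`, `‖N i 0‖ = ‖b i‖ = 1`, so `N i 0 = b i`. -/
def S_COO : Prop := ∀ (V : Type u) [NormedAddCommGroup V] [InnerProductSpace ℝ V]
  [FiniteDimensional ℝ V] (M : Type v) [MetricSpace M] [ChartedSpace V M]
  [IsManifold 𝓘(ℝ, V) ∞ M] (A : AlmostKahler V M) (K r : ℝ), 0 < r → 0 ≤ K → A.SecBound K →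
  A.InjRad r → ∀ (p : M) (e : OpenPartialHomeomorph M V), NormalChart A r p e →
  ∀ (G : V → V →L[ℝ] V →L[ℝ] ℝ) (Γ : V → V →L[ℝ] V →L[ℝ] V), IsMet (ball 0 r) G →
  (∀ x ∈ ball (0:V) r, ∀ v w, G x v w = A.gC e x v w) → IsLC (ball 0 r) G Γ →
  ∃ (f : Fin (Module.finrank ℝ V) → V → ℝ) (N : Fin (Module.finrank ℝ V) → V → V),
    DistData (r / 4) (4 / r + √K) G Γ f N

/-- **OUT.** From a smooth section `σ` in a chart `e` to a good chart.

Proof.  `σ` is injective on `ball 0 R` (`F ∘ σ = id`), `Dσ` is injective, hence bijective, so `σ (ball 0 R)` is open and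
`σ : ball 0 R → σ (ball 0 R)` is a diffeomorphism with the inverse `F`.  Let `e'` be `e` followed by `F`, restricted to
`e.source ∩ e ⁻¹' (σ '' ball 0 R)`; `e'.symm y = e.symm (σ y)`, `e'.target = ball 0 R`.  It is in the maximal atlas
because `σ` and `F` are smooth on these open sets (compose the transition maps).  `e' p = F 0 = 0`.  By the chain rule
`frame e' y v = frame e (σ y) (Dσ y v)`, so `A.gC e' y v w = G (σ y) (Dσ v) (Dσ w)` for `y ∈ ball 0 R`. -/
def S_OUT : Prop := ∀ (V : Type u) [NormedAddCommGroup V] [InnerProductSpace ℝ V]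
  [FiniteDimensional ℝ V] (M : Type v) [MetricSpace M] [ChartedSpace V M]
  [IsManifold 𝓘(ℝ, V) ∞ M] (A : AlmostKahler V M) (s R K : ℝ) (p : M)
  (e : OpenPartialHomeomorph M V) (G : V → V →L[ℝ] V →L[ℝ] ℝ) (F σ : V → V), 0 < s → 0 < R →
  e ∈ Charts V M → ball 0 s ⊆ e.target → e.symm 0 = p →
  (∀ x ∈ ball (0:V) s, ∀ v w, G x v w = A.gC e x v w) → ContDiffOn ℝ ∞ F (ball 0 s) →
  ContDiffOn ℝ ∞ σ (ball 0 R) → σ 0 = 0 →
  (∀ y ∈ ball (0:V) R, σ y ∈ ball (0:V) s ∧ F (σ y) = y) →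
  (∀ y ∈ ball (0:V) R, ∀ v, (K⁻¹ * ‖v‖) ^ 2 ≤ G (σ y) (fderiv ℝ σ y v) (fderiv ℝ σ y v)) →
  (∀ y ∈ ball (0:V) R, ∀ v, G (σ y) (fderiv ℝ σ y v) (fderiv ℝ σ y v) ≤ (K * ‖v‖) ^ 2) →
  (∀ y ∈ ball (0:V) R, ∀ u v w,
    |fderiv ℝ (fun z => G (σ z) (fderiv ℝ σ z v) (fderiv ℝ σ z w)) y u| ≤
      K * ‖u‖ * ‖v‖ * ‖w‖) →
  ∃ e' : OpenPartialHomeomorph M V, A.GoodChart R K p e'

end Pool.Agent.H823.BG
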