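import Mathlib
import Pool.Agent.H823.BG.StmN

/-! # Project BG: assembly -/

open scoped Topology ContDiff Manifold RealInnerProductSpace
open Set Metric Filter MeasureTheory
open Pool.Agent.H823.HC

noncomputable section

namespace Pool.Agent.H823.BG

universe u v

/-- Bounded sectional curvature and injectivity radius bounded below imply bounded geometry. -/
def S_BGF : Prop := ∀ (V : Type u) [NormedAddCommGroup V] [InnerProductSpace ℝ V]
  [FiniteDimensional ℝ V] (M : Type v) [MetricSpace M] [ChartedSpace V M]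
  [IsManifold 𝓘(ℝ, V) ∞ M] (A : AlmostKahler V M) (K r : ℝ), 0 < r → A.SecBound K →
  A.InjRad r → A.BoundedGeometry

lemma DistData.mono {V : Type u} [NormedAddCommGroup V] [InnerProductSpace ℝ V]
    [FiniteDimensional ℝ V] {s s' C : ℝ} {G : V → V →L[ℝ] V →L[ℝ] ℝ}
    {Γ : V → V →L[ℝ] V →L[ℝ] V} {f : Fin (Module.finrank ℝ V) → V → ℝ}
    {N : Fin (Module.finrank ℝ V) → V → V} (h : DistData s C G Γ f N) (hs : s' ≤ s) :
    DistData s' C G Γ f N := by
  have hb : ball (0:V) s' ⊆ ball 0 s := ball_subset_ball hs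
  exact ⟨⟨isOpen_ball, h.met.smooth.mono hb, fun x hx => h.met.symm x (hb hx),
    fun x hx => h.met.pos x (hb hx)⟩, ⟨h.lc.smooth.mono hb, fun x hx => h.lc.symm x (hb hx),
    fun x hx => h.lc.koszul x (hb hx)⟩, fun x hx => h.gauss x (hb hx), h.inner_zero,
    fun i => (h.f_smooth i).mono hb, fun i => (h.N_smooth i).mono hb,
    fun i x hx => h.grad i x (hb hx), fun i x hx => h.unit i x (hb hx), h.N_zero,
    fun i x hx => h.hess_le i x (hb hx)⟩

lemma SecBound.mono {V : Type u} [NormedAddCommGroup V] [InnerProductSpace ℝ V]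
    {M : Type v} [MetricSpace M] [ChartedSpace V M]
    {A : AlmostKahler V M} {K K' : ℝ} (h : A.SecBound K) (hK : K ≤ K')
    (hcs : ∀ e ∈ Charts V M, ∀ x ∈ e.target, ∀ v w,
      0 ≤ A.gC e x v v * A.gC e x w w - A.gC e x v w ^ 2) : A.SecBound K' := by
  intro e he Γ hΓ x hx v w
  exact (h e he Γ hΓ x hx v w).trans (mul_le_mul_of_nonneg_right hK (hcs e he x hx v w))

lemma cs_of_met {V : Type u} [NormedAddCommGroup V] [InnerProductSpace ℝ V]
    {O : Set V} {G : V → V →L[ℝ] V →L[ℝ] ℝ} (h : IsMet O G) {x : V} (hx : x ∈ O) (v w : V) :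
    0 ≤ G x v v * G x w w - G x v w ^ 2 := by
  rcases eq_or_ne w 0 with rfl | hw
  · simp
  have hww := h.pos x hx w hw
  have h1 : 0 ≤ G x (G x w w • v - G x v w • w) (G x w w • v - G x v w • w) := by
    rcases eq_or_ne (G x w w • v - G x v w • w) 0 with h0 | h0
    · rw [h0]; simp
    · exact (h.pos x hx _ h0).le
  have h2 : G x (G x w w • v - G x v w • w) (G x w w • v - G x v w • w) =
      G x w w * (G x v v * G x w w - G x v w ^ 2) := by
    simp only [map_sub, map_smul, sub_apply, smul_apply,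
      smul_eq_mul, h.symm x hx w v]
    ring
  rw [h2] at h1
  exact nonneg_of_mul_nonneg_right h1 hww

theorem t_BGF (hTENG : S_TENG.{u, v}) (hCHR : S_CHR.{u}) (hNCH : S_NCH.{u, v})
    (hCOO : S_COO.{u, v}) (hNEAR : S_NEAR.{u}) (hLIN : S_LIN.{u}) (hFLOW : S_FLOW.{u})
    (hSIG : S_SIG.{u}) (hOUT : S_OUT.{u, v}) : S_BGF.{u, v} := by
  intro V _ _ _ M _ _ _ A K₀ r hr hSec₀ hInj
  -- we may assume `0 ≤ K`
  obtain ⟨K, hK, hSec⟩ : ∃ K, 0 ≤ K ∧ A.SecBound K := by
    refine ⟨max K₀ 0, le_max_right _ _, SecBound.mono hSec₀ (le_max_left _ _) ?_⟩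
    intro e he x hx v w
    obtain ⟨G, hG, hGe⟩ := hTENG V M A e he
    rw [← hGe x hx, ← hGe x hx, ← hGe x hx]
    exact cs_of_met hG hx v w
  set C : ℝ := 4 / r + √K with hC
  have hC0 : 0 ≤ C := by positivity
  set n : ℝ := (Module.finrank ℝ V : ℝ) with hn
  have hn0 : 0 ≤ n := Nat.cast_nonneg _
  set s : ℝ := min (r / 4) (1 / (4 * n * C + 1)) with hs
  have hs0 : 0 < s := lt_min (by positivity) (by positivity)
  have hs1 : s ≤ r / 4 := min_le_left _ _
  have hs2 : 2 * n * C * s ≤ 1 / 2 := by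
    have h1 : s ≤ 1 / (4 * n * C + 1) := min_le_right _ _
    have h2 : 0 < 4 * n * C + 1 := by positivity
    have h3 : s * (4 * n * C + 1) ≤ 1 := by
      rwa [le_div_iff₀ h2] at h1
    nlinarith [mul_nonneg (mul_nonneg hn0 hC0) hs0.le]
  set K' : ℝ := max 2 (12 * n * C) with hK'
  have hK2 : 2 ≤ K' := le_max_left _ _
  refine ⟨s / 2, K', by positivity, by linarith, fun p => ?_⟩
  obtain ⟨e, he⟩ := hNCH V M A r hr hInj p
  obtain ⟨G, hG, hGe⟩ := hTENG V M A e he.mem
  obtain ⟨Γ, hΓ⟩ := hCHR V e.target G hG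
  have hGr : ∀ x ∈ ball (0:V) r, ∀ v w, G x v w = A.gC e x v w := by
    intro x hx
    exact hGe x (by rw [he.target]; exact hx)
  obtain ⟨f, N, hdat⟩ := hCOO V M A K r hr hK hSec hInj p e he G Γ (he.target ▸ hG) hGr
    (he.target ▸ hΓ)
  have hdat' : DistData s C G Γ f N := hdat.mono hs1
  have hbs : ball (0:V) s ⊆ ball 0 r := ball_subset_ball (by linarith)
  set F : V → V := fun x => ∑ i, (f i x - f i 0) • bas V i with hF
  have hFs : ContDiffOn ℝ ∞ F (ball 0 s) := by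
    refine ContDiffOn.sum fun i _ => ?_
    exact ((hdat'.f_smooth i).sub contDiffOn_const).smul contDiffOn_const
  have hF0 : F 0 = 0 := by simp [hF]
  have hDF : ∀ x ∈ ball (0:V) s, ∀ w, fderiv ℝ F x w = ∑ i, G x (N i x) w • bas V i := by
    intro x hx w
    have hd : ∀ i, DifferentiableAt ℝ (f i) x := fun i =>
      ((hdat'.f_smooth i).contDiffAt (isOpen_ball.mem_nhds hx)).differentiableAt (by simp)
    have h1 : HasFDerivAt F (∑ i, (fderiv ℝ (f i) x).smulRight (bas V i)) x := by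
      refine HasFDerivAt.fun_sum fun i _ => ?_
      exact ((hd i).hasFDerivAt.sub_const _).smul_const _
    rw [h1.fderiv]
    simp only [ContinuousLinearMap.sum_apply, ContinuousLinearMap.smulRight_apply]
    exact Finset.sum_congr rfl fun i _ => by rw [hdat'.grad i x hx w]
  have hnear : ∀ x ∈ ball (0:V) s, ∀ a a' : V, |G x (∑ i, ⟪bas V i, a⟫ • N i x)
      (∑ i, ⟪bas V i, a'⟫ • N i x) - ⟪a, a'⟫| ≤ (1 / 2) * ‖a‖ * ‖a'‖ := by
    intro x hx a a'
    refine (hNEAR V s C G Γ f N hs0 hC0 hdat' x hx a a').trans ?_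
    have hx' : ‖x‖ ≤ s := by
      have := mem_ball_zero_iff.1 hx
      exact this.le
    have h1 : 2 * n * C * ‖x‖ ≤ 1 / 2 := by
      refine le_trans ?_ hs2
      exact mul_le_mul_of_nonneg_left hx' (by positivity)
    exact mul_le_mul_of_nonneg_right (mul_le_mul_of_nonneg_right h1 (norm_nonneg _))
      (norm_nonneg _)
  have hlin : ∀ x ∈ ball (0:V) s, ∀ w, G x w w ≤ 2 * ‖fderiv ℝ F x w‖ ^ 2 := by
    intro x hx w
    rw [hDF x hx w]
    exact (hLIN V (G x) (fun i => N i x) (hdat'.met.symm x hx) (hdat'.met.pos x hx)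
      (hnear x hx)).1 w
  obtain ⟨σ, hσ, hσ0, hσ1⟩ := hFLOW V s G F hs0 hdat'.met hdat'.gauss hFs hF0 hlin
  have hsig := hSIG V s C (s / 2) G Γ f N σ hs0 hC0 (by positivity) hdat' hs2 hσ hσ1
  refine hOUT V M A s (s / 2) K' p e G F σ hs0 (by positivity) he.mem ?_ he.symm_zero
    (fun x hx => hGr x (hbs hx)) hFs hσ hσ0 hσ1 ?_ ?_ ?_
  · rw [he.target]; exact hbs
  · intro y hy v
    have h1 := (hsig y hy).1 v
    have h2 : K'⁻¹ ≤ 1 / 2 := by
      rw [inv_le_comm₀ (by linarith) (by norm_num)]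
      norm_num
      exact hK2
    have h3 : (K'⁻¹ * ‖v‖) ^ 2 ≤ (1 / 2 * ‖v‖) ^ 2 :=
      pow_le_pow_left₀ (by positivity) (mul_le_mul_of_nonneg_right h2 (norm_nonneg _)) 2
    nlinarith [sq_nonneg ‖v‖]
  · intro y hy v
    have h1 := (hsig y hy).2.1 v
    have h3 : (2 * ‖v‖) ^ 2 ≤ (K' * ‖v‖) ^ 2 :=
      pow_le_pow_left₀ (by positivity) (mul_le_mul_of_nonneg_right hK2 (norm_nonneg _)) 2
    nlinarith [sq_nonneg ‖v‖]
  · intro y hy u v w
    refine ((hsig y hy).2.2 u v w).trans ?_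
    gcongr
    exact le_max_right _ _

end Pool.Agent.H823.BG
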