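import Mathlib
import Pool.Agent.H823.BG.StmW

/-! CHR: existence and smoothness of the Levi-Civita connection in coordinates. -/

open scoped Topology ContDiff RealInnerProductSpace
open Set Metric

set_option maxSynthPendingDepth 3

noncomputable section

namespace Pool.Agent.H823.BG

universe u v w

namespace PCHR

variable {V : Type u} [NormedAddCommGroup V] [InnerProductSpace ℝ V]

/-- The flip of bilinear forms. -/
def fl (V : Type u) [NormedAddCommGroup V] [InnerProductSpace ℝ V] :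
    (V →L[ℝ] V →L[ℝ] ℝ) →L[ℝ] (V →L[ℝ] V →L[ℝ] ℝ) :=
  (ContinuousLinearMap.flipₗᵢ ℝ V V ℝ).toContinuousLinearEquiv.toContinuousLinearMap

theorem fl_apply (T : V →L[ℝ] V →L[ℝ] ℝ) (v w : V) : fl V T v w = T w v := rfl

/-- The flip of the first two arguments of a trilinear form. -/
def fl3 (V : Type u) [NormedAddCommGroup V] [InnerProductSpace ℝ V] :
    (V →L[ℝ] V →L[ℝ] V →L[ℝ] ℝ) →L[ℝ] (V →L[ℝ] V →L[ℝ] V →L[ℝ] ℝ) :=
  (ContinuousLinearMap.flipₗᵢ ℝ V V (V →L[ℝ] ℝ)).toContinuousLinearEquiv.toContinuousLinearMap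

theorem fl3_apply (T : V →L[ℝ] V →L[ℝ] V →L[ℝ] ℝ) (v w z : V) : fl3 V T v w z = T w v z := rfl

/-- The right side of the Koszul formula. -/
def kos (T : V →L[ℝ] V →L[ℝ] V →L[ℝ] ℝ) : V →L[ℝ] V →L[ℝ] V →L[ℝ] ℝ :=
  (1 / 2 : ℝ) • (T + fl3 V T - (fl V).comp (fl3 V T))

theorem kos_apply (T : V →L[ℝ] V →L[ℝ] V →L[ℝ] ℝ) (v w z : V) :
    kos T v w z = (1 / 2) * (T v w z + T w v z - T z v w) := rfl

theorem two_kos (T : V →L[ℝ] V →L[ℝ] V →L[ℝ] ℝ) (v w z : V) :
    2 * kos T v w z = T v w z + T w v z - T z v w := by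
  rw [kos_apply]; ring

variable [FiniteDimensional ℝ V]

/-- A positive definite form is an isomorphism onto the dual. -/
theorem exists_equiv (g : V →L[ℝ] V →L[ℝ] ℝ) (hg : ∀ v, v ≠ 0 → 0 < g v v) :
    ∃ e : V ≃L[ℝ] (V →L[ℝ] ℝ), (e : V →L[ℝ] (V →L[ℝ] ℝ)) = g := by
  have hinj : Function.Injective g := by
    rw [injective_iff_map_eq_zero]
    intro v hv
    by_contra hne
    have := hg v hne
    rw [hv] at this
    simp at this
  have hfr : Module.finrank ℝ V = Module.finrank ℝ (V →L[ℝ] ℝ) := by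
    rw [← (LinearMap.toContinuousLinearMap (𝕜 := ℝ) (E := V) (F' := ℝ)).finrank_eq]
    exact (Subspace.dual_finrank_eq).symm
  let e₀ : V ≃ₗ[ℝ] (V →L[ℝ] ℝ) :=
    LinearEquiv.ofInjectiveOfFinrankEq (g : V →ₗ[ℝ] (V →L[ℝ] ℝ)) hinj hfr
  refine ⟨e₀.toContinuousLinearEquiv, ?_⟩
  ext v w
  rfl

theorem inv_apply (g : V →L[ℝ] V →L[ℝ] ℝ) (hg : ∀ v, v ≠ 0 → 0 < g v v) (φ : V →L[ℝ] ℝ) :
    g (ContinuousLinearMap.inverse g φ) = φ := by
  obtain ⟨e, he⟩ := exists_equiv g hg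
  rw [← he, ContinuousLinearMap.inverse_equiv]
  exact e.apply_symm_apply φ

theorem inv_contDiffAt (g : V →L[ℝ] V →L[ℝ] ℝ) (hg : ∀ v, v ≠ 0 → 0 < g v v) :
    ContDiffAt ℝ ∞ (ContinuousLinearMap.inverse : (V →L[ℝ] V →L[ℝ] ℝ) → ((V →L[ℝ] ℝ) →L[ℝ] V))
      g := by
  obtain ⟨e, he⟩ := exists_equiv g hg
  rw [← he]
  exact contDiffAt_map_inverse e

end PCHR

open PCHR

theorem t_CHR : S_CHR.{u} := by
  intro V _ _ _ O G hG
  have hO := hG.isOpen
  have hDG : ContDiffOn ℝ ∞ (fderiv ℝ G) O :=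
    hG.smooth.fderiv_of_isOpen hO (by norm_num)
  have hI : ContDiffOn ℝ ∞ (fun x => ContinuousLinearMap.inverse (G x)) O := by
    intro x hx
    exact (inv_contDiffAt (G x) (hG.pos x hx)).comp_contDiffWithinAt x (hG.smooth x hx)
  -- symmetry of the derivative
  have hsym : ∀ x ∈ O, ∀ z v w, fderiv ℝ G x z v w = fderiv ℝ G x z w v := by
    intro x hx z v w
    have hd : HasFDerivAt G (fderiv ℝ G x) x :=
      ((hG.smooth.contDiffAt (hO.mem_nhds hx)).differentiableAt (by simp)).hasFDerivAt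
    have h1 : HasFDerivAt (fun y => fl V (G y)) ((fl V).comp (fderiv ℝ G x)) x :=
      (fl V).hasFDerivAt.comp x hd
    have h2 : (fun y => fl V (G y)) =ᶠ[𝓝 x] G := by
      filter_upwards [hO.mem_nhds hx] with y hy
      ext a b
      rw [fl_apply]
      exact hG.symm y hy b a
    have h3 : (fl V).comp (fderiv ℝ G x) = fderiv ℝ G x :=
      (h1.congr_of_eventuallyEq h2.symm).unique hd
    have h4 : ((fl V).comp (fderiv ℝ G x)) z v w = fderiv ℝ G x z w v := rfl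
    rw [← h4, h3]
  refine ⟨fun x => (ContinuousLinearMap.compL ℝ V (V →L[ℝ] ℝ) V
    (ContinuousLinearMap.inverse (G x))).comp (kos (fderiv ℝ G x)), ?_, ?_, ?_⟩
  · refine ContDiffOn.clm_comp ?_ ?_
    · exact (ContinuousLinearMap.compL ℝ V (V →L[ℝ] ℝ) V).contDiff.comp_contDiffOn hI
    · have h1 : ContDiffOn ℝ ∞ (fun x => fl3 V (fderiv ℝ G x)) O :=
        (fl3 V).contDiff.comp_contDiffOn hDG
      exact ((hDG.add h1).sub (contDiffOn_const.clm_comp h1)).const_smul _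
  · intro x hx v w
    show ContinuousLinearMap.inverse (G x) (kos (fderiv ℝ G x) v w) =
      ContinuousLinearMap.inverse (G x) (kos (fderiv ℝ G x) w v)
    congr 1
    ext z
    rw [kos_apply, kos_apply, hsym x hx z v w]
    ring
  · intro x hx v w z
    show 2 * G x (ContinuousLinearMap.inverse (G x) (kos (fderiv ℝ G x) v w)) z = _
    rw [inv_apply (G x) (hG.pos x hx), two_kos]

end Pool.Agent.H823.BG
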