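import Mathlib
import Pool.Agent.H823.BG.StmN

/-!
# Project BG: distance functions from `n` points form distance coordinates
-/

open scoped Topology ContDiff Manifold RealInnerProductSpace
open Set Metric Filter MeasureTheory
open Pool.Agent.H823.HC

noncomputable section

namespace Pool.Agent.H823.BG

universe u v w

namespace PCOO

section
variable {V : Type u} [NormedAddCommGroup V] [InnerProductSpace ℝ V]

theorem met_mono {O O' : Set V} {G : V → V →L[ℝ] V →L[ℝ] ℝ} (h : IsMet O G) (hO' : IsOpen O')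
    (hs : O' ⊆ O) : IsMet O' G :=
  ⟨hO', h.smooth.mono hs, fun x hx => h.symm x (hs hx), fun x hx => h.pos x (hs hx)⟩

theorem lc_mono {O O' : Set V} {G : V → V →L[ℝ] V →L[ℝ] ℝ} {Γ : V → V →L[ℝ] V →L[ℝ] V}
    (h : IsLC O G Γ) (hs : O' ⊆ O) : IsLC O' G Γ :=
  ⟨h.smooth.mono hs, fun x hx => h.symm x (hs hx), fun x hx => h.koszul x (hs hx)⟩

theorem met_nonneg {O : Set V} {G : V → V →L[ℝ] V →L[ℝ] ℝ} (h : IsMet O G) {x : V} (hx : x ∈ O)
    (w : V) : 0 ≤ G x w w := by
  by_cases hw : w = 0
  · rw [hw]; simp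
  · exact (h.pos x hx w hw).le

/-- the gradient is unique -/
theorem grad_unique {O : Set V} {G : V → V →L[ℝ] V →L[ℝ] ℝ} (h : IsMet O G) {x : V} (hx : x ∈ O)
    {a b : V} (hab : ∀ w, G x a w = G x b w) : a = b := by
  by_contra hne
  have h1 := h.pos x hx (a - b) (sub_ne_zero.2 hne)
  have e : G x (a - b) = G x a - G x b := map_sub (G x) a b
  have h2 : G x (a - b) (a - b) = G x a (a - b) - G x b (a - b) := by
    rw [e]; rfl
  rw [hab, sub_self] at h2
  linarith

/-- the derivative of a function which is affine with slope one on one side -/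
theorem slope_one {φ : ℝ → ℝ} {D c ρ : ℝ} (hρ : 0 < ρ) (hD : HasDerivAt φ D 0)
    (h : ∀ t, -ρ ≤ t → t ≤ 0 → φ t = c + t) : D = 1 := by
  have h1 : HasDerivWithinAt φ D (Iic 0) 0 := hD.hasDerivWithinAt
  have h2 : HasDerivWithinAt (fun t : ℝ => c + t) 1 (Iic 0) 0 :=
    ((hasDerivAt_id (0 : ℝ)).const_add c).hasDerivWithinAt
  have h3 : HasDerivWithinAt φ 1 (Iic 0) 0 := by
    refine h2.congr_of_eventuallyEq ?_ (h 0 (by linarith) le_rfl)
    have h4 : Ioi (-ρ) ∈ 𝓝[Iic 0] (0 : ℝ) :=
      mem_nhdsWithin_of_mem_nhds (Ioi_mem_nhds (by linarith))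
    filter_upwards [h4, self_mem_nhdsWithin] with t ht ht'
    exact h t (le_of_lt ht) ht'
  exact (uniqueDiffOn_Iic (0 : ℝ) 0 (mem_Iic.2 le_rfl)).eq_deriv _ h1 h3

end

end PCOO

open PCOO in
theorem t_COO (hDST : S_DST.{u, v}) (hHDI : S_HDI.{u, v}) (hGRD : S_GRD.{u}) : S_COO.{u, v} := by
  intro V _ _ _ M _ _ _ A K r hr hK hSec hInj p e hN G Γ hMet hG hLC
  obtain ⟨-, hdist, hray⟩ := hDST V M A r p e hr hN
  have hsub : ball (0 : V) (r / 4) ⊆ ball 0 r := ball_subset_ball (by linarith)
  have h0 : (0 : V) ∈ ball (0 : V) r := mem_ball_self hr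
  have h04 : (0 : V) ∈ ball (0 : V) (r / 4) := mem_ball_self (by linarith)
  have hMet4 : IsMet (ball (0 : V) (r / 4)) G := met_mono hMet isOpen_ball hsub
  -- the points
  set q : Fin (Module.finrank ℝ V) → M := fun i => e.symm (-((r / 2) • bas V i)) with hq
  set f : Fin (Module.finrank ℝ V) → V → ℝ := fun i x => dist (q i) (e.symm x) with hf
  have hb : ∀ i, ‖bas V i‖ = 1 := fun i => (bas V).norm_eq_one i
  have hqn : ∀ i, ‖-((r / 2) • bas V i)‖ = r / 2 := by
    intro i
    rw [norm_neg, norm_smul, hb, mul_one, Real.norm_eq_abs, abs_of_pos (by linarith)]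
  have hqp : ∀ i, dist (q i) p = r / 2 := by
    intro i
    rw [dist_comm, hq]
    simp only
    rw [hdist _ (by rw [mem_ball_zero_iff, hqn]; linarith), hqn]
  have hfb : ∀ i, ∀ x ∈ ball (0 : V) (r / 4), r / 4 < f i x ∧ f i x < 3 * r / 4 := by
    intro i x hx
    have hx' := mem_ball_zero_iff.1 hx
    have h1 := hdist x (hsub hx)
    have h2 := hqp i
    have h3 := dist_triangle (q i) p (e.symm x)
    have h4 := dist_triangle (q i) (e.symm x) p
    rw [dist_comm (e.symm x) p] at h4
    simp only [hf]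
    constructor
    · linarith
    · linarith
  -- Hessian, gradient, smoothness
  have hH : ∀ i, ∀ x ∈ ball (0 : V) (r / 4), ContDiffAt ℝ ∞ (f i) x ∧
      (∃ ν : V, G x ν ν = 1 ∧ ∀ w, fderiv ℝ (f i) x w = G x ν w) ∧
      ∀ w, |hess Γ (f i) x w w| ≤ (4 / r + √K) * G x w w := by
    intro i x hx
    obtain ⟨hb1, hb2⟩ := hfb i x hx
    have hpos : 0 < dist (q i) (e.symm x) := by
      have : 0 < r / 4 := by linarith
      exact this.trans hb1
    have hlt : dist (q i) (e.symm x) < r := hb2.trans (by linarith)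
    have hxt : x ∈ e.target := by rw [hN.target]; exact hsub hx
    obtain ⟨c1, c2, c3⟩ := hHDI V M A K r hr hK hSec hInj (q i) e hN.mem G Γ
      (by rw [hN.target]; exact hMet) (by rw [hN.target]; exact hG)
      (by rw [hN.target]; exact hLC) x hxt hpos hlt
    refine ⟨c1, c2, ?_⟩
    intro w
    obtain ⟨d1, d2⟩ := c3 w
    have hGw := met_nonneg hMet4 hx w
    have e1 : 1 / dist (q i) (e.symm x) ≤ 4 / r := by
      rw [div_le_div_iff₀ hpos hr]
      simp only [hf] at hb1
      linarith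
    have e2 : 1 / (r - dist (q i) (e.symm x)) ≤ 4 / r := by
      simp only [hf] at hb2
      rw [div_le_div_iff₀ (by linarith) hr]
      linarith
    rw [abs_le]
    constructor
    · refine le_trans ?_ d2
      have := mul_le_mul_of_nonneg_right (add_le_add_left e2 (√K)) hGw
      linarith
    · refine d1.trans ?_
      exact mul_le_mul_of_nonneg_right (add_le_add_left e1 (√K)) hGw
  have hfs : ∀ i, ContDiffOn ℝ ∞ (f i) (ball (0 : V) (r / 4)) := fun i x hx =>
    (hH i x hx).1.contDiffWithinAt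
  choose N hNs hNg using fun i => hGRD V (ball (0 : V) (r / 4)) G hMet4 (f i) (hfs i)
  have hunit : ∀ i, ∀ x ∈ ball (0 : V) (r / 4), G x (N i x) (N i x) = 1 := by
    intro i x hx
    obtain ⟨ν, hν1, hν2⟩ := (hH i x hx).2.1
    have : N i x = ν := by
      refine grad_unique hMet4 hx fun w => ?_
      rw [← hNg i x hx w, hν2 w]
    rw [this]
    exact hν1
  have hinner : ∀ v w : V, G 0 v w = ⟪v, w⟫ := fun v w => by
    rw [hG 0 h0, hN.inner_zero]
  have hN0 : ∀ i, N i 0 = bas V i := by
    intro i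
    -- the derivative in the direction of the basis vector
    have hdf : HasFDerivAt (f i) (fderiv ℝ (f i) 0) 0 :=
      ((hH i 0 h04).1.differentiableAt (by simp)).hasFDerivAt
    have hc : HasDerivAt (fun t : ℝ => t • bas V i) (bas V i) 0 := by
      simpa using (hasDerivAt_id (0 : ℝ)).smul_const (bas V i)
    have hφ : HasDerivAt (fun t : ℝ => f i (t • bas V i)) (fderiv ℝ (f i) 0 (bas V i)) 0 := by
      have hdf' : HasFDerivAt (f i) (fderiv ℝ (f i) 0) ((fun t : ℝ => t • bas V i) 0) := by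
        simpa using hdf
      exact hdf'.comp_hasDerivAt 0 hc
    have hD1 : fderiv ℝ (f i) 0 (bas V i) = 1 := by
      refine slope_one (c := r / 2) (ρ := r / 2) (by linarith) hφ ?_
      intro t ht1 ht2
      have hneg : -((r / 2) • bas V i) = (-(r / 2)) • bas V i := (neg_smul _ _).symm
      have h1 := hray (bas V i) (hb i) (-(r / 2)) t (by linarith) ht1 (by linarith)
      have hnt : ‖t • bas V i‖ = -t := by
        rw [norm_smul, hb, mul_one, Real.norm_eq_abs, abs_of_nonpos ht2]
      have h2 := hdist (t • bas V i) (by rw [mem_ball_zero_iff, hnt]; linarith)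
      rw [hnt] at h2
      have h3 := dist_triangle (q i) (e.symm (t • bas V i)) p
      rw [hqp i, dist_comm (e.symm (t • bas V i)) p, h2] at h3
      simp only [hf]
      have h4 : q i = e.symm ((-(r / 2)) • bas V i) := by
        simp only [hq]
        rw [hneg]
      rw [← h4] at h1
      linarith
    have h5 : ⟪N i 0, bas V i⟫ = 1 := by
      rw [← hinner, ← hNg i 0 h04, hD1]
    have h6 : ⟪N i 0, N i 0⟫ = 1 := by
      rw [← hinner]
      exact hunit i 0 h04
    have h7 : ⟪bas V i, bas V i⟫ = 1 := by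
      rw [real_inner_self_eq_norm_sq, hb, one_pow]
    have h8 : ⟪N i 0 - bas V i, N i 0 - bas V i⟫ = 0 := by
      rw [inner_sub_left, inner_sub_right, inner_sub_right, h6, h7, h5,
        real_inner_comm, h5]
      norm_num
    exact sub_eq_zero.1 (inner_self_eq_zero.1 h8)
  refine ⟨f, N, hMet4, lc_mono hLC hsub, ?_, hinner, hfs, hNs, ?_, hunit, hN0, ?_⟩
  · intro x hx w
    rw [hG x (hsub hx), hN.gauss x (hsub hx)]
  · intro i x hx w
    exact hNg i x hx w
  · intro i x hx w
    exact (hH i x hx).2.2 w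

end Pool.Agent.H823.BG
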