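import Mathlib
import Pool.Agent.H823.BG.StmN
import Pool.Agent.H823.HC.P_TENS
import Pool.Agent.H823.HC.P_DIST

/-!
# Distances in a normal chart
-/

open scoped Topology ContDiff Manifold RealInnerProductSpace
open Set Metric Filter MeasureTheory
open Pool.Agent.H823.HC Pool.Agent.H823.HC.PDIST Pool.Agent.H823.HC.PTENS

noncomputable section

universe u v w

namespace Pool.Agent.H823.BG.PDST

section

variable {V : Type u} [NormedAddCommGroup V] [InnerProductSpace ℝ V]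
  {M : Type v} [MetricSpace M] [ChartedSpace V M] (A : AlmostKahler V M)

theorem gC_smul_left (e : OpenPartialHomeomorph M V) (x : V) (a : ℝ) (v w : V) :
    A.gC e x (a • v) w = a * A.gC e x v w := by
  unfold AlmostKahler.gC
  rw [frame_smul, map_smul]
  rfl

/-- the metric on the radial vector -/
theorem gC_radial {r : ℝ} {p : M} {e : OpenPartialHomeomorph M V} (hN : NormalChart A r p e)
    {v : V} (hv : ‖v‖ = 1) {τ : ℝ} (hτ : |τ| < r) : A.gC e (τ • v) v v = 1 := by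
  have hvv : (⟪v, v⟫ : ℝ) = 1 := by rw [real_inner_self_eq_norm_sq, hv]; norm_num
  rcases eq_or_ne τ 0 with h | h
  · rw [h, zero_smul, hN.inner_zero, hvv]
  · have h1 : τ • v ∈ ball (0:V) r := by
      rw [mem_ball_zero_iff, norm_smul, hv, mul_one]
      exact hτ
    have h2 := hN.gauss (τ • v) h1 v
    rw [gC_smul_left, real_inner_smul_left, hvv] at h2
    exact mul_left_cancel₀ h h2

theorem gC_self {r : ℝ} {p : M} {e : OpenPartialHomeomorph M V} (hN : NormalChart A r p e)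
    {x : V} (hx : x ∈ ball (0:V) r) (w : V) :
    (⟪x, w⟫ : ℝ) ≤ ‖x‖ * Real.sqrt (A.gC e x w w) := by
  have h1 := hN.gauss x hx w
  have h2 := hN.gauss x hx x
  have h3 : A.gC e x x w ^ 2 ≤ A.gC e x x x * A.gC e x w w :=
    g_cs A (e.symm x) (frame e x x) (frame e x w)
  rw [h1, h2, real_inner_self_eq_norm_sq] at h3
  have h4 : 0 ≤ A.gC e x w w := g_nonneg A (e.symm x) (frame e x w)
  have h5 : (⟪x, w⟫ : ℝ) ≤ Real.sqrt (‖x‖ ^ 2 * A.gC e x w w) := Real.le_sqrt_of_sq_le h3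
  rwa [Real.sqrt_mul (by positivity), Real.sqrt_sq (norm_nonneg x)] at h5

variable [FiniteDimensional ℝ V] [IsManifold 𝓘(ℝ, V) ∞ M]

/-- the radial curve -/
theorem radial (hLEN : S_LEN.{u, v}) {r : ℝ} {p : M} {e : OpenPartialHomeomorph M V}
    (hN : NormalChart A r p e) {v : V} (hv : ‖v‖ = 1) {s t : ℝ} (hs : -r < s) (hst : s ≤ t)
    (ht : t < r) : dist (e.symm (s • v)) (e.symm (t • v)) ≤ t - s := by
  rcases eq_or_lt_of_le hst with h | hlt
  · rw [h, dist_self, sub_self]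
  set c : ℝ → M := fun τ => e.symm (τ • v) with hc
  have hmem : ∀ τ ∈ Ioo (-r) r, τ • v ∈ e.target := by
    intro τ hτ
    rw [hN.target, mem_ball_zero_iff, norm_smul, hv, mul_one, Real.norm_eq_abs, abs_lt]
    exact hτ
  have hsm : ∀ τ ∈ Ioo (-r) r, ContMDiffAt 𝓘(ℝ, ℝ) 𝓘(ℝ, V) 1 c τ := by
    intro τ hτ
    have h1 : ContMDiffAt 𝓘(ℝ, V) 𝓘(ℝ, V) ∞ e.symm (τ • v) :=
      (contMDiffOn_symm_of_mem_maximalAtlas hN.mem).contMDiffAt
        (e.open_target.mem_nhds (hmem τ hτ))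
    have h2 : ContMDiffAt 𝓘(ℝ, ℝ) 𝓘(ℝ, V) 1 (fun τ : ℝ => τ • v) τ :=
      ((contDiff_id.smul contDiff_const).contDiffAt).contMDiffAt
    exact (h1.of_le (by simp)).comp τ h2
  have hsub : Icc s t ⊆ Ioo (-r) r := fun τ hτ => ⟨hs.trans_le hτ.1, hτ.2.trans_lt ht⟩
  have hL := hLEN V M A c s t hst (fun τ hτ => (hsm τ (hsub hτ)).contMDiffWithinAt)
  refine hL.trans (le_of_eq ?_)
  have hint : ∀ τ ∈ uIcc s t, A.nrm (c τ)
      (mfderivWithin 𝓘(ℝ, ℝ) 𝓘(ℝ, V) c (Icc s t) τ (1:ℝ)) = 1 := by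
    intro τ hτ
    rw [uIcc_of_le hst] at hτ
    have h1 : MDifferentiableAt 𝓘(ℝ, ℝ) 𝓘(ℝ, V) c τ := (hsm τ (hsub hτ)).mdifferentiableAt (by simp)
    have h2 : UniqueMDiffWithinAt 𝓘(ℝ, ℝ) (Icc s t) τ :=
      ((uniqueDiffOn_Icc hlt) τ hτ).uniqueMDiffWithinAt
    rw [mfderivWithin_eq_mfderiv h2 h1]
    have h3 : c τ ∈ e.source := e.map_target (hmem τ (hsub hτ))
    have h4 := (curve_chart A hN.mem (hsm τ (hsub hτ)) h3).2
    have h5 : (fun t' => e (c t')) =ᶠ[𝓝 τ] fun t' => t' • v := by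
      filter_upwards [isOpen_Ioo.mem_nhds (hsub hτ)] with t' ht'
      exact e.right_inv (hmem t' ht')
    have h6 : deriv (fun t' => e (c t')) τ = v := by
      rw [h5.deriv_eq]
      have h7 : HasDerivAt (fun t' : ℝ => t' • v) ((1:ℝ) • v) τ := (hasDerivAt_id τ).smul_const v
      rw [h7.deriv, one_smul]
    have h8 : e (c τ) = τ • v := e.right_inv (hmem τ (hsub hτ))
    rw [h6, h8, gC_radial A hN hv (abs_lt.2 (hsub hτ))] at h4
    have h9 : A.nrm (c τ) (mfderiv 𝓘(ℝ, ℝ) 𝓘(ℝ, V) c τ (1:ℝ)) = Real.sqrt (sp2 A c τ) := rfl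
    rw [h9, h4, Real.sqrt_one]
  rw [intervalIntegral.integral_congr hint]
  simp

theorem dist_le (hLEN : S_LEN.{u, v}) {r : ℝ} {p : M} {e : OpenPartialHomeomorph M V}
    (hN : NormalChart A r p e) {x : V} (hx : x ∈ ball (0:V) r) :
    dist p (e.symm x) ≤ ‖x‖ := by
  rw [mem_ball_zero_iff] at hx
  rcases eq_or_ne x 0 with h | h
  · rw [h, hN.symm_zero, dist_self, norm_zero]
  · have h0 : 0 < ‖x‖ := norm_pos_iff.2 h
    have h1 : ‖(‖x‖⁻¹ • x)‖ = 1 := by
      rw [norm_smul, norm_inv, norm_norm, inv_mul_cancel₀ h0.ne']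
    have h2 := radial A hLEN hN h1 (s := 0) (t := ‖x‖) (by linarith) h0.le hx
    rw [zero_smul, smul_smul, mul_inv_cancel₀ h0.ne', one_smul, hN.symm_zero, sub_zero] at h2
    exact h2

theorem est' {r : ℝ} {p : M} {e : OpenPartialHomeomorph M V} (hr : 0 < r)
    (hN : NormalChart A r p e) {c : ℝ → M}
    (hc : ContMDiff 𝓘(ℝ, ℝ) 𝓘(ℝ, V) 1 c) (h0 : c 0 = p) {t : ℝ} (ht0 : 0 ≤ t) (ht1 : t ≤ 1)
    (hU : ∀ s ∈ Icc 0 t, c s ∈ e.source) :
    ‖e (c t)‖ ≤ ∫ s in (0:ℝ)..1, Real.sqrt (sp2 A c s) := by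
  have hcont : Continuous fun s => Real.sqrt (sp2 A c s) :=
    Real.continuous_sqrt.comp (sp2_cont A hc)
  set f : ℝ → V := fun t => e (c t) with hf
  have hdiff : ∀ s ∈ Icc 0 t, ContDiffAt ℝ 1 f s := fun s hs =>
    (curve_chart A hN.mem (hc s) (hU s hs)).1
  have hball : ∀ s ∈ Icc 0 t, f s ∈ ball (0:V) r := by
    intro s hs
    rw [← hN.target]
    exact e.map_source (hU s hs)
  have hder : ∀ s ∈ Icc 0 t, (⟪f s, deriv f s⟫ : ℝ) ≤ ‖f s‖ * Real.sqrt (sp2 A c s) := by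
    intro s hs
    have h1 := (curve_chart A hN.mem (hc s) (hU s hs)).2
    have h2 := gC_self A hN (hball s hs) (deriv f s)
    rw [h1]
    exact h2
  have hf0 : f 0 = 0 := by
    show e (c 0) = 0
    rw [h0, ← hN.symm_zero]
    exact e.right_inv (by rw [hN.target]; exact mem_ball_self hr)
  have hi1 : ∀ a b : ℝ, IntervalIntegrable (fun s => Real.sqrt (sp2 A c s)) volume a b :=
    fun a b => hcont.intervalIntegrable a b
  have hle : (∫ s in (0:ℝ)..t, Real.sqrt (sp2 A c s)) ≤ ∫ s in (0:ℝ)..1, Real.sqrt (sp2 A c s) := by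
    rw [← intervalIntegral.integral_add_adjacent_intervals (hi1 0 t) (hi1 t 1)]
    have h6 : 0 ≤ ∫ s in t..1, Real.sqrt (sp2 A c s) :=
      intervalIntegral.integral_nonneg ht1 fun s _ => Real.sqrt_nonneg _
    linarith
  refine le_trans ?_ hle
  refine le_of_forall_pos_le_add fun ε hε => ?_
  -- the regularised norm
  set g : ℝ → ℝ := fun s => Real.sqrt (‖f s‖ ^ 2 + ε ^ 2) with hg
  have hpos : ∀ s, 0 < ‖f s‖ ^ 2 + ε ^ 2 := fun s => by positivity
  have hgd : ∀ s ∈ Icc 0 t, HasDerivAt g ((⟪f s, deriv f s⟫ : ℝ) / g s) s := by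
    intro s hs
    have h1 : HasDerivAt f (deriv f s) s := ((hdiff s hs).differentiableAt (by simp)).hasDerivAt
    have h2 : HasDerivAt (fun s => ‖f s‖ ^ 2) (2 * ⟪f s, deriv f s⟫) s := h1.norm_sq
    have h3 : HasDerivAt g (2 * ⟪f s, deriv f s⟫ / (2 * Real.sqrt (‖f s‖ ^ 2 + ε ^ 2))) s :=
      (h2.add_const (ε ^ 2)).sqrt (hpos s).ne'
    have h4 : 2 * ⟪f s, deriv f s⟫ / (2 * Real.sqrt (‖f s‖ ^ 2 + ε ^ 2)) =
        (⟪f s, deriv f s⟫ : ℝ) / g s := by
      rw [hg]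
      exact mul_div_mul_left _ _ two_ne_zero
    rwa [h4] at h3
  have hgpos : ∀ s, 0 < g s := fun s => Real.sqrt_pos.2 (hpos s)
  have hgle : ∀ s, ‖f s‖ ≤ g s := fun s => by
    refine Real.le_sqrt_of_sq_le ?_
    have := sq_nonneg ε
    linarith
  have hmain : g t - g 0 ≤ ∫ s in (0:ℝ)..t, Real.sqrt (sp2 A c s) := by
    refine intervalIntegral.sub_le_integral_of_hasDeriv_right_of_le (g' := fun s =>
      (⟪f s, deriv f s⟫ : ℝ) / g s) ht0
      (fun s hs => (hgd s hs).continuousAt.continuousWithinAt)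
      (fun s hs => (hgd s (Ioo_subset_Icc_self hs)).hasDerivWithinAt) ?_ ?_
    · exact hcont.continuousOn.integrableOn_Icc
    · intro s hs
      show (⟪f s, deriv f s⟫ : ℝ) / g s ≤ Real.sqrt (sp2 A c s)
      rw [div_le_iff₀ (hgpos s), mul_comm]
      exact (hder s (Ioo_subset_Icc_self hs)).trans
        (mul_le_mul_of_nonneg_right (hgle s) (Real.sqrt_nonneg _))
  have hg0 : g 0 = ε := by
    show Real.sqrt (‖f 0‖ ^ 2 + ε ^ 2) = ε
    rw [hf0, norm_zero]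
    simp [Real.sqrt_sq hε.le]
  rw [hg0] at hmain
  linarith [hgle t]

/-- a short curve from the centre stays in the chart -/
theorem stay' {r : ℝ} {p : M} {e : OpenPartialHomeomorph M V} (hr : 0 < r)
    (hN : NormalChart A r p e) {c : ℝ → M}
    (hc : ContMDiff 𝓘(ℝ, ℝ) 𝓘(ℝ, V) 1 c) (h0 : c 0 = p)
    (hL : (∫ s in (0:ℝ)..1, Real.sqrt (sp2 A c s)) < r) :
    ∀ s ∈ Icc (0:ℝ) 1, c s ∈ e.source := by
  by_contra hcon
  push Not at hcon
  obtain ⟨ρ, hρ⟩ : ∃ ρ, ρ = (∫ s in (0:ℝ)..1, Real.sqrt (sp2 A c s)) := ⟨_, rfl⟩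
  set T : Set ℝ := Icc (0:ℝ) 1 ∩ c ⁻¹' e.sourceᶜ with hT
  have hTc : IsCompact T := by
    refine isCompact_Icc.inter_right ?_
    exact e.open_source.isClosed_compl.preimage hc.continuous
  have hTne : T.Nonempty := by
    obtain ⟨s, hs, h1⟩ := hcon
    exact ⟨s, hs, h1⟩
  obtain ⟨t₁, ht₁, hmin⟩ := hTc.exists_isLeast hTne
  have ht01 : t₁ ∈ Icc (0:ℝ) 1 := ht₁.1
  have hlt : ∀ s ∈ Icc (0:ℝ) 1, s < t₁ → c s ∈ e.source := by
    intro s hs hst
    by_contra h1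
    exact absurd (hmin ⟨hs, h1⟩) (not_le.2 hst)
  have h0t : (0:V) ∈ e.target := by rw [hN.target]; exact mem_ball_self hr
  have hpU : c 0 ∈ e.source := by
    rw [h0, ← hN.symm_zero]
    exact e.map_target h0t
  have ht1pos : 0 < t₁ := by
    rcases lt_or_eq_of_le ht01.1 with h | h
    · exact h
    · exfalso
      apply ht₁.2
      rw [← h]
      exact hpU
  have hsub : closedBall (0:V) ρ ⊆ e.target := by
    rw [hN.target]
    exact closedBall_subset_ball (by rw [hρ]; exact hL)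
  have hCc : IsCompact (e.symm '' closedBall (0:V) ρ) :=
    (isCompact_closedBall (0:V) ρ).image_of_continuousOn
      (e.continuousOn_symm.mono hsub)
  have hmem : ∀ s ∈ Ico (0:ℝ) t₁, c s ∈ e.symm '' closedBall (0:V) ρ := by
    intro s hs
    have h1 : ∀ s' ∈ Icc 0 s, c s' ∈ e.source := fun s' hs' =>
      hlt s' ⟨hs'.1, (hs'.2.trans hs.2.le).trans ht01.2⟩ (lt_of_le_of_lt hs'.2 hs.2)
    have h2 := est' A hr hN hc h0 hs.1 (hs.2.le.trans ht01.2) h1
    rw [← hρ] at h2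
    exact ⟨e (c s), mem_closedBall_zero_iff.2 h2, e.left_inv (h1 s ⟨hs.1, le_rfl⟩)⟩
  have hlim : c t₁ ∈ e.symm '' closedBall (0:V) ρ := by
    have h3 : Tendsto c (𝓝[<] t₁) (𝓝 (c t₁)) := hc.continuous.continuousWithinAt
    have h4 : ∀ᶠ s in 𝓝[<] t₁, c s ∈ e.symm '' closedBall (0:V) ρ := by
      filter_upwards [Ico_mem_nhdsLT ht1pos] with s hs
      exact hmem s hs
    exact hCc.isClosed.mem_of_tendsto h3 h4
  apply ht₁.2
  obtain ⟨v, hv, hv'⟩ := hlim
  rw [← hv']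
  exact e.map_target (hsub hv)

theorem near {r : ℝ} {p : M} {e : OpenPartialHomeomorph M V} (hr : 0 < r)
    (hN : NormalChart A r p e) {y : M} (hy : dist p y < r) :
    y ∈ e.source ∧ ‖e y‖ ≤ dist p y := by
  have key : ∀ ℓ : ℝ, dist p y < ℓ → ℓ ≤ r → y ∈ e.source ∧ ‖e y‖ ≤ ℓ := by
    intro ℓ h1 h2
    obtain ⟨L, ⟨c, hc, h0, h1', hL⟩, hLℓ⟩ := (isGLB_lt_iff (A.isGLB_dist p y)).1 h1
    have hL' : L = ∫ t in (0:ℝ)..1, Real.sqrt (sp2 A c t) := hL
    have hlt : (∫ s in (0:ℝ)..1, Real.sqrt (sp2 A c s)) < r := by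
      rw [← hL']
      exact hLℓ.trans_le h2
    have h4 := stay' A hr hN hc h0 hlt
    have h5 := est' A hr hN hc h0 zero_le_one le_rfl h4
    rw [h1', ← hL'] at h5
    have h6 := h4 1 ⟨zero_le_one, le_rfl⟩
    rw [h1'] at h6
    exact ⟨h6, h5.trans hLℓ.le⟩
  refine ⟨(key r hy le_rfl).1, ?_⟩
  refine le_of_forall_gt_imp_ge_of_dense fun ℓ hℓ => ?_
  exact (key (min ℓ r) (lt_min hℓ hy) (min_le_right _ _)).2.trans (min_le_left _ _)

end

end Pool.Agent.H823.BG.PDST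

namespace Pool.Agent.H823.BG

open PDST

/-- **Distances in a normal chart.** -/
theorem t_DST (hLEN : Pool.Agent.H823.HC.S_LEN.{u, v}) : S_DST.{u, v} := by
  intro V _ _ _ M _ _ _ A r p e hr hN
  have hsrc : e.source = ball p r := by
    ext z
    constructor
    · intro hz
      have h1 : e z ∈ ball (0:V) r := by
        rw [← hN.target]
        exact e.map_source hz
      have h2 := dist_le A hLEN hN h1
      rw [e.left_inv hz] at h2
      rw [mem_ball, dist_comm]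
      exact h2.trans_lt (mem_ball_zero_iff.1 h1)
    · intro hz
      rw [mem_ball, dist_comm] at hz
      exact (near A hr hN hz).1
  refine ⟨hsrc, ?_, ?_⟩
  · intro x hx
    refine le_antisymm (dist_le A hLEN hN hx) ?_
    have h1 : dist p (e.symm x) < r := (dist_le A hLEN hN hx).trans_lt (mem_ball_zero_iff.1 hx)
    have h2 := (near A hr hN h1).2
    rwa [e.right_inv (by rw [hN.target]; exact hx)] at h2
  · intro v hv s t hs hst ht
    exact radial A hLEN hN hv hs hst ht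

end Pool.Agent.H823.BG
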