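import Mathlib
import Pool.Agent.H823.BG.StmN

/-!
# Project BG, ENE: geodesics have constant speed (helper553)
-/

open scoped Topology ContDiff Manifold RealInnerProductSpace
open Set Metric Filter MeasureTheory
open Pool.Agent.H823.HC

noncomputable section

namespace Pool.Agent.H823.BG

universe u v w

namespace PENE

variable {V : Type u} [NormedAddCommGroup V] [InnerProductSpace ℝ V]

theorem exists_bil [FiniteDimensional ℝ V] (B : V → V → V → ℝ)
    (h1 : ∀ p x y z, B p (x + y) z = B p x z + B p y z)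
    (h2 : ∀ p (c : ℝ) x z, B p (c • x) z = c • B p x z)
    (h3 : ∀ p x y z, B p x (y + z) = B p x y + B p x z)
    (h4 : ∀ p (c : ℝ) x z, B p x (c • z) = c • B p x z) :
    ∃ G : V → V →L[ℝ] V →L[ℝ] ℝ, ∀ p v w, G p v w = B p v w :=
  ⟨fun p => LinearMap.toContinuousLinearMap
    ((LinearMap.toContinuousLinearMap : (V →ₗ[ℝ] ℝ) ≃ₗ[ℝ] (V →L[ℝ] ℝ)).toLinearMap ∘ₗ
      LinearMap.mk₂ ℝ (B p) (h1 p) (h2 p) (h3 p) (h4 p)), fun _ _ _ => rfl⟩

theorem smooth_bil [FiniteDimensional ℝ V] {G : V → V →L[ℝ] V →L[ℝ] ℝ} {s : Set V}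
    (h : ∀ v w, ContDiffOn ℝ ∞ (fun x => G x v w) s) : ContDiffOn ℝ ∞ G s :=
  contDiffOn_clm_apply.2 fun v => contDiffOn_clm_apply.2 fun w => h v w

theorem fderiv_bil {G : V → V →L[ℝ] V →L[ℝ] ℝ} {x : V} (hG : DifferentiableAt ℝ G x)
    (u v w : V) : fderiv ℝ G x u v w = fderiv ℝ (fun y => G y v w) x u := by
  have h1 := (hG.hasFDerivAt.clm_apply (hasFDerivAt_const v x)).clm_apply (hasFDerivAt_const w x)
  rw [h1.fderiv]
  simp

section AK

variable {M : Type v} [MetricSpace M] [ChartedSpace V M] (A : AlmostKahler V M)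

theorem frame_add (e : OpenPartialHomeomorph M V) (x v w : V) :
    frame e x (v + w) = frame e x v + frame e x w :=
  (mfderiv 𝓘(ℝ, V) 𝓘(ℝ, V) e.symm x).map_add v w

theorem frame_smul (e : OpenPartialHomeomorph M V) (x : V) (c : ℝ) (v : V) :
    frame e x (c • v) = c • frame e x v :=
  (mfderiv 𝓘(ℝ, V) 𝓘(ℝ, V) e.symm x).map_smul c v

theorem g_nonneg (q : M) (a : TangentSpace 𝓘(ℝ, V) q) : 0 ≤ A.om q a (A.J q a) := by
  by_cases h : a = 0
  · rw [h, map_zero, map_zero]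
    exact le_refl _
  · exact (A.pos q a h).le

/-- the metric in a chart, as a smooth bilinear form -/
theorem exists_G [FiniteDimensional ℝ V] {e : OpenPartialHomeomorph M V} (he : e ∈ Charts V M) :
    ∃ G : V → V →L[ℝ] V →L[ℝ] ℝ, (∀ x v w, G x v w = A.gC e x v w) ∧
      ContDiffOn ℝ ∞ G e.target ∧ ∀ x v w, G x v w = G x w v := by
  obtain ⟨G, hG⟩ := exists_bil (fun x v w => A.gC e x v w)
    (fun p x y z => by
      show A.gC e p (x + y) z = A.gC e p x z + A.gC e p y z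
      unfold AlmostKahler.gC
      rw [frame_add, map_add]; rfl)
    (fun p c x z => by
      show A.gC e p (c • x) z = c • A.gC e p x z
      unfold AlmostKahler.gC
      rw [frame_smul, map_smul]; rfl)
    (fun p x y z => by
      show A.gC e p x (y + z) = A.gC e p x y + A.gC e p x z
      unfold AlmostKahler.gC
      rw [frame_add, map_add, map_add])
    (fun p c x z => by
      show A.gC e p x (c • z) = c • A.gC e p x z
      unfold AlmostKahler.gC
      rw [frame_smul, map_smul, map_smul])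
  refine ⟨G, hG, smooth_bil fun v w => ?_, fun x v w => ?_⟩
  · have h1 : (fun y => G y v w) = fun y => A.gC e y v w := funext fun y => hG y v w
    rw [h1]
    exact A.smooth_g e he v w
  · rw [hG, hG]
    exact A.symm (e.symm x) (frame e x v) (frame e x w)

/-- the metric as a function of the point, for vectors of `V` -/
def gg (x : M) (a b : V) : ℝ :=
  A.om x (a : TangentSpace 𝓘(ℝ, V) x) (A.J x (b : TangentSpace 𝓘(ℝ, V) x))

theorem gg_congr {x y : M} (h : x = y) {a b a' b' : V} (ha : a = a') (hb : b = b') :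
    gg A x a b = gg A y a' b' := by
  subst h ha hb
  rfl

/-- the chain rule: the metric of the differential of `E` in a chart -/
theorem gC_chart [IsManifold 𝓘(ℝ, V) ∞ M] {e : OpenPartialHomeomorph M V}
    (he : e ∈ Charts V M) {E : V → M} {x : V} (hE : ContMDiffAt 𝓘(ℝ, V) 𝓘(ℝ, V) ∞ E x)
    (hx : E x ∈ e.source) :
    ContDiffAt ℝ ∞ (fun z => e (E z)) x ∧ ∀ a b : V,
      gg A (E x) (mfderiv 𝓘(ℝ, V) 𝓘(ℝ, V) E x a) (mfderiv 𝓘(ℝ, V) 𝓘(ℝ, V) E x b) =
        A.gC e (e (E x)) (fderiv ℝ (fun z => e (E z)) x a) (fderiv ℝ (fun z => e (E z)) x b) := by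
  have h1 : ContMDiffAt 𝓘(ℝ, V) 𝓘(ℝ, V) ∞ e (E x) :=
    (contMDiffOn_of_mem_maximalAtlas he).contMDiffAt (e.open_source.mem_nhds hx)
  have h2 : ContMDiffAt 𝓘(ℝ, V) 𝓘(ℝ, V) ∞ (fun z => e (E z)) x := h1.comp x hE
  have h3 : ContMDiffAt 𝓘(ℝ, V) 𝓘(ℝ, V) ∞ e.symm (e (E x)) :=
    (contMDiffOn_symm_of_mem_maximalAtlas he).contMDiffAt
      (e.open_target.mem_nhds (e.map_source hx))
  refine ⟨contMDiffAt_iff_contDiffAt.1 h2, ?_⟩
  have h4 : E =ᶠ[𝓝 x] (e.symm ∘ fun z => e (E z)) := by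
    have h5 : ∀ᶠ z in 𝓝 x, E z ∈ e.source :=
      hE.continuousAt.eventually_mem (e.open_source.mem_nhds hx)
    filter_upwards [h5] with z hz
    exact (e.left_inv hz).symm
  have h6 : (mfderiv 𝓘(ℝ, V) 𝓘(ℝ, V) E x : V →L[ℝ] V) =
      (mfderiv 𝓘(ℝ, V) 𝓘(ℝ, V) (e.symm ∘ fun z => e (E z)) x : V →L[ℝ] V) := h4.mfderiv_eq
  have h7 : (mfderiv 𝓘(ℝ, V) 𝓘(ℝ, V) (e.symm ∘ fun z => e (E z)) x : V →L[ℝ] V) =
      (mfderiv 𝓘(ℝ, V) 𝓘(ℝ, V) e.symm (e (E x)) : V →L[ℝ] V).comp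
        (mfderiv 𝓘(ℝ, V) 𝓘(ℝ, V) (fun z => e (E z)) x : V →L[ℝ] V) :=
    mfderiv_comp x (h3.mdifferentiableAt (by simp)) (h2.mdifferentiableAt (by simp))
  have h8 : (mfderiv 𝓘(ℝ, V) 𝓘(ℝ, V) (fun z => e (E z)) x : V →L[ℝ] V) =
      fderiv ℝ (fun z => e (E z)) x := mfderiv_eq_fderiv
  have h9 : ∀ a : V, (mfderiv 𝓘(ℝ, V) 𝓘(ℝ, V) E x : V →L[ℝ] V) a =
      (mfderiv 𝓘(ℝ, V) 𝓘(ℝ, V) e.symm (e (E x)) : V →L[ℝ] V)
        (fderiv ℝ (fun z => e (E z)) x a) := by
    intro a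
    rw [h6, h7, h8]
    rfl
  intro a b
  exact gg_congr A (e.left_inv hx).symm (h9 a) (h9 b)

end AK

end PENE

open PENE in
theorem t_ENE : S_ENE.{u, v} := by
  intro V _ _ _ M _ _ _ A r p e E hr he hp hE v hv
  obtain ⟨G0, hG0, -, -⟩ := exists_G A he
  -- the domain
  obtain ⟨D, hD⟩ : ∃ D : Set V, D = {v | A.gC e (e p) v v < r ^ 2} := ⟨_, rfl⟩
  have hDo : IsOpen D := by
    have h1 : D = {v | G0 (e p) v v < r ^ 2} := by
      rw [hD]
      ext z
      show A.gC e (e p) z z < r ^ 2 ↔ G0 (e p) z z < r ^ 2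
      rw [hG0]
    rw [h1]
    exact isOpen_lt (by fun_prop) continuous_const
  have hEs : ∀ z ∈ D, ContMDiffAt 𝓘(ℝ, V) 𝓘(ℝ, V) ∞ E z := by
    intro z hz
    have h1 := hE.smooth
    rw [← hD] at h1
    exact h1.contMDiffAt (hDo.mem_nhds hz)
  have hseg : ∀ t ∈ Icc (0:ℝ) 1, t • v ∈ D := by
    intro t ht
    rw [hD]
    show A.gC e (e p) (t • v) (t • v) < r ^ 2
    rw [← hG0, map_smul, map_smul, smul_apply, smul_eq_mul, smul_eq_mul, hG0]
    have h0 : 0 ≤ A.gC e (e p) v v := g_nonneg A _ _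
    have h1 : t * (t * A.gC e (e p) v v) ≤ A.gC e (e p) v v := by
      have h2 : t * t ≤ 1 := by nlinarith [ht.1, ht.2]
      nlinarith
    linarith
  -- the speed
  obtain ⟨q, hq⟩ : ∃ q : ℝ → ℝ, q = fun t => gg A (E (t • v))
    (mfderiv 𝓘(ℝ, V) 𝓘(ℝ, V) E (t • v) v) (mfderiv 𝓘(ℝ, V) 𝓘(ℝ, V) E (t • v) v) := ⟨_, rfl⟩
  have hline : ∀ t : ℝ, HasDerivAt (fun s : ℝ => s • v) v t := by
    intro t
    have := (hasDerivAt_id t).smul_const v
    simpa using this
  have hlc : Continuous fun s : ℝ => s • v := by fun_prop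
  have hder : ∀ t ∈ Icc (0:ℝ) 1, HasDerivAt q 0 t := by
    intro t₀ ht₀
    have hmem := hseg t₀ ht₀
    obtain ⟨e', he'⟩ : ∃ e' : OpenPartialHomeomorph M V, e' = chartAt V (E (t₀ • v)) := ⟨_, rfl⟩
    have heC : e' ∈ Charts V M := by
      rw [he']
      exact IsManifold.chart_mem_maximalAtlas _
    have hes : E (t₀ • v) ∈ e'.source := by
      rw [he']
      exact mem_chart_source V _
    obtain ⟨G, hG, hGs, hGsym⟩ := exists_G A heC
    -- the curve in the chart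
    obtain ⟨F, hF⟩ : ∃ F : V → V, F = fun z => e' (E z) := ⟨_, rfl⟩
    have hnear : ∀ᶠ z in 𝓝 (t₀ • v), z ∈ D ∧ E z ∈ e'.source :=
      Filter.Eventually.and (hDo.mem_nhds hmem)
        ((hEs _ hmem).continuousAt.eventually_mem (e'.open_source.mem_nhds hes))
    have hFs : ∀ z, z ∈ D ∧ E z ∈ e'.source → ContDiffAt ℝ ∞ F z := by
      intro z hz
      rw [hF]
      exact (gC_chart A heC (hEs z hz.1) hz.2).1
    have hev : ∀ᶠ t in 𝓝 t₀, t • v ∈ D ∧ E (t • v) ∈ e'.source :=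
      (hlc.tendsto t₀).eventually hnear
    obtain ⟨x, hx⟩ : ∃ x : ℝ → V, x = fun t => F (t • v) := ⟨_, rfl⟩
    have hxs : ContDiffAt ℝ ∞ x t₀ := by
      rw [hx]
      have h1 : ContDiffAt ℝ ∞ (fun t : ℝ => t • v) t₀ := by fun_prop
      exact (hFs (t₀ • v) ⟨hmem, hes⟩).comp t₀ h1
    have hxd : ∀ᶠ t in 𝓝 t₀, deriv x t = fderiv ℝ F (t • v) v := by
      filter_upwards [hev] with t ht
      rw [hx]
      exact (((hFs _ ht).differentiableAt (by simp)).hasFDerivAt.comp_hasDerivAt t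
        (hline t)).deriv
    have hqx : q =ᶠ[𝓝 t₀] fun t => G (x t) (deriv x t) (deriv x t) := by
      filter_upwards [hev, hxd] with t ht htd
      rw [htd, hG, hq, hx, hF]
      exact (gC_chart A heC (hEs _ ht.1) ht.2).2 v v
    -- the derivatives
    have hx1 : HasDerivAt x (deriv x t₀) t₀ := (hxs.differentiableAt (by simp)).hasDerivAt
    have hx2 : HasDerivAt (deriv x) (deriv (deriv x) t₀) t₀ := by
      have h1 : ContDiffAt ℝ 1 (fderiv ℝ x) t₀ := hxs.fderiv_right (by norm_cast)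
      have h2 : DifferentiableAt ℝ (fun t => fderiv ℝ x t 1) t₀ :=
        (h1.differentiableAt (by simp)).clm_apply (differentiableAt_const _)
      have h3 : (fun t => fderiv ℝ x t 1) = deriv x := funext fun t => fderiv_apply_one_eq_deriv
      rw [h3] at h2
      exact h2.hasDerivAt
    have hx0 : x t₀ = e' (E (t₀ • v)) := by rw [hx, hF]
    have hxt : x t₀ ∈ e'.target := by
      rw [hx0]
      exact e'.map_source hes
    have hGd : DifferentiableAt ℝ G (x t₀) :=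
      (hGs.contDiffAt (e'.open_target.mem_nhds hxt)).differentiableAt (by simp)
    have hGx : HasDerivAt (fun t => G (x t)) (fderiv ℝ G (x t₀) (deriv x t₀)) t₀ :=
      HasFDerivAt.comp_hasDerivAt (l := G) (l' := fderiv ℝ G (x t₀)) t₀ hGd.hasFDerivAt hx1
    have hq2 := (hGx.clm_apply hx2).clm_apply hx2
    refine (hq2.congr_of_eventuallyEq hqx).congr_deriv ?_
    -- the geodesic equation
    have hD2 : A.gC e (e p) (t₀ • v) (t₀ • v) < r ^ 2 := by
      rw [hD] at hmem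
      exact hmem
    have hgeo := hE.geod v t₀ hD2 e' heC hes (deriv x t₀)
    unfold AlmostKahler.covAcc at hgeo
    have hc1 : (fun t => e' ((fun s => E ((t₀ + s) • v)) t)) = fun s => x (t₀ + s) := by
      rw [hx, hF]
    have hc2 : (fun s => E ((t₀ + s) • v)) 0 = E (t₀ • v) := by
      show E ((t₀ + 0) • v) = E (t₀ • v)
      rw [add_zero]
    have hc3 : deriv (fun s => x (t₀ + s)) = fun s => deriv x (t₀ + s) :=
      funext fun s => deriv_comp_const_add x t₀ s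
    have hc4 : deriv (fun s => deriv x (t₀ + s)) 0 = deriv (deriv x) t₀ := by
      rw [deriv_comp_const_add, add_zero]
    rw [hc1, hc2, hc3, hc4, ← hx0] at hgeo
    simp only [add_zero] at hgeo
    have hg1 : ∀ a b : V, (fun y => A.gC e' y a b) = fun y => G y a b := fun a b =>
      funext fun y => (hG y a b).symm
    rw [hg1, ← fderiv_bil hGd, ← hG] at hgeo
    simp only [_root_.add_apply]
    have hsy := hGsym (x t₀) (deriv x t₀) (deriv (deriv x) t₀)
    linarith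
  have hconst : q 1 = q 0 := by
    have h1 := (convex_Icc (0:ℝ) 1).is_const_of_fderivWithin_eq_zero (𝕜 := ℝ) (f := q)
      (fun t ht => (hder t ht).differentiableAt.differentiableWithinAt)
      (fun t ht => by
        have h2 := (hder t ht).hasFDerivAt.hasFDerivWithinAt (s := Icc (0:ℝ) 1)
        rw [h2.fderivWithin ((uniqueDiffOn_Icc one_pos) t ht)]
        ext
        simp)
      (right_mem_Icc.2 zero_le_one) (left_mem_Icc.2 zero_le_one)
    exact h1
  have hq1 : q 1 = A.om (E v) (mfderiv 𝓘(ℝ, V) 𝓘(ℝ, V) E v v)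
      (A.J (E v) (mfderiv 𝓘(ℝ, V) 𝓘(ℝ, V) E v v)) := by
    have h1 : ∀ w : V, w = v → gg A (E w) (mfderiv 𝓘(ℝ, V) 𝓘(ℝ, V) E w v)
        (mfderiv 𝓘(ℝ, V) 𝓘(ℝ, V) E w v) = A.om (E v) (mfderiv 𝓘(ℝ, V) 𝓘(ℝ, V) E v v)
      (A.J (E v) (mfderiv 𝓘(ℝ, V) 𝓘(ℝ, V) E v v)) := by
      rintro w rfl
      rfl
    rw [hq]
    exact h1 _ (one_smul ℝ v)
  have hq0 : q 0 = A.gC e (e p) v v := by
    have h0 : E ((0:ℝ) • v) = p := by rw [zero_smul, hE.zero]
    have hs : E ((0:ℝ) • v) ∈ e.source := by rw [h0]; exact hp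
    have hm := hseg 0 (left_mem_Icc.2 zero_le_one)
    have h1 := gC_chart A he (hEs _ hm) hs
    have h2 : fderiv ℝ (fun z => e (E z)) ((0:ℝ) • v) v = v := by
      have h3 := ((h1.1.differentiableAt (by simp)).hasFDerivAt.comp_hasDerivAt (0:ℝ)
        (hline 0)).deriv
      rw [← h3]
      exact hE.veloc v
    have h4 := h1.2 v v
    rw [h2] at h4
    have h5 : A.gC e (e (E ((0:ℝ) • v))) v v = A.gC e (e p) v v := by rw [h0]
    rw [h5] at h4
    rw [hq]
    exact h4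
  rw [← hq1, hconst, hq0]

end Pool.Agent.H823.BG
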