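import Mathlib
import Pool.Agent.H823.BG.StmW
import Pool.Graph.R_seed8.Helper186.TimeFlow

open scoped Topology ContDiff RealInnerProductSpace Manifold
open Set Metric

noncomputable section

universe u v w

namespace Pool.Agent.H823.BG.PFLOW

/-- a smooth vector field with compact support has a smooth global flow -/
theorem exists_flow {E : Type u} [NormedAddCommGroup E] [NormedSpace ℝ E] [FiniteDimensional ℝ E]
    (v : E → E) (hv : ContDiff ℝ ∞ v) {K : Set E} (hK : IsCompact K) (hvK : ∀ x, x ∉ K → v x = 0) :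
    ∃ Fl : E → ℝ → E, (∀ p, Fl p 0 = p) ∧ (∀ p t, HasDerivAt (Fl p) (v (Fl p t)) t) ∧
      ContDiff ℝ ∞ (fun p : E × ℝ => Fl p.1 p.2) := by
  have hV : ContMDiff 𝓘(ℝ, E) 𝓘(ℝ, E).tangent ∞
      (fun x => (⟨x, v x⟩ : TangentBundle 𝓘(ℝ, E) E)) := contMDiff_vectorSpace_iff_contDiff.2 hv
  obtain ⟨ε, hε, h⟩ := Pool.Agent.Helper186.exists_uniform_time_compact (I := 𝓘(ℝ, E))
    (V := fun x => (v x : TangentSpace 𝓘(ℝ, E) x)) hV hK
  have hall : ∀ x : E, ∃ γ : ℝ → E, γ 0 = x ∧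
      IsMIntegralCurve (I := 𝓘(ℝ, E)) γ (fun x => (v x : TangentSpace 𝓘(ℝ, E) x)) := by
    refine exists_isMIntegralCurve_of_isMIntegralCurveOn (I := 𝓘(ℝ, E)) (hV.of_le (by simp))
      (ε := ε) hε ?_
    intro x
    by_cases hx : x ∈ K
    · exact h x hx
    · refine ⟨fun _ => x, rfl, fun t _ => ?_⟩
      have h1 : HasMFDerivAt 𝓘(ℝ, ℝ) 𝓘(ℝ, E) (fun _ : ℝ => x) t (0 : ℝ →L[ℝ] E) :=
        hasMFDerivAt_const x t
      have h2 : (0 : ℝ →L[ℝ] E) = (1 : ℝ →L[ℝ] ℝ).smulRight (v x) := by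
        rw [hvK x hx]
        simp
      rw [h2] at h1
      exact h1.hasMFDerivWithinAt
  choose Fl h0 hFl using hall
  refine ⟨Fl, h0, fun p t => ?_, ?_⟩
  · have h2 : HasFDerivAt (Fl p) ((1 : ℝ →L[ℝ] ℝ).smulRight (v (Fl p t)) : ℝ →L[ℝ] E) t :=
      hasMFDerivAt_iff_hasFDerivAt.1 (hFl p t)
    have h3 := h2.hasDerivAt
    have h4 : ((1 : ℝ →L[ℝ] ℝ).smulRight (v (Fl p t)) : ℝ →L[ℝ] E) 1 = v (Fl p t) := by
      rw [ContinuousLinearMap.smulRight_apply]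
      simp
    rwa [h4] at h3
  · have h1 := Pool.Agent.Helper186.contMDiff_flow (I := 𝓘(ℝ, E)) hV h0 hFl
    have h2 : ContMDiff 𝓘(ℝ, E × ℝ) 𝓘(ℝ, E) ∞ (fun p : E × ℝ => Fl p.1 p.2) := by
      rw [modelWithCornersSelf_prod, ← chartedSpaceSelf_prod]
      exact h1
    exact contMDiff_iff_contDiff.1 h2

variable {V : Type u} [NormedAddCommGroup V] [InnerProductSpace ℝ V]

theorem cs (B : V →L[ℝ] V →L[ℝ] ℝ) (hs : ∀ v w, B v w = B w v) (hp : ∀ v, v ≠ 0 → 0 < B v v)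
    (v w : V) : (B v w) ^ 2 ≤ B v v * B w w := by
  by_cases hw : w = 0
  · subst hw; simp
  · have h1 := hp w hw
    have h0 : ∀ u, 0 ≤ B u u := fun u => by
      by_cases hu : u = 0
      · simp [hu]
      · exact (hp u hu).le
    have h2 := h0 (v - (B v w / B w w) • w)
    simp only [map_sub, map_smul, sub_apply, smul_apply,
      smul_eq_mul] at h2
    rw [hs w v] at h2
    have hc : B v w / B w w * B w w = B v w := div_mul_cancel₀ _ h1.ne'
    set c := B v w / B w w with hcd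
    have h3 : 0 ≤ B v v - c * B v w := by
      have : c * (c * B w w) = c * B v w := by rw [hc]
      nlinarith
    have h4 := mul_nonneg h3 h1.le
    nlinarith

section

variable [FiniteDimensional ℝ V] {s : ℝ} {G : V → V →L[ℝ] V →L[ℝ] ℝ} {F : V → V}

/-- the derivative is invertible -/
theorem inv_spec (hG : IsMet (ball 0 s) G)
    (hF2 : ∀ x ∈ ball (0:V) s, ∀ w, G x w w ≤ 2 * ‖fderiv ℝ F x w‖ ^ 2) {x : V}
    (hx : x ∈ ball (0:V) s) : ∃ e : V ≃L[ℝ] V, (e : V →L[ℝ] V) = fderiv ℝ F x := by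
  have hinj : Function.Injective (fderiv ℝ F x : V →ₗ[ℝ] V) := by
    rw [← LinearMap.ker_eq_bot, LinearMap.ker_eq_bot']
    intro w hw
    by_contra h0
    have h1 := hG.pos x hx w h0
    have h2 := hF2 x hx w
    have h3 : fderiv ℝ F x w = 0 := hw
    rw [h3, norm_zero] at h2
    linarith
  refine ⟨(LinearEquiv.ofInjectiveEndo (fderiv ℝ F x : V →ₗ[ℝ] V) hinj).toContinuousLinearEquiv,
    ?_⟩
  ext w
  rfl

theorem inv_right (hG : IsMet (ball 0 s) G)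
    (hF2 : ∀ x ∈ ball (0:V) s, ∀ w, G x w w ≤ 2 * ‖fderiv ℝ F x w‖ ^ 2) {x : V}
    (hx : x ∈ ball (0:V) s) (w : V) :
    fderiv ℝ F x (ContinuousLinearMap.inverse (fderiv ℝ F x) w) = w := by
  obtain ⟨e, he⟩ := inv_spec hG hF2 hx
  rw [← he, ContinuousLinearMap.inverse_equiv]
  simp

theorem inv_smooth (hG : IsMet (ball 0 s) G) (hF : ContDiffOn ℝ ∞ F (ball 0 s))
    (hF2 : ∀ x ∈ ball (0:V) s, ∀ w, G x w w ≤ 2 * ‖fderiv ℝ F x w‖ ^ 2) {x : V}
    (hx : x ∈ ball (0:V) s) :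
    ContDiffAt ℝ ∞ (fun x => ContinuousLinearMap.inverse (fderiv ℝ F x)) x := by
  obtain ⟨e, he⟩ := inv_spec hG hF2 hx
  have h1 : ContDiffAt ℝ ∞ F x := hF.contDiffAt (isOpen_ball.mem_nhds hx)
  have h2 : ContDiffAt ℝ ∞ (fderiv ℝ F) x := h1.fderiv_right (by simp)
  have h3 : ContDiffAt ℝ ∞ (ContinuousLinearMap.inverse : (V →L[ℝ] V) → (V →L[ℝ] V))
      (fderiv ℝ F x) := by
    rw [← he]
    exact contDiffAt_map_inverse e
  exact h3.comp x h2

/-- the estimate along the flow -/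
theorem key_ineq (hG : IsMet (ball 0 s) G) (hga : ∀ x ∈ ball (0:V) s, ∀ w, G x x w = ⟪x, w⟫)
    (hF2 : ∀ x ∈ ball (0:V) s, ∀ w, G x w w ≤ 2 * ‖fderiv ℝ F x w‖ ^ 2) {x : V}
    (hx : x ∈ ball (0:V) s) (ξ : V) {c : ℝ} (hc0 : 0 ≤ c) (hc1 : c ≤ 1) :
    ⟪x, c • ContinuousLinearMap.inverse (fderiv ℝ F x) ξ⟫ ≤ √2 * ‖ξ‖ * ‖x‖ := by
  set a := ContinuousLinearMap.inverse (fderiv ℝ F x) ξ with ha
  have h1 := cs (G x) (hG.symm x hx) (hG.pos x hx) x a
  rw [hga x hx a, hga x hx x, real_inner_self_eq_norm_sq] at h1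
  have h2 := hF2 x hx a
  rw [ha, inv_right hG hF2 hx, ← ha] at h2
  have h3 : ⟪x, a⟫ ^ 2 ≤ (√2 * ‖ξ‖ * ‖x‖) ^ 2 := by
    have h4 : (√2 * ‖ξ‖ * ‖x‖) ^ 2 = ‖x‖ ^ 2 * (2 * ‖ξ‖ ^ 2) := by
      rw [mul_pow, mul_pow, Real.sq_sqrt (by norm_num)]
      ring
    rw [h4]
    exact h1.trans (mul_le_mul_of_nonneg_left h2 (sq_nonneg _))
  have h5 : |⟪x, a⟫| ≤ √2 * ‖ξ‖ * ‖x‖ := abs_le_of_sq_le_sq h3 (by positivity)
  rw [real_inner_smul_right]
  calc c * ⟪x, a⟫ ≤ c * |⟪x, a⟫| := mul_le_mul_of_nonneg_left (le_abs_self _) hc0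
    _ ≤ 1 * |⟪x, a⟫| := mul_le_mul_of_nonneg_right hc1 (abs_nonneg _)
    _ ≤ √2 * ‖ξ‖ * ‖x‖ := by rw [one_mul]; exact h5

end

/-- a curve with `⟪X, X'⟫ ≤ c ‖X‖` -/
theorem growth {X X' : ℝ → V} (hX : ∀ t, HasDerivAt X (X' t) t) (h0 : X 0 = 0) {c : ℝ}
    (hc : 0 ≤ c) (h : ∀ t, ⟪X t, X' t⟫ ≤ c * ‖X t‖) {t : ℝ} (ht : 0 ≤ t) : ‖X t‖ ≤ c * t := by
  refine le_of_forall_pos_le_add fun ε hε => ?_
  have hpos : ∀ t, 0 < ‖X t‖ ^ 2 + ε ^ 2 := fun t => by positivity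
  have hd : ∀ t, HasDerivAt (fun t => √(‖X t‖ ^ 2 + ε ^ 2) - c * t)
      ((2 * ⟪X t, X' t⟫) / (2 * √(‖X t‖ ^ 2 + ε ^ 2)) - c) t := by
    intro t
    have h1 : HasDerivAt (fun t => ‖X t‖ ^ 2 + ε ^ 2) (2 * ⟪X t, X' t⟫) t :=
      (hX t).norm_sq.add_const _
    have h2 := h1.sqrt (hpos t).ne'
    have h3 : HasDerivAt (fun t : ℝ => c * t) c t := by
      simpa using (hasDerivAt_id t).const_mul c
    exact h2.sub h3
  have hanti : Antitone fun t => √(‖X t‖ ^ 2 + ε ^ 2) - c * t := by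
    refine antitone_of_deriv_nonpos (fun t => (hd t).differentiableAt) fun t => ?_
    rw [(hd t).deriv]
    have h1 : ‖X t‖ ≤ √(‖X t‖ ^ 2 + ε ^ 2) := by
      refine Real.le_sqrt_of_sq_le ?_
      nlinarith [sq_nonneg ε]
    have h2 : 0 < √(‖X t‖ ^ 2 + ε ^ 2) := Real.sqrt_pos.2 (hpos t)
    rw [sub_nonpos, mul_div_mul_left _ _ two_ne_zero, div_le_iff₀ h2]
    exact (h t).trans (mul_le_mul_of_nonneg_left h1 hc)
  have h1 := hanti ht
  simp only [h0, norm_zero, mul_zero, sub_zero] at h1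
  have h2 : √((0:ℝ) ^ 2 + ε ^ 2) = ε := by
    rw [zero_pow two_ne_zero, zero_add, Real.sqrt_sq hε.le]
  rw [h2] at h1
  have h3 : ‖X t‖ ≤ √(‖X t‖ ^ 2 + ε ^ 2) := by
    refine Real.le_sqrt_of_sq_le ?_
    nlinarith [sq_nonneg ε]
  linarith

end Pool.Agent.H823.BG.PFLOW

namespace Pool.Agent.H823.BG

open PFLOW in
theorem t_FLOW : S_FLOW.{u} := by
  intro V _ _ _ s G F hs hG hga hF hF0 hF2
  let χ : ContDiffBump (0:V) := ⟨3 / 4 * s, 7 / 8 * s, by positivity, by linarith⟩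
  let χ' : ContDiffBump (0:V) := ⟨s, 2 * s, hs, by linarith⟩
  let A : V → V →L[ℝ] V := fun x => ContinuousLinearMap.inverse (fderiv ℝ F x)
  let v : V × V → V × V := fun p => ((χ p.1 * χ' p.2) • A p.1 p.2, 0)
  have hχ0 : ∀ x : V, x ∉ closedBall (0:V) (7 / 8 * s) → χ x = 0 := by
    intro x hx
    rw [mem_closedBall, not_le] at hx
    exact χ.zero_of_le_dist hx.le
  have hχ'0 : ∀ x : V, x ∉ closedBall (0:V) (2 * s) → χ' x = 0 := by
    intro x hx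
    rw [mem_closedBall, not_le] at hx
    exact χ'.zero_of_le_dist hx.le
  have hsub : closedBall (0:V) (7 / 8 * s) ⊆ ball 0 s := closedBall_subset_ball (by linarith)
  have hv : ContDiff ℝ ∞ v := by
    rw [contDiff_iff_contDiffAt]
    intro p
    by_cases hp : p.1 ∈ ball (0:V) s
    · have h1 : ContDiffAt ℝ ∞ (fun p : V × V => χ p.1) p :=
        χ.contDiff.contDiffAt.comp p contDiffAt_fst
      have h2 : ContDiffAt ℝ ∞ (fun p : V × V => χ' p.2) p :=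
        χ'.contDiff.contDiffAt.comp p contDiffAt_snd
      have h3 : ContDiffAt ℝ ∞ (fun p : V × V => A p.1) p :=
        ContDiffAt.comp p (inv_smooth hG hF hF2 hp) contDiffAt_fst
      have h4 : ContDiffAt ℝ ∞ (fun p : V × V => A p.1 p.2) p := h3.clm_apply contDiffAt_snd
      exact ((h1.mul h2).smul h4).prodMk contDiffAt_const
    · have h1 : p.1 ∉ closedBall (0:V) (7 / 8 * s) := fun h => hp (hsub h)
      have h2 : ∀ᶠ q : V × V in 𝓝 p, q.1 ∉ closedBall (0:V) (7 / 8 * s) :=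
        (isClosed_closedBall.isOpen_compl.preimage continuous_fst).mem_nhds h1
      refine (contDiffAt_const (c := (0 : V × V))).congr_of_eventuallyEq ?_
      filter_upwards [h2] with q hq
      show ((χ q.1 * χ' q.2) • A q.1 q.2, (0:V)) = 0
      rw [hχ0 q.1 hq, zero_mul, zero_smul]
      rfl
  have hK : IsCompact (closedBall (0:V) (7 / 8 * s) ×ˢ closedBall (0:V) (2 * s)) :=
    (isCompact_closedBall _ _).prod (isCompact_closedBall _ _)
  have hvK : ∀ p : V × V, p ∉ closedBall (0:V) (7 / 8 * s) ×ˢ closedBall (0:V) (2 * s) →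
      v p = 0 := by
    intro p hp
    rw [mem_prod, not_and_or] at hp
    show ((χ p.1 * χ' p.2) • A p.1 p.2, (0:V)) = 0
    rcases hp with hp | hp
    · rw [hχ0 p.1 hp, zero_mul, zero_smul]
      rfl
    · rw [hχ'0 p.2 hp, mul_zero, zero_smul]
      rfl
  obtain ⟨Fl, hFl0, hFl, hsm⟩ := exists_flow v hv hK hvK
  -- the trajectories
  have hmain : ∀ ξ ∈ ball (0:V) (s / 2), ‖(Fl (0, ξ) 1).1‖ ≤ √2 * ‖ξ‖ ∧
      √2 * ‖ξ‖ < 3 / 4 * s ∧ F (Fl (0, ξ) 1).1 = ξ := by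
    intro ξ hξ
    rw [mem_ball_zero_iff] at hξ
    have hc : √2 * ‖ξ‖ < 3 / 4 * s := by
      have := Real.sqrt_two_lt_three_halves
      nlinarith [norm_nonneg ξ]
    have hY : ∀ t, (Fl (0, ξ) t).2 = ξ := by
      intro t
      have h1 : ∀ t, HasDerivAt (fun t => (Fl (0, ξ) t).2) 0 t := fun t =>
        (hasFDerivAt_snd (𝕜 := ℝ) (p := Fl (0, ξ) t)).comp_hasDerivAt t (hFl (0, ξ) t)
      have h2 := is_const_of_deriv_eq_zero (fun t => (h1 t).differentiableAt)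
        (fun t => (h1 t).deriv) t 0
      rw [h2, hFl0]
    have hξ1 : χ' ξ = 1 := by
      refine χ'.one_of_mem_closedBall ?_
      rw [mem_closedBall_zero_iff]
      show ‖ξ‖ ≤ s
      linarith
    have hX : ∀ t, HasDerivAt (fun t => (Fl (0, ξ) t).1)
        (χ (Fl (0, ξ) t).1 • A (Fl (0, ξ) t).1 ξ) t := by
      intro t
      have h1 : HasDerivAt (fun t => (Fl (0, ξ) t).1)
          ((χ (Fl (0, ξ) t).1 * χ' (Fl (0, ξ) t).2) • A (Fl (0, ξ) t).1 (Fl (0, ξ) t).2) t :=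
        (hasFDerivAt_fst (𝕜 := ℝ) (p := Fl (0, ξ) t)).comp_hasDerivAt t (hFl (0, ξ) t)
      rw [hY, hξ1, mul_one] at h1
      exact h1
    have hX0 : (Fl (0, ξ) 0).1 = 0 := by rw [hFl0]
    have hin : ∀ t, ⟪(Fl (0, ξ) t).1, χ (Fl (0, ξ) t).1 • A (Fl (0, ξ) t).1 ξ⟫ ≤
        √2 * ‖ξ‖ * ‖(Fl (0, ξ) t).1‖ := by
      intro t
      by_cases hx : (Fl (0, ξ) t).1 ∈ ball (0:V) s
      · exact key_ineq hG hga hF2 hx ξ χ.nonneg χ.le_one
      · rw [hχ0 _ (fun h => hx (hsub h)), zero_smul, inner_zero_right]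
        positivity
    have hgr : ∀ t, 0 ≤ t → ‖(Fl (0, ξ) t).1‖ ≤ √2 * ‖ξ‖ * t := fun t ht =>
      growth hX hX0 (by positivity) hin ht
    refine ⟨by simpa using hgr 1 zero_le_one, hc, ?_⟩
    -- the image curve
    have hlt : ∀ t ∈ Icc (0:ℝ) 1, ‖(Fl (0, ξ) t).1‖ < 3 / 4 * s := by
      intro t ht
      refine lt_of_le_of_lt ((hgr t ht.1).trans ?_) hc
      exact mul_le_of_le_one_right (by positivity) ht.2
    have hg : ∀ t ∈ Icc (0:ℝ) 1, HasDerivAt (fun t : ℝ => F (Fl (0, ξ) t).1 - t • ξ) 0 t := by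
      intro t ht
      have h1 := hlt t ht
      have h2 : (Fl (0, ξ) t).1 ∈ ball (0:V) s := by
        rw [mem_ball_zero_iff]
        linarith
      have h3 : χ (Fl (0, ξ) t).1 = 1 := by
        refine χ.one_of_mem_closedBall ?_
        rw [mem_closedBall_zero_iff]
        exact h1.le
      have h4 := hX t
      rw [h3, one_smul] at h4
      have h5 : DifferentiableAt ℝ F (Fl (0, ξ) t).1 :=
        (hF.contDiffAt (isOpen_ball.mem_nhds h2)).differentiableAt (by simp)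
      have h6 : HasDerivAt (fun t => F (Fl (0, ξ) t).1)
          (fderiv ℝ F (Fl (0, ξ) t).1 (A (Fl (0, ξ) t).1 ξ)) t :=
        h5.hasFDerivAt.comp_hasDerivAt t h4
      have h7 : fderiv ℝ F (Fl (0, ξ) t).1 (A (Fl (0, ξ) t).1 ξ) = ξ := inv_right hG hF2 h2 ξ
      rw [h7] at h6
      have h8 : HasDerivAt (fun t : ℝ => t • ξ) ξ t := by
        simpa using (hasDerivAt_id t).smul_const ξ
      have h10 := h6.sub h8
      rw [sub_self] at h10
      exact h10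
    have h9 := constant_of_has_deriv_right_zero
      (f := fun t : ℝ => F (Fl (0, ξ) t).1 - t • ξ) (a := 0) (b := 1)
      (fun t ht => (hg t ht).continuousAt.continuousWithinAt)
      (fun t ht => (hg t ⟨ht.1, ht.2.le⟩).hasDerivWithinAt) 1 ⟨zero_le_one, le_rfl⟩
    simp only [one_smul, zero_smul, sub_zero] at h9
    rw [hX0, hF0, sub_eq_zero] at h9
    exact h9
  refine ⟨fun ξ => (Fl (0, ξ) 1).1, ?_, ?_, ?_⟩
  · have h1 : ContDiff ℝ ∞ (fun ξ : V => (((0:V), ξ), (1:ℝ))) :=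
      (contDiff_const.prodMk contDiff_id).prodMk contDiff_const
    exact ((hsm.comp h1).fst).contDiffOn
  · have h1 := (hmain 0 (mem_ball_self (by positivity))).1
    rw [norm_zero, mul_zero] at h1
    exact norm_le_zero_iff.1 h1
  · intro y hy
    obtain ⟨h1, h2, h3⟩ := hmain y hy
    refine ⟨?_, h3⟩
    rw [mem_ball_zero_iff]
    show ‖(Fl (0, y) 1).1‖ < s
    linarith

end Pool.Agent.H823.BG
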