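import Mathlib
import Pool.Agent.H823.BG.StmN

/-!
# GAU: the Gauss lemma
-/

open scoped Topology ContDiff Manifold RealInnerProductSpace
open Set Metric Filter MeasureTheory
open Pool.Agent.H823.HC

noncomputable section

namespace Pool.Agent.H823.BG

universe u v w

namespace PGAU

section lin

variable {V : Type u} [NormedAddCommGroup V] [InnerProductSpace ℝ V] [FiniteDimensional ℝ V]

/-- the continuous bilinear form given by a bilinear function -/
theorem exists_bil (B : V → V → V → ℝ) (h1 : ∀ p x y z, B p (x + y) z = B p x z + B p y z)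
    (h2 : ∀ p (c : ℝ) x z, B p (c • x) z = c • B p x z)
    (h3 : ∀ p x y z, B p x (y + z) = B p x y + B p x z)
    (h4 : ∀ p (c : ℝ) x z, B p x (c • z) = c • B p x z) :
    ∃ G : V → V →L[ℝ] V →L[ℝ] ℝ, ∀ p v w, G p v w = B p v w :=
  ⟨fun p => LinearMap.toContinuousLinearMap
    ((LinearMap.toContinuousLinearMap : (V →ₗ[ℝ] ℝ) ≃ₗ[ℝ] (V →L[ℝ] ℝ)).toLinearMap ∘ₗ
      LinearMap.mk₂ ℝ (B p) (h1 p) (h2 p) (h3 p) (h4 p)), fun _ _ _ => rfl⟩

omit [FiniteDimensional ℝ V] in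
theorem fderiv_bil {G : V → V →L[ℝ] V →L[ℝ] ℝ} {x : V} (hG : DifferentiableAt ℝ G x)
    (u v w : V) : fderiv ℝ G x u v w = fderiv ℝ (fun y => G y v w) x u := by
  have h1 := (hG.hasFDerivAt.clm_apply (hasFDerivAt_const v x)).clm_apply (hasFDerivAt_const w x)
  rw [h1.fderiv]
  simp

end lin

section AK

variable {V : Type u} [NormedAddCommGroup V] [InnerProductSpace ℝ V]
  {M : Type v} [MetricSpace M] [ChartedSpace V M] (A : AlmostKahler V M)

theorem frame_add (e : OpenPartialHomeomorph M V) (x v w : V) :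
    frame e x (v + w) = frame e x v + frame e x w :=
  (mfderiv 𝓘(ℝ, V) 𝓘(ℝ, V) e.symm x).map_add v w

theorem frame_smul (e : OpenPartialHomeomorph M V) (x : V) (c : ℝ) (v : V) :
    frame e x (c • v) = c • frame e x v :=
  (mfderiv 𝓘(ℝ, V) 𝓘(ℝ, V) e.symm x).map_smul c v

theorem gC_symm (e : OpenPartialHomeomorph M V) (x v w : V) : A.gC e x v w = A.gC e x w v :=
  A.symm _ _ _

/-- the metric in a chart, bundled -/
theorem exists_G [FiniteDimensional ℝ V] {e : OpenPartialHomeomorph M V} (he : e ∈ Charts V M) :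
    ∃ G : V → V →L[ℝ] V →L[ℝ] ℝ, ContDiffOn ℝ ∞ G e.target ∧ ∀ x v w, G x v w = A.gC e x v w := by
  obtain ⟨G, hG⟩ := exists_bil (fun x v w => A.gC e x v w)
    (fun p x y z => by
      show A.gC e p (x + y) z = A.gC e p x z + A.gC e p y z
      unfold AlmostKahler.gC
      rw [frame_add, map_add]; rfl)
    (fun p c x z => by
      show A.gC e p (c • x) z = c • A.gC e p x z
      unfold AlmostKahler.gC
      rw [frame_smul, map_smul]; rfl)
    (fun p x y z => by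
      show A.gC e p x (y + z) = A.gC e p x y + A.gC e p x z
      unfold AlmostKahler.gC
      rw [frame_add, map_add, map_add])
    (fun p c x z => by
      show A.gC e p x (c • z) = c • A.gC e p x z
      unfold AlmostKahler.gC
      rw [frame_smul, map_smul, map_smul])
  refine ⟨G, ?_, hG⟩
  refine contDiffOn_clm_apply.2 fun v => contDiffOn_clm_apply.2 fun w => ?_
  have : (fun y => G y v w) = fun y => A.gC e y v w := funext fun y => hG y v w
  rw [this]
  exact A.smooth_g e he v w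

theorem om_congr {q q' : M} (h : q = q') (a b : V) :
    A.om q (a : TangentSpace 𝓘(ℝ, V) q) (A.J q (b : TangentSpace 𝓘(ℝ, V) q)) =
      A.om q' (a : TangentSpace 𝓘(ℝ, V) q') (A.J q' (b : TangentSpace 𝓘(ℝ, V) q')) := by
  subst h
  rfl

/-- the pulled back metric in a chart -/
theorem pull [IsManifold 𝓘(ℝ, V) ∞ M] {e : OpenPartialHomeomorph M V} (he : e ∈ Charts V M)
    {E : V → M} {u : V} (hE : ContMDiffAt 𝓘(ℝ, V) 𝓘(ℝ, V) ∞ E u) (hu : E u ∈ e.source) (a b : V) :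
    A.om (E u) (mfderiv 𝓘(ℝ, V) 𝓘(ℝ, V) E u a) (A.J (E u) (mfderiv 𝓘(ℝ, V) 𝓘(ℝ, V) E u b)) =
      A.gC e (e (E u)) (fderiv ℝ (e ∘ E) u a) (fderiv ℝ (e ∘ E) u b) := by
  have hd : MDifferentiableAt 𝓘(ℝ, V) 𝓘(ℝ, V) E u := hE.mdifferentiableAt (by simp)
  have he1 : MDifferentiableAt 𝓘(ℝ, V) 𝓘(ℝ, V) e (E u) :=
    (contMDiffAt_of_mem_maximalAtlas he hu).mdifferentiableAt (by simp)
  have he2 : MDifferentiableAt 𝓘(ℝ, V) 𝓘(ℝ, V) e.symm (e (E u)) :=
    (contMDiffAt_symm_of_mem_maximalAtlas he (e.map_source hu)).mdifferentiableAt (by simp)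
  have hF : MDifferentiableAt 𝓘(ℝ, V) 𝓘(ℝ, V) (e ∘ E) u := he1.comp u hd
  have hev : (e.symm ∘ (e ∘ E)) =ᶠ[𝓝 u] E := by
    have : ∀ᶠ y in 𝓝 u, E y ∈ e.source := hE.continuousAt (e.open_source.mem_nhds hu)
    filter_upwards [this] with y hy
    exact e.left_inv hy
  have h1 : ∀ a : V, (mfderiv 𝓘(ℝ, V) 𝓘(ℝ, V) E u a : V) =
      (frame e (e (E u)) (fderiv ℝ (e ∘ E) u a) : V) := by
    intro a
    have h2 := mfderiv_comp u he2 hF
    have h3 : (mfderiv 𝓘(ℝ, V) 𝓘(ℝ, V) (e.symm ∘ (e ∘ E)) u a : V) =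
        (mfderiv 𝓘(ℝ, V) 𝓘(ℝ, V) E u a : V) := by
      rw [hev.mfderiv_eq]
      rfl
    rw [← h3, h2, ← mfderiv_eq_fderiv]
    rfl
  have h4 := om_congr A (e.left_inv hu).symm (mfderiv 𝓘(ℝ, V) 𝓘(ℝ, V) E u a)
    (mfderiv 𝓘(ℝ, V) 𝓘(ℝ, V) E u b)
  refine h4.trans ?_
  rw [h1 a, h1 b]
  rfl

end AK

section derivs

variable {V : Type u} [NormedAddCommGroup V] [InnerProductSpace ℝ V]

theorem hasD {F : V → V} {G : V → V →L[ℝ] V →L[ℝ] ℝ} {α β : V → V} {α' β' : V →L[ℝ] V} {x : V}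
    (hF : ContDiffAt ℝ ∞ F x) (hG : DifferentiableAt ℝ G (F x)) (hα : HasFDerivAt α α' x)
    (hβ : HasFDerivAt β β' x) :
    DifferentiableAt ℝ (fun y => G (F y) (fderiv ℝ F y (α y)) (fderiv ℝ F y (β y))) x ∧
    ∀ ξ, fderiv ℝ (fun y => G (F y) (fderiv ℝ F y (α y)) (fderiv ℝ F y (β y))) x ξ =
      fderiv ℝ G (F x) (fderiv ℝ F x ξ) (fderiv ℝ F x (α x)) (fderiv ℝ F x (β x)) +
      G (F x) (fderiv ℝ (fderiv ℝ F) x ξ (α x) + fderiv ℝ F x (α' ξ)) (fderiv ℝ F x (β x)) +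
      G (F x) (fderiv ℝ F x (α x)) (fderiv ℝ (fderiv ℝ F) x ξ (β x) + fderiv ℝ F x (β' ξ)) := by
  have h1 : DifferentiableAt ℝ F x := hF.differentiableAt (by simp)
  have h2 : DifferentiableAt ℝ (fderiv ℝ F) x :=
    (hF.fderiv_right (m := 1) (by norm_cast)).differentiableAt (by simp)
  have h3 := h2.hasFDerivAt.clm_apply hα
  have h4 := h2.hasFDerivAt.clm_apply hβ
  have h5 : HasFDerivAt (fun y => G (F y)) ((fderiv ℝ G (F x)).comp (fderiv ℝ F x)) x :=
    HasFDerivAt.comp (g := G) (f := F) x hG.hasFDerivAt h1.hasFDerivAt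
  have h6 := (h5.clm_apply h3).clm_apply h4
  refine ⟨h6.differentiableAt, fun ξ => ?_⟩
  rw [h6.fderiv]
  simp only [_root_.add_apply, ContinuousLinearMap.comp_apply,
    ContinuousLinearMap.flip_apply, map_add]
  ring

/-- the derivatives along a ray -/
theorem ray {F : V → V} {x : V} (hF : ContDiffAt ℝ ∞ F x) :
    deriv (fun t : ℝ => F ((1 + t) • x)) 0 = fderiv ℝ F x x ∧
    deriv (deriv (fun t : ℝ => F ((1 + t) • x))) 0 = fderiv ℝ (fderiv ℝ F) x x x := by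
  have hL : ∀ s : ℝ, HasDerivAt (fun t : ℝ => (1 + t) • x) x s := by
    intro s
    have h1 : HasDerivAt (fun t : ℝ => 1 + t) 1 s := (hasDerivAt_id s).const_add 1
    have h2 := h1.smul_const x
    rwa [one_smul] at h2
  have hL0 : (1 + (0 : ℝ)) • x = x := by rw [add_zero, one_smul]
  have hev : ∀ᶠ y in 𝓝 x, ContDiffAt ℝ 2 F y :=
    (hF.of_le (by norm_cast)).eventually (by norm_cast)
  have hc : ContinuousAt (fun t : ℝ => (1 + t) • x) 0 := (hL 0).continuousAt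
  have hev2 : ∀ᶠ t in 𝓝 (0 : ℝ), ContDiffAt ℝ 2 F ((1 + t) • x) := by
    refine hc.eventually ?_
    show ∀ᶠ y in 𝓝 ((1 + (0 : ℝ)) • x), ContDiffAt ℝ 2 F y
    rw [hL0]
    exact hev
  have hd : ∀ᶠ t in 𝓝 (0 : ℝ), deriv (fun t : ℝ => F ((1 + t) • x)) t =
      fderiv ℝ F ((1 + t) • x) x := by
    filter_upwards [hev2] with t ht
    have h1 : DifferentiableAt ℝ F ((1 + t) • x) := ht.differentiableAt (by norm_num)
    exact (h1.hasFDerivAt.comp_hasDerivAt t (hL t)).deriv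
  constructor
  · have h1 := hd.self_of_nhds
    rw [hL0] at h1
    exact h1
  · have h1 : deriv (deriv (fun t : ℝ => F ((1 + t) • x))) 0 =
        deriv (fun t : ℝ => fderiv ℝ F ((1 + t) • x) x) 0 := Filter.EventuallyEq.deriv_eq hd
    rw [h1]
    have h2 : DifferentiableAt ℝ (fderiv ℝ F) ((1 + (0 : ℝ)) • x) := by
      rw [hL0]
      exact (hF.fderiv_right (m := 1) (by norm_cast)).differentiableAt (by simp)
    have h3 := (h2.hasFDerivAt.comp_hasDerivAt (0 : ℝ) (hL 0)).clm_apply (hasDerivAt_const (0 : ℝ) x)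
    have h4 := h3.deriv
    rw [hL0, map_zero, add_zero] at h4
    exact h4

end derivs

end PGAU

open PGAU in
theorem t_GAU (hENE : S_ENE.{u, v}) : S_GAU.{u, v} := by
  intro V _ _ _ M _ _ _ A r p e E hr he hp hexp v hv w
  obtain ⟨Ge, hGe1, hGe⟩ := exists_G A he
  have hDopen : IsOpen {x : V | A.gC e (e p) x x < r ^ 2} := by
    have : {x : V | A.gC e (e p) x x < r ^ 2} = {x : V | Ge (e p) x x < r ^ 2} := by
      ext x
      simp only [Set.mem_ofPred_eq, hGe]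
    rw [this]
    refine isOpen_lt ?_ continuous_const
    exact (Ge (e p)).continuous.clm_apply continuous_id
  have hEs : ∀ x : V, A.gC e (e p) x x < r ^ 2 → ContMDiffAt 𝓘(ℝ, V) 𝓘(ℝ, V) ∞ E x :=
    fun x hx => (hexp.smooth x hx).contMDiffAt (hDopen.mem_nhds hx)
  set Φ : V → ℝ := fun x => A.om (E x) (mfderiv 𝓘(ℝ, V) 𝓘(ℝ, V) E x x)
    (A.J (E x) (mfderiv 𝓘(ℝ, V) 𝓘(ℝ, V) E x w)) with hΦdef
  have key : ∀ x : V, A.gC e (e p) x x < r ^ 2 → DifferentiableAt ℝ Φ x ∧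
      fderiv ℝ Φ x x = A.gC e (e p) x w := by
    intro x hx
    have he' : chartAt V (E x) ∈ Charts V M := IsManifold.chart_mem_maximalAtlas (E x)
    have hx' : E x ∈ (chartAt V (E x)).source := mem_chart_source V (E x)
    generalize chartAt V (E x) = e' at he' hx'
    obtain ⟨G, hG1, hG⟩ := exists_G A he'
    have hEx := hEs x hx
    have hFs : ContDiffAt ℝ ∞ (e' ∘ E) x :=
      ((contMDiffAt_of_mem_maximalAtlas he' hx').comp x hEx).contDiffAt
    have hGd : DifferentiableAt ℝ G ((e' ∘ E) x) :=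
      (hG1.contDiffAt (e'.open_target.mem_nhds (e'.map_source hx'))).differentiableAt (by simp)
    have hev0 : ∀ᶠ y in 𝓝 x, A.gC e (e p) y y < r ^ 2 := hDopen.mem_nhds hx
    have hev1 : ∀ᶠ y in 𝓝 x, E y ∈ e'.source :=
      hEx.continuousAt (e'.open_source.mem_nhds hx')
    have hev := hev0.and hev1
    have hΦ : Φ =ᶠ[𝓝 x] fun y => G ((e' ∘ E) y) (fderiv ℝ (e' ∘ E) y (id y))
        (fderiv ℝ (e' ∘ E) y ((fun _ => w) y)) := by
      filter_upwards [hev] with y hy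
      rw [hG]
      exact pull A he' (hEs y hy.1) hy.2 y w
    have hΨ : (fun y => Ge (e p) y y) =ᶠ[𝓝 x] fun y => G ((e' ∘ E) y) (fderiv ℝ (e' ∘ E) y (id y))
        (fderiv ℝ (e' ∘ E) y (id y)) := by
      filter_upwards [hev] with y hy
      rw [hG, hGe, ← hENE V M A r p e E hr he hp hexp y hy.1]
      exact pull A he' (hEs y hy.1) hy.2 y y
    have d1 := hasD hFs hGd (hasFDerivAt_id x) (hasFDerivAt_const w x)
    have d2 := hasD hFs hGd (hasFDerivAt_id x) (hasFDerivAt_id x)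
    refine ⟨d1.1.congr_of_eventuallyEq hΦ, ?_⟩
    rw [hΦ.fderiv_eq, d1.2 x]
    have h1 : fderiv ℝ (fun y => Ge (e p) y y) x w = 2 * A.gC e (e p) x w := by
      have h2 := (Ge (e p)).hasFDerivAt.clm_apply (hasFDerivAt_id x)
      have h3 := congrArg (fun L => L w) h2.fderiv
      simp only [_root_.add_apply, ContinuousLinearMap.comp_apply,
        ContinuousLinearMap.flip_apply, id, ContinuousLinearMap.id_apply] at h3
      rw [hGe, hGe, gC_symm A e (e p) w x] at h3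
      refine h3.trans ?_
      ring
    rw [hΨ.fderiv_eq, d2.2 w] at h1
    have h4 := hexp.geod x 1 (by rw [one_smul]; exact hx) e' he' (by rw [one_smul]; exact hx')
      (fderiv ℝ (e' ∘ E) x w)
    have h5 := ray hFs
    have h6 : (fun t : ℝ => e' ((fun s : ℝ => E ((1 + s) • x)) t)) =
        fun t : ℝ => (e' ∘ E) ((1 + t) • x) := rfl
    have h7 : e' ((fun s : ℝ => E ((1 + s) • x)) 0) = (e' ∘ E) x := by
      show e' (E ((1 + (0 : ℝ)) • x)) = _
      rw [add_zero, one_smul]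
      rfl
    unfold AlmostKahler.covAcc at h4
    rw [h6, h7, h5.1, h5.2] at h4
    have h8 : ∀ a b : V, (fun y => A.gC e' y a b) = fun y => G y a b := fun a b =>
      funext fun y => (hG y a b).symm
    rw [h8, h8, ← fderiv_bil hGd, ← fderiv_bil hGd, ← hG] at h4
    have hsym : fderiv ℝ (fderiv ℝ (e' ∘ E)) x w x = fderiv ℝ (fderiv ℝ (e' ∘ E)) x x w :=
      (hFs.isSymmSndFDerivAt (by
        rw [minSmoothness_of_isRCLikeNormedField]
        norm_cast)).eq w x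
    have hGs : ∀ a b : V, G ((e' ∘ E) x) a b = G ((e' ∘ E) x) b a := fun a b => by
      rw [hG, hG, gC_symm]
    have hDs : ∀ a b c : V, fderiv ℝ G ((e' ∘ E) x) a b c = fderiv ℝ G ((e' ∘ E) x) a c b := by
      intro a b c
      rw [fderiv_bil hGd, fderiv_bil hGd]
      congr 2
      funext y
      rw [hG, hG, gC_symm]
    simp only [id, ContinuousLinearMap.id_apply, _root_.zero_apply, map_zero,
      add_zero, map_add, _root_.add_apply] at h1 ⊢
    rw [hsym] at h1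
    have h9 := hGs (fderiv ℝ (e' ∘ E) x w) (fderiv ℝ (fderiv ℝ (e' ∘ E)) x x x)
    have h10 := hGs (fderiv ℝ (fderiv ℝ (e' ∘ E)) x x w) (fderiv ℝ (e' ∘ E) x x)
    have h11 := hGs (fderiv ℝ (e' ∘ E) x w) (fderiv ℝ (e' ∘ E) x x)
    linarith
  have hD : ∀ t ∈ Icc (0 : ℝ) 1, A.gC e (e p) (t • v) (t • v) < r ^ 2 := by
    intro t ht
    have h1 : A.gC e (e p) (t • v) (t • v) = t ^ 2 * A.gC e (e p) v v := by
      rw [← hGe, ← hGe]
      simp only [map_smul, _root_.smul_apply, smul_eq_mul]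
      ring
    rw [h1]
    have h2 : 0 ≤ t ^ 2 := sq_nonneg t
    have h3 : t ^ 2 ≤ 1 := by nlinarith [ht.1, ht.2]
    have h4 : 0 < r ^ 2 := by positivity
    rcases le_or_gt 0 (A.gC e (e p) v v) with h5 | h5
    · nlinarith
    · nlinarith
  have hφ : ∀ t ∈ Icc (0 : ℝ) 1, HasDerivAt (fun t : ℝ => Φ (t • v)) (fderiv ℝ Φ (t • v) v) t := by
    intro t ht
    have h1 : HasDerivAt (fun t : ℝ => t • v) v t := by
      have := (hasDerivAt_id t).smul_const v
      rwa [one_smul] at this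
    exact (key _ (hD t ht)).1.hasFDerivAt.comp_hasDerivAt t h1
  obtain ⟨c, hc, hc2⟩ := exists_hasDerivAt_eq_slope (fun t : ℝ => Φ (t • v))
    (fun t => fderiv ℝ Φ (t • v) v) zero_lt_one
    (fun t ht => (hφ t ht).continuousAt.continuousWithinAt)
    (fun t ht => hφ t (Ioo_subset_Icc_self ht))
  have hc3 := (key _ (hD c (Ioo_subset_Icc_self hc))).2
  rw [map_smul, ← hGe, map_smul, _root_.smul_apply, hGe, smul_eq_mul, smul_eq_mul] at hc3
  have hc4 : fderiv ℝ Φ (c • v) v = A.gC e (e p) v w := mul_left_cancel₀ hc.1.ne' hc3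
  have h0 : Φ ((0 : ℝ) • v) = 0 := by
    rw [zero_smul]
    have h1 : A.om (E 0) (mfderiv 𝓘(ℝ, V) 𝓘(ℝ, V) E (0:V)
        (0 : TangentSpace 𝓘(ℝ, V) (0:V))) = 0 := by
      rw [map_zero, map_zero]
    exact congrArg (fun L => L (A.J (E 0) (mfderiv 𝓘(ℝ, V) 𝓘(ℝ, V) E (0:V) w))) h1
  have h1 : Φ ((1 : ℝ) • v) = Φ v := by rw [one_smul]
  rw [hc4, h0, h1, sub_zero, sub_zero, div_one] at hc2
  exact hc2.symm

end Pool.Agent.H823.BG
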