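import Mathlib
import Pool.Agent.H823.BG.StmW

open scoped Topology ContDiff RealInnerProductSpace
open Set Metric

noncomputable section

namespace Pool.Agent.H823.BG

universe u

namespace PGRAM

variable {V : Type u} [NormedAddCommGroup V] [InnerProductSpace ℝ V]
  {O : Set V} {G : V → V →L[ℝ] V →L[ℝ] ℝ} {Γ : V → V →L[ℝ] V →L[ℝ] V}

lemma diffG (hM : IsMet O G) {x : V} (hx : x ∈ O) : DifferentiableAt ℝ G x :=
  (hM.smooth.contDiffAt (hM.isOpen.mem_nhds hx)).differentiableAt (by simp)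

lemma hasDeriv_two {A B : V → V} {x : V} (hG : DifferentiableAt ℝ G x) {A' B' : V →L[ℝ] V}
    (hA : HasFDerivAt A A' x) (hB : HasFDerivAt B B' x) :
    HasFDerivAt (fun y => G y (A y) (B y))
      ((G x (A x)).comp B' + ((G x).comp A' + (fderiv ℝ G x).flip (A x)).flip (B x)) x :=
  (hG.hasFDerivAt.clm_apply hA).clm_apply hB

lemma DG_symm (hM : IsMet O G) {x : V} (hx : x ∈ O) (u v w : V) :
    fderiv ℝ G x u v w = fderiv ℝ G x u w v := by
  have h1 := hasDeriv_two (diffG hM hx) (hasFDerivAt_const v x) (hasFDerivAt_const w x)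
  have h2 := hasDeriv_two (diffG hM hx) (hasFDerivAt_const w x) (hasFDerivAt_const v x)
  have h3 : (fun y => G y v w) =ᶠ[𝓝 x] (fun y => G y w v) := by
    filter_upwards [hM.isOpen.mem_nhds hx] with y hy using hM.symm y hy v w
  have h4 := h1.unique (h2.congr_of_eventuallyEq h3)
  have h5 := congrArg (fun L => L u) h4
  simpa using h5

lemma compat (hM : IsMet O G) (hL : IsLC O G Γ) {x : V} (hx : x ∈ O) (u v w : V) :
    fderiv ℝ G x u v w = G x (Γ x u v) w + G x v (Γ x u w) := by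
  have h1 := hL.koszul x hx u v w
  have h2 := hL.koszul x hx u w v
  have h3 := DG_symm hM hx u v w
  have h6 := hM.symm x hx v (Γ x u w)
  linarith

lemma hess_eq (hM : IsMet O G) (hL : IsLC O G Γ) {f : V → ℝ} {N : V → V}
    (hf : ContDiffOn ℝ ∞ f O) (hN : ContDiffOn ℝ ∞ N O)
    (hg : ∀ x ∈ O, ∀ w, fderiv ℝ f x w = G x (N x) w) {x : V} (hx : x ∈ O) (v w : V) :
    hess Γ f x v w = G x (fderiv ℝ N x v + Γ x v (N x)) w := by
  have hN' : DifferentiableAt ℝ N x :=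
    (hN.contDiffAt (hM.isOpen.mem_nhds hx)).differentiableAt (by simp)
  have hf' : DifferentiableAt ℝ (fderiv ℝ f) x :=
    ((hf.contDiffAt (hM.isOpen.mem_nhds hx)).fderiv_right (m := ∞) (by simp)).differentiableAt
      (by simp)
  have h1 := hasDeriv_two (diffG hM hx) hN'.hasFDerivAt (hasFDerivAt_const w x)
  have h2 := hf'.hasFDerivAt.clm_apply (hasFDerivAt_const w x)
  have h3 : (fun y => fderiv ℝ f y w) =ᶠ[𝓝 x] (fun y => G y (N y) w) := by
    filter_upwards [hM.isOpen.mem_nhds hx] with y hy using hg y hy w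
  have h4 := h2.unique (h1.congr_of_eventuallyEq h3)
  have h5 := congrArg (fun L => L v) h4
  have h6 : fderiv ℝ (fderiv ℝ f) x v w = G x (fderiv ℝ N x v) w + fderiv ℝ G x v (N x) w := by
    simpa using h5
  unfold hess
  rw [h6, compat hM hL hx, hg x hx]
  simp only [map_add, add_apply]
  ring

lemma hess_symm (hM : IsMet O G) (hL : IsLC O G Γ) {f : V → ℝ}
    (hf : ContDiffOn ℝ ∞ f O) {x : V} (hx : x ∈ O) (v w : V) :
    hess Γ f x v w = hess Γ f x w v := by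
  have h1 : IsSymmSndFDerivAt ℝ f x :=
    (hf.contDiffAt (hM.isOpen.mem_nhds hx)).isSymmSndFDerivAt (by
      simp only [minSmoothness_of_isRCLikeNormedField]
      exact WithTop.coe_le_coe.2 (le_top : (2 : ℕ∞) ≤ ⊤))
  unfold hess
  rw [h1.eq v w, hL.symm x hx v w]

lemma polar (g h : V →L[ℝ] V →L[ℝ] ℝ) (C : ℝ) (hs : ∀ v w, h v w = h w v)
    (hpos : ∀ v, v ≠ 0 → 0 < g v v) (hgs : ∀ v w, g v w = g w v)
    (hle : ∀ v, |h v v| ≤ C * g v v) (v w : V) :
    |h v w| ≤ C * (√(g v v) * √(g w w)) := by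
  rcases eq_or_ne v 0 with rfl | hv
  · simp
  rcases eq_or_ne w 0 with rfl | hw
  · simp
  have gv := hpos v hv
  have gw := hpos w hw
  obtain ⟨p, hp0, hp⟩ : ∃ p : ℝ, 0 < p ∧ g v v = p ^ 2 :=
    ⟨√(g v v), Real.sqrt_pos.mpr gv, (Real.sq_sqrt gv.le).symm⟩
  obtain ⟨q, hq0, hq⟩ : ∃ q : ℝ, 0 < q ∧ g w w = q ^ 2 :=
    ⟨√(g w w), Real.sqrt_pos.mpr gw, (Real.sq_sqrt gw.le).symm⟩
  rw [hp, hq, Real.sqrt_sq hp0.le, Real.sqrt_sq hq0.le]
  have h1 := hle (q • v + p • w)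
  have h2 := hle (q • v - p • w)
  have e1 : h (q • v + p • w) (q • v + p • w) =
      q ^ 2 * h v v + 2 * (p * q) * h v w + p ^ 2 * h w w := by
    simp only [map_add, map_smul, add_apply, smul_apply,
      smul_eq_mul, hs w v]
    ring
  have e2 : h (q • v - p • w) (q • v - p • w) =
      q ^ 2 * h v v - 2 * (p * q) * h v w + p ^ 2 * h w w := by
    simp only [map_sub, map_smul, sub_apply, smul_apply,
      smul_eq_mul, hs w v]
    ring
  have e3 : g (q • v + p • w) (q • v + p • w) =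
      q ^ 2 * g v v + 2 * (p * q) * g v w + p ^ 2 * g w w := by
    simp only [map_add, map_smul, add_apply, smul_apply,
      smul_eq_mul, hgs w v]
    ring
  have e4 : g (q • v - p • w) (q • v - p • w) =
      q ^ 2 * g v v - 2 * (p * q) * g v w + p ^ 2 * g w w := by
    simp only [map_sub, map_smul, sub_apply, smul_apply,
      smul_eq_mul, hgs w v]
    ring
  rw [e1, e3, hp, hq] at h1
  rw [e2, e4, hp, hq] at h2
  have h3 := abs_le.mp h1
  have h4 := abs_le.mp h2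
  have hpq : 0 < p * q := mul_pos hp0 hq0
  have k1 : (4 * (p * q)) * h v w ≤ (4 * (p * q)) * (C * (p * q)) := by nlinarith
  have k2 : (4 * (p * q)) * (-(C * (p * q))) ≤ (4 * (p * q)) * h v w := by nlinarith
  exact abs_le.mpr ⟨le_of_mul_le_mul_left k2 (by positivity),
    le_of_mul_le_mul_left k1 (by positivity)⟩

/-- the Hessian as a continuous bilinear map -/
def hessL (Γ : V → V →L[ℝ] V →L[ℝ] V) (f : V → ℝ) (x : V) : V →L[ℝ] V →L[ℝ] ℝ :=
  fderiv ℝ (fderiv ℝ f) x - (ContinuousLinearMap.compL ℝ V V ℝ (fderiv ℝ f x)).comp (Γ x)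

lemma hessL_apply (f : V → ℝ) (x v w : V) : hessL Γ f x v w = hess Γ f x v w := by
  simp [hessL, hess]

lemma sum_abs_le [FiniteDimensional ℝ V] (a : V) :
    ∑ i, |⟪bas V i, a⟫| ≤ √(Module.finrank ℝ V) * ‖a‖ := by
  have h1 : (∑ i, |⟪bas V i, a⟫|) ^ 2 ≤ (Module.finrank ℝ V : ℝ) * ∑ i, |⟪bas V i, a⟫| ^ 2 := by
    have := sq_sum_le_card_mul_sum_sq (s := (Finset.univ : Finset (Fin (Module.finrank ℝ V))))
      (f := fun i => |⟪bas V i, a⟫|)
    simpa using this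
  have h2 : ∑ i, |⟪bas V i, a⟫| ^ 2 = ‖a‖ ^ 2 := by
    rw [← (bas V).sum_sq_norm_inner_right a]
    simp
  rw [h2] at h1
  have h3 : 0 ≤ ∑ i, |⟪bas V i, a⟫| := Finset.sum_nonneg fun i _ => abs_nonneg _
  calc ∑ i, |⟪bas V i, a⟫| = √((∑ i, |⟪bas V i, a⟫|) ^ 2) := (Real.sqrt_sq h3).symm
    _ ≤ √((Module.finrank ℝ V : ℝ) * ‖a‖ ^ 2) := Real.sqrt_le_sqrt h1
    _ = √(Module.finrank ℝ V) * ‖a‖ := by
      rw [Real.sqrt_mul (by positivity), Real.sqrt_sq (norm_nonneg a)]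

/-- the coordinate sum -/
def cs [FiniteDimensional ℝ V] (N : Fin (Module.finrank ℝ V) → V → V) (y a : V) : V :=
  ∑ i, ⟪bas V i, a⟫ • N i y

lemma key [FiniteDimensional ℝ V] {s C : ℝ} {f : Fin (Module.finrank ℝ V) → V → ℝ}
    {N : Fin (Module.finrank ℝ V) → V → V} (hD : DistData s C G Γ f N) {x : V}
    (hx : x ∈ ball (0:V) s) (w b z : V) :
    G x (∑ i, ⟪bas V i, b⟫ • fderiv ℝ (N i) x w) z + G x (Γ x w (cs N x b)) z =
      ∑ i, ⟪bas V i, b⟫ * hess Γ (f i) x w z := by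
  have h1 : ∀ i, hess Γ (f i) x w z = G x (fderiv ℝ (N i) x w) z + G x (Γ x w (N i x)) z := by
    intro i
    rw [hess_eq hD.met hD.lc (hD.f_smooth i) (hD.N_smooth i) (hD.grad i) hx]
    simp
  simp only [cs, h1, map_sum, map_smul, sum_apply, smul_apply, smul_eq_mul, mul_add,
    Finset.sum_add_distrib]

lemma bound [FiniteDimensional ℝ V] {s C : ℝ} {f : Fin (Module.finrank ℝ V) → V → ℝ}
    {N : Fin (Module.finrank ℝ V) → V → V} (hD : DistData s C G Γ f N) {x : V}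
    (hx : x ∈ ball (0:V) s) (w b b' : V) :
    |∑ i, ⟪bas V i, b⟫ * hess Γ (f i) x w (cs N x b')| ≤
      (∑ i, |⟪bas V i, b⟫|) * ((∑ j, |⟪bas V j, b'⟫|) * (C * √(G x w w))) := by
  have h1 : ∀ i j, |hess Γ (f i) x w (N j x)| ≤ C * √(G x w w) := by
    intro i j
    have h := polar (G x) (hessL Γ (f i) x) C
      (fun v w => by
        rw [hessL_apply, hessL_apply]
        exact hess_symm hD.met hD.lc (hD.f_smooth i) hx v w)
      (hD.met.pos x hx) (hD.met.symm x hx)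
      (fun v => by rw [hessL_apply]; exact hD.hess_le i x hx v) w (N j x)
    rw [hessL_apply, hD.unit j x hx, Real.sqrt_one, mul_one] at h
    exact h
  have h2 : ∀ i, |hess Γ (f i) x w (cs N x b')| ≤
      (∑ j, |⟪bas V j, b'⟫|) * (C * √(G x w w)) := by
    intro i
    rw [← hessL_apply, cs, map_sum]
    refine (Finset.abs_sum_le_sum_abs _ _).trans ?_
    rw [Finset.sum_mul]
    refine Finset.sum_le_sum fun j _ => ?_
    rw [map_smul, smul_eq_mul, abs_mul, hessL_apply]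
    exact mul_le_mul_of_nonneg_left (h1 i j) (abs_nonneg _)
  refine (Finset.abs_sum_le_sum_abs _ _).trans ?_
  rw [Finset.sum_mul]
  refine Finset.sum_le_sum fun i _ => ?_
  rw [abs_mul]
  exact mul_le_mul_of_nonneg_left (h2 i) (abs_nonneg _)

end PGRAM

open PGRAM in
theorem t_GRAM : S_GRAM.{u} := by
  intro V _ _ _ s C G Γ f N hs hC hD x hx a a'
  have hM := hD.met
  have hL := hD.lc
  have hNd : ∀ i, HasFDerivAt (N i) (fderiv ℝ (N i) x) x := fun i =>
    (((hD.N_smooth i).contDiffAt (hM.isOpen.mem_nhds hx)).differentiableAt (by simp)).hasFDerivAt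
  have hsum : ∀ b : V, HasFDerivAt (fun y => cs N y b)
      (∑ i, ⟪bas V i, b⟫ • fderiv ℝ (N i) x) x := by
    intro b
    exact HasFDerivAt.fun_sum fun i _ => (hNd i).const_smul _
  have hder : HasFDerivAt (fun y => gam G N y a a') _ x :=
    hasDeriv_two (diffG hM hx) (hsum a) (hsum a')
  refine ⟨hder.differentiableAt, fun w => ?_⟩
  have hval : fderiv ℝ (fun y => gam G N y a a') x w =
      ∑ i, ⟪bas V i, a⟫ * hess Γ (f i) x w (cs N x a') +
        ∑ i, ⟪bas V i, a'⟫ * hess Γ (f i) x w (cs N x a) := by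
    have h1 : fderiv ℝ (fun y => gam G N y a a') x w =
      G x (cs N x a) (∑ i, ⟪bas V i, a'⟫ • fderiv ℝ (N i) x w) +
      (G x (∑ i, ⟪bas V i, a⟫ • fderiv ℝ (N i) x w) (cs N x a') +
      fderiv ℝ G x w (cs N x a) (cs N x a')) := by
      rw [hder.fderiv]
      simp only [add_apply, ContinuousLinearMap.comp_apply, ContinuousLinearMap.flip_apply,
        sum_apply, smul_apply]
      rfl
    have k1 := key hD hx w a (cs N x a')
    have k2 := key hD hx w a' (cs N x a)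
    rw [h1, compat hM hL hx, ← k1, ← k2,
      hM.symm x hx (cs N x a) (∑ i, ⟪bas V i, a'⟫ • fderiv ℝ (N i) x w),
      hM.symm x hx (cs N x a) (Γ x w (cs N x a'))]
    ring
  rw [hval]
  have b1 := bound hD hx w a a'
  have b2 := bound hD hx w a' a
  have s1 := sum_abs_le a
  have s2 := sum_abs_le a'
  have p1 : 0 ≤ ∑ i, |⟪bas V i, a⟫| := Finset.sum_nonneg fun i _ => abs_nonneg _
  have p2 : 0 ≤ ∑ i, |⟪bas V i, a'⟫| := Finset.sum_nonneg fun i _ => abs_nonneg _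
  have hq : 0 ≤ C * √(G x w w) := mul_nonneg hC (Real.sqrt_nonneg _)
  have hn : √(Module.finrank ℝ V : ℝ) * √(Module.finrank ℝ V : ℝ) = Module.finrank ℝ V :=
    Real.mul_self_sqrt (Nat.cast_nonneg _)
  have hprod : (∑ i, |⟪bas V i, a⟫|) * (∑ i, |⟪bas V i, a'⟫|) ≤
      (Module.finrank ℝ V : ℝ) * (‖a‖ * ‖a'‖) := by
    calc (∑ i, |⟪bas V i, a⟫|) * (∑ i, |⟪bas V i, a'⟫|)
        ≤ (√(Module.finrank ℝ V) * ‖a‖) * (√(Module.finrank ℝ V) * ‖a'‖) :=
          mul_le_mul s1 s2 p2 (by positivity)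
      _ = (√(Module.finrank ℝ V : ℝ) * √(Module.finrank ℝ V : ℝ)) * (‖a‖ * ‖a'‖) := by ring
      _ = _ := by rw [hn]
  have hfin := mul_le_mul_of_nonneg_right hprod hq
  calc |_ + _| ≤ |_| + |_| := abs_add_le _ _
    _ ≤ _ := add_le_add b1 b2
    _ = 2 * ((∑ i, |⟪bas V i, a⟫|) * (∑ i, |⟪bas V i, a'⟫|) * (C * √(G x w w))) := by ring
    _ ≤ 2 * ((Module.finrank ℝ V : ℝ) * (‖a‖ * ‖a'‖) * (C * √(G x w w))) := by linarith
    _ = _ := by ring

end Pool.Agent.H823.BG
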