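import Mathlib
import Pool.Agent.H823.BG.StmW

/-! # Project BG (owner helper823), task GRD (helper297): smooth gradients -/

open scoped Topology ContDiff RealInnerProductSpace
open Set Metric

noncomputable section

namespace Pool.Agent.H823.BG

universe u v w

namespace PGRD

variable {V : Type u} [NormedAddCommGroup V] [InnerProductSpace ℝ V]

theorem exists_equiv [FiniteDimensional ℝ V] (T : V →L[ℝ] V →L[ℝ] ℝ)
    (hT : ∀ v, v ≠ 0 → 0 < T v v) :
    ∃ e : V ≃L[ℝ] (V →L[ℝ] ℝ), (e : V →L[ℝ] (V →L[ℝ] ℝ)) = T := by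
  have hfin : Module.finrank ℝ V = Module.finrank ℝ (V →L[ℝ] ℝ) := by
    rw [← (LinearMap.toContinuousLinearMap : (V →ₗ[ℝ] ℝ) ≃ₗ[ℝ] (V →L[ℝ] ℝ)).finrank_eq]
    exact Subspace.dual_finrank_eq.symm
  have hinj : Function.Injective (T : V →ₗ[ℝ] (V →L[ℝ] ℝ)) := by
    rw [injective_iff_map_eq_zero]
    intro v hv
    by_contra hne
    have h1 := hT v hne
    have h2 : T v = 0 := hv
    rw [h2, _root_.zero_apply] at h1
    exact lt_irrefl _ h1
  refine ⟨(LinearMap.linearEquivOfInjective _ hinj hfin).toContinuousLinearEquiv, ?_⟩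
  ext v w
  rfl

end PGRD

theorem t_GRD : S_GRD.{u} := by
  intro V _ _ _ O G hG f hf
  refine ⟨fun x => (G x).inverse (fderiv ℝ f x), ?_, ?_⟩
  · intro x hx
    obtain ⟨e, he⟩ := PGRD.exists_equiv (G x) (hG.pos x hx)
    have hO : O ∈ 𝓝 x := hG.isOpen.mem_nhds hx
    have h1 : ContDiffAt ℝ ∞ ContinuousLinearMap.inverse (G x) := by
      rw [← he]
      exact contDiffAt_map_inverse e
    have h2 : ContDiffAt ℝ ∞ G x := hG.smooth.contDiffAt hO
    have h3 : ContDiffAt ℝ ∞ (fderiv ℝ f) x := (hf.contDiffAt hO).fderiv_right (m := ∞) (by simp)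
    exact ((h1.comp x h2).clm_apply h3).contDiffWithinAt
  · intro x hx w
    obtain ⟨e, he⟩ := PGRD.exists_equiv (G x) (hG.pos x hx)
    have h1 : G x ((G x).inverse (fderiv ℝ f x)) = fderiv ℝ f x := by
      rw [← he, ContinuousLinearMap.inverse_equiv]
      exact e.apply_symm_apply _
    show fderiv ℝ f x w = G x ((G x).inverse (fderiv ℝ f x)) w
    rw [h1]

end Pool.Agent.H823.BG
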