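import Mathlib
import Pool.Agent.H823.BG.StmW

/-!
# HCUR: the second derivative of a function along a geodesic
-/

open scoped Topology ContDiff RealInnerProductSpace
open Set Metric

noncomputable section

namespace Pool.Agent.H823.BG

universe u v w

namespace PHCUR

variable {V : Type u} [NormedAddCommGroup V] [InnerProductSpace ℝ V]

/-- the geodesic equation in the usual form -/
theorem geo {O : Set V} {G : V → V →L[ℝ] V →L[ℝ] ℝ} {Γ : V → V →L[ℝ] V →L[ℝ] V}
    (hM : IsMet O G) (hL : IsLC O G Γ) {x : V} (hx : x ∈ O) {v a : V}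
    (h : ∀ ξ, G x ξ a + fderiv ℝ G x v v ξ - (1 / 2) * fderiv ℝ G x ξ v v = 0) :
    a = -(Γ x v v) := by
  have h1 : ∀ ξ, G x (a + Γ x v v) ξ = 0 := by
    intro ξ
    have e1 := h ξ
    have e2 := hL.koszul x hx v v ξ
    rw [map_add, add_apply, hM.symm x hx a ξ]
    linarith
  by_contra hne
  have h2 : a + Γ x v v ≠ 0 := fun h0 => hne (eq_neg_of_add_eq_zero_left h0)
  exact (hM.pos x hx _ h2).ne' (h1 _)

end PHCUR

open PHCUR in
theorem t_HCUR : S_HCUR.{u} := by
  intro V _ _ _ O G Γ f c hM hL hx hf hc hgeo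
  have hg := geo hM hL hx hgeo
  have hc0 : ContinuousAt c 0 := hc.continuousAt
  have hf2 : HasFDerivAt (fderiv ℝ f) (fderiv ℝ (fderiv ℝ f) (c 0)) (c 0) :=
    ((hf.fderiv_right (m := ∞) (by simp)).differentiableAt (by simp)).hasFDerivAt
  have hc1 : HasDerivAt c (deriv c 0) 0 := (hc.differentiableAt (by simp)).hasDerivAt
  have hc2 : HasDerivAt (deriv c) (deriv (deriv c) 0) 0 := by
    have h1 : ContDiffAt ℝ ∞ (deriv c) 0 := by
      have := (hc.fderiv_right (m := ∞) (by simp)).clm_apply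
        (contDiffAt_const (c := (1:ℝ)))
      exact this
    exact (h1.differentiableAt (by simp)).hasDerivAt
  have hev : (deriv fun t => f (c t)) =ᶠ[𝓝 0] fun t => fderiv ℝ f (c t) (deriv c t) := by
    have e1 : ∀ᶠ y in 𝓝 (c 0), ContDiffAt ℝ 1 f y :=
      (hf.of_le (by exact_mod_cast le_top)).eventually (by simp)
    have e2 : ∀ᶠ t in 𝓝 (0:ℝ), ContDiffAt ℝ 1 c t :=
      (hc.of_le (by exact_mod_cast le_top)).eventually (by simp)
    filter_upwards [hc0.eventually e1, e2] with t h1 h2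
    exact ((h1.differentiableAt (by simp)).hasFDerivAt.comp_hasDerivAt t
      (h2.differentiableAt (by simp)).hasDerivAt).deriv
  rw [hev.deriv_eq]
  have h3 : HasDerivAt (fun t => fderiv ℝ f (c t) (deriv c t))
      (fderiv ℝ (fderiv ℝ f) (c 0) (deriv c 0) (deriv c 0) +
        fderiv ℝ f (c 0) (deriv (deriv c) 0)) 0 :=
    (hf2.comp_hasDerivAt (0:ℝ) hc1).clm_apply hc2
  rw [h3.deriv]
  unfold hess
  rw [hg, map_neg]
  ring

end Pool.Agent.H823.BG
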