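import Mathlib
import Pool.Agent.H823.BG.StmN

/-!
# HDI: Hessian bounds for the distance functions, in all the charts
-/

open scoped Topology ContDiff Manifold RealInnerProductSpace
open Set Metric Filter MeasureTheory
open Pool.Agent.H823.HC

noncomputable section

universe u v w

namespace Pool.Agent.H823.BG

namespace PHDI

section norm

variable {V : Type u} [NormedAddCommGroup V] [InnerProductSpace ℝ V]

/-- the derivative of the norm -/
theorem fderiv_norm {x : V} (hx : x ≠ 0) (w : V) : fderiv ℝ (fun y : V => ‖y‖) x w = ⟪x, w⟫ / ‖x‖ := by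
  have hn : ‖x‖ ≠ 0 := norm_ne_zero_iff.2 hx
  have h1 : DifferentiableAt ℝ (fun y : V => ‖y‖) x :=
    (contDiffAt_norm ℝ (n := ∞) hx).differentiableAt (by simp)
  have h2 : HasFDerivAt (fun y : V => ‖y‖ ^ 2) (2 • (innerSL ℝ x)) x := (hasStrictFDerivAt_norm_sq x).hasFDerivAt
  have h3 : HasFDerivAt (fun y : V => ‖y‖ ^ 2) ((2 * ‖x‖) • fderiv ℝ (fun y : V => ‖y‖) x) x := by
    have := h1.hasFDerivAt.pow 2
    simpa using this
  have h4 := h2.unique h3
  have h5 := DFunLike.congr_fun h4 w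
  simp at h5
  field_simp
  linarith

end norm

section chart

variable {V : Type u} [NormedAddCommGroup V] [InnerProductSpace ℝ V]
  {M : Type v} [MetricSpace M] [ChartedSpace V M]

/-- the metric at a point, for vectors of `V` -/
def gM (A : AlmostKahler V M) (x : M) (a b : V) : ℝ := A.om x a (A.J x b)

theorem gC_eq (A : AlmostKahler V M) (e : OpenPartialHomeomorph M V) (x v w : V) :
    A.gC e x v w = gM A (e.symm x) (frame e x v) (frame e x w) := rfl

theorem trans_smooth {e n : OpenPartialHomeomorph M V} (he : e ∈ Charts V M) (hn : n ∈ Charts V M)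
    {z : V} (hz : z ∈ e.target) (hz' : e.symm z ∈ n.source) :
    ContDiffAt ℝ ∞ (fun x => n (e.symm x)) z := by
  rw [← contMDiffAt_iff_contDiffAt]
  exact ContMDiffAt.comp z (contMDiffAt_of_mem_maximalAtlas hn hz')
    (contMDiffAt_symm_of_mem_maximalAtlas he hz)

omit [InnerProductSpace ℝ V] [ChartedSpace V M] in
theorem near {e n : OpenPartialHomeomorph M V} {z : V} (hz : z ∈ e.target)
    (hz' : e.symm z ∈ n.source) : ∀ᶠ x in 𝓝 z, x ∈ e.target ∧ e.symm x ∈ n.source := by
  refine (e.open_target.eventually_mem hz).and ?_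
  exact (e.continuousAt_symm hz).eventually (n.open_source.eventually_mem hz')

theorem frame_trans {e n : OpenPartialHomeomorph M V} (he : e ∈ Charts V M) (hn : n ∈ Charts V M)
    {z : V} (hz : z ∈ e.target) (hz' : e.symm z ∈ n.source) (v : V) :
    (frame n (n (e.symm z)) (fderiv ℝ (fun x => n (e.symm x)) z v) : V) = (frame e z v : V) := by
  have h1 : (fun x => n.symm (n (e.symm x))) =ᶠ[𝓝 z] e.symm := by
    filter_upwards [near hz hz'] with x hx
    exact n.left_inv hx.2
  have h2 := h1.mfderiv_eq (I := 𝓘(ℝ, V)) (I' := 𝓘(ℝ, V))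
  have h3 : MDifferentiableAt 𝓘(ℝ, V) 𝓘(ℝ, V) n.symm ((fun x => n (e.symm x)) z) :=
    (contMDiffAt_symm_of_mem_maximalAtlas hn (n.map_source hz')).mdifferentiableAt (by simp)
  have h4 : MDifferentiableAt 𝓘(ℝ, V) 𝓘(ℝ, V) (fun x => n (e.symm x)) z :=
    ((trans_smooth he hn hz hz').contMDiffAt).mdifferentiableAt (by simp)
  have h5 := mfderiv_comp z h3 h4
  rw [mfderiv_eq_fderiv] at h5
  have h6 := DFunLike.congr_fun h5 v
  have h7 := DFunLike.congr_fun h2 v
  exact (h6.symm.trans h7)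

theorem gC_trans (A : AlmostKahler V M) {e n : OpenPartialHomeomorph M V} (he : e ∈ Charts V M)
    (hn : n ∈ Charts V M) {z : V} (hz : z ∈ e.target) (hz' : e.symm z ∈ n.source) (v w : V) :
    A.gC e z v w = A.gC n (n (e.symm z)) (fderiv ℝ (fun x => n (e.symm x)) z v)
      (fderiv ℝ (fun x => n (e.symm x)) z w) := by
  rw [gC_eq, gC_eq, frame_trans he hn hz hz', frame_trans he hn hz hz', n.left_inv hz']

/-- the geodesic equation in terms of the bundled metric -/
theorem geo_eq (A : AlmostKahler V M) {e : OpenPartialHomeomorph M V}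
    {G : V → V →L[ℝ] V →L[ℝ] ℝ} (hG : IsMet e.target G)
    (hGg : ∀ x ∈ e.target, ∀ v w, G x v w = A.gC e x v w) {c : ℝ → M} (hc : e (c 0) ∈ e.target)
    (ξ : V) (h : A.covAcc e c ξ = 0) :
    G (e (c 0)) ξ (deriv (deriv (fun t => e (c t))) 0) +
      fderiv ℝ G (e (c 0)) (deriv (fun t => e (c t)) 0) (deriv (fun t => e (c t)) 0) ξ -
      (1 / 2) * fderiv ℝ G (e (c 0)) ξ (deriv (fun t => e (c t)) 0)
        (deriv (fun t => e (c t)) 0) = 0 := by
  have hd : DifferentiableAt ℝ G (e (c 0)) :=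
    (hG.smooth.contDiffAt (hG.isOpen.mem_nhds hc)).differentiableAt (by simp)
  have h1 : ∀ u v w : V, fderiv ℝ G (e (c 0)) u v w =
      fderiv ℝ (fun y => A.gC e y v w) (e (c 0)) u := by
    intro u v w
    have h2 := (hd.hasFDerivAt.clm_apply (hasFDerivAt_const v (e (c 0)))).clm_apply
      (hasFDerivAt_const w (e (c 0)))
    have h3 : (fun y => G y v w) =ᶠ[𝓝 (e (c 0))] fun y => A.gC e y v w := by
      filter_upwards [hG.isOpen.mem_nhds hc] with y hy
      exact hGg y hy v w
    rw [← h3.fderiv_eq, h2.fderiv]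
    simp
  rw [h1, h1, hGg _ hc]
  exact h

end chart

end PHDI

open PHDI in
theorem t_HDI (hNCH : S_NCH.{u, v}) (hDST : S_DST.{u, v}) (hTENG : S_TENG.{u, v})
    (hCHR : S_CHR.{u}) (hSECV : S_SECV.{u, v}) (hHSB : S_HSB.{u}) (hGEO : S_GEO.{u, v})
    (hHCUR : S_HCUR.{u}) : S_HDI.{u, v} := by
  intro V _ _ _ M _ _ _ A K r hr hK hSec hInj q e he G Γ hG hGg hΓ y hy hy0 hyr
  obtain ⟨n, hn⟩ := hNCH V M A r hr hInj q
  obtain ⟨hsrc, hdist, -⟩ := hDST V M A r q n hr hn
  have hnC := hn.mem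
  obtain ⟨Gn, hGn, hGng⟩ := hTENG V M A n hnC
  obtain ⟨Γn, hΓn⟩ := hCHR V n.target Gn hGn
  have hsec := hSECV V M A K hSec n hnC Gn Γn hGn hGng hΓn
  -- the point
  have hpn : e.symm y ∈ n.source := by
    rw [hsrc, mem_ball, dist_comm]
    exact hyr
  have hpe : e.symm y ∈ e.source := e.map_target hy
  set τ : V → V := fun x => n (e.symm x) with hτ
  have hy't : τ y ∈ n.target := n.map_source hpn
  have hy'b : τ y ∈ ball (0:V) r := by
    rw [← hn.target]
    exact hy't
  have hnorm : ∀ x ∈ n.source, dist q x = ‖n x‖ := by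
    intro x hx
    have h1 : n x ∈ ball (0:V) r := by
      rw [← hn.target]
      exact n.map_source hx
    have h2 := hdist (n x) h1
    rwa [n.left_inv hx] at h2
  have hny : ‖τ y‖ = dist q (e.symm y) := (hnorm _ hpn).symm
  have hy'0 : τ y ≠ 0 := by
    rw [← norm_pos_iff, hny]
    exact hy0
  have hn0 : ‖τ y‖ ≠ 0 := norm_ne_zero_iff.2 hy'0
  have hτs : ContDiffAt ℝ ∞ τ y := trans_smooth he hnC hy hpn
  have hτd : DifferentiableAt ℝ τ y := hτs.differentiableAt (by simp)
  have hnear := near hy hpn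
  have hfe : (fun z => dist q (e.symm z)) =ᶠ[𝓝 y] fun z => ‖τ z‖ := by
    filter_upwards [hnear] with x hx
    exact hnorm _ hx.2
  -- smoothness
  have hfs : ContDiffAt ℝ ∞ (fun z => dist q (e.symm z)) y :=
    ((contDiffAt_norm ℝ hy'0).comp y hτs).congr_of_eventuallyEq hfe
  -- the differential
  set Dτ : V →L[ℝ] V := fderiv ℝ τ y with hDτ
  have hnd : DifferentiableAt ℝ (fun z : V => ‖z‖) (τ y) :=
    (contDiffAt_norm ℝ (n := ∞) hy'0).differentiableAt (by simp)
  have hfd : ∀ w, fderiv ℝ (fun z => dist q (e.symm z)) y w = ⟪τ y, Dτ w⟫ / ‖τ y‖ := by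
    intro w
    rw [hfe.fderiv_eq]
    have h1 : fderiv ℝ (fun z => ‖τ z‖) y = (fderiv ℝ (fun z : V => ‖z‖) (τ y)).comp Dτ :=
      fderiv_comp y hnd hτd
    rw [h1, ContinuousLinearMap.comp_apply, fderiv_norm hy'0]
  -- the inverse
  have hyn : n.symm (τ y) = e.symm y := n.left_inv hpn
  set σ : V → V := fun x => e (n.symm x) with hσ
  have hσs : ContDiffAt ℝ ∞ σ (τ y) := trans_smooth hnC he hy't (by rw [hyn]; exact hpe)
  have hσd : DifferentiableAt ℝ σ (τ y) := hσs.differentiableAt (by simp)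
  have hσy : σ (τ y) = y := by
    show e (n.symm (τ y)) = y
    rw [hyn, e.right_inv hy]
  have hinv : ∀ v, Dτ (fderiv ℝ σ (τ y) v) = v := by
    intro v
    have h1 : (fun x => τ (σ x)) =ᶠ[𝓝 (τ y)] fun x => x := by
      filter_upwards [near hy't (by rw [hyn]; exact hpe)] with x hx
      show n (e.symm (e (n.symm x))) = x
      rw [e.left_inv hx.2, n.right_inv hx.1]
    have h2 : fderiv ℝ (fun x => τ (σ x)) (τ y) = (fderiv ℝ τ (σ (τ y))).comp (fderiv ℝ σ (τ y)) :=
      fderiv_comp (g := τ) (τ y) (by rw [hσy]; exact hτd) hσd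
    rw [h1.fderiv_eq, hσy] at h2
    have h3 := DFunLike.congr_fun h2 v
    rw [fderiv_fun_id] at h3
    exact h3.symm
  have hgt : ∀ v w, G y v w = A.gC n (τ y) (Dτ v) (Dτ w) := by
    intro v w
    rw [hGg y hy]
    exact gC_trans A he hnC hy hpn v w
  have hgl : ∀ (a : ℝ) (v w : V), A.gC n (τ y) (a • v) w = a * A.gC n (τ y) v w := by
    intro a v w
    rw [← hGng _ hy't, ← hGng _ hy't, map_smul]
    rfl
  have hgr : ∀ (a : ℝ) (v w : V), A.gC n (τ y) v (a • w) = a * A.gC n (τ y) v w := by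
    intro a v w
    rw [← hGng _ hy't, ← hGng _ hy't, map_smul]
    rfl
  refine ⟨hfs, ⟨fderiv ℝ σ (τ y) (‖τ y‖⁻¹ • τ y), ?_, ?_⟩, ?_⟩
  · rw [hgt, hinv, hgl, hgr, hn.gauss _ hy'b, real_inner_self_eq_norm_sq]
    field_simp
  · intro w
    rw [hgt, hinv, hgl, hn.gauss _ hy'b, hfd]
    field_simp
  · intro w
    obtain ⟨c, hc0, hcs, hcd, hcg⟩ := hGEO V M A r hr hInj (e.symm y) e he hpe w
    have hec : e (c 0) = y := by rw [hc0, e.right_inv hy]
    have hnc : n (c 0) = τ y := by rw [hc0]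
    have hce : c 0 ∈ e.source := by rw [hc0]; exact hpe
    have hcn : c 0 ∈ n.source := by rw [hc0]; exact hpn
    have hcc : ContinuousAt c 0 := hcs.continuousAt
    have hne : ∀ᶠ t in 𝓝 (0:ℝ), c t ∈ e.source ∧ c t ∈ n.source :=
      (hcc.eventually (e.open_source.eventually_mem hce)).and
        (hcc.eventually (n.open_source.eventually_mem hcn))
    have hs1 : ContDiffAt ℝ ∞ (fun t => e (c t)) 0 := by
      rw [← contMDiffAt_iff_contDiffAt]
      exact ContMDiffAt.comp 0 (contMDiffAt_of_mem_maximalAtlas he hce) hcs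
    have hs2 : ContDiffAt ℝ ∞ (fun t => n (c t)) 0 := by
      rw [← contMDiffAt_iff_contDiffAt]
      exact ContMDiffAt.comp 0 (contMDiffAt_of_mem_maximalAtlas hnC hcn) hcs
    -- the velocity in the normal chart
    have hv : deriv (fun t => n (c t)) 0 = Dτ w := by
      have h1 : (fun t => n (c t)) =ᶠ[𝓝 (0:ℝ)] fun t => τ (e (c t)) := by
        filter_upwards [hne] with t ht
        show n (c t) = n (e.symm (e (c t)))
        rw [e.left_inv ht.1]
      rw [h1.deriv_eq]
      have h2 : HasDerivAt (fun t => e (c t)) w 0 := by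
        rw [← hcd]
        exact (hs1.differentiableAt (by simp)).hasDerivAt
      have h3 : HasFDerivAt τ Dτ (e (c 0)) := by
        rw [hec]
        exact hτd.hasFDerivAt
      exact (h3.comp_hasDerivAt (0:ℝ) h2).deriv
    -- the two Hessians
    have hA := hHCUR V e.target G Γ (fun z => dist q (e.symm z)) (fun t => e (c t)) hG hΓ
      (by rw [hec]; exact hy) (by rw [hec]; exact hfs) hs1
      (fun ξ => geo_eq A hG hGg (by rw [hec]; exact hy) ξ (hcg e he (by rw [← hc0]; exact hce) ξ))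
    have hB := hHCUR V n.target Gn Γn (fun z => ‖z‖) (fun t => n (c t)) hGn hΓn
      (by rw [hnc]; exact hy't) (by rw [hnc]; exact contDiffAt_norm ℝ hy'0) hs2
      (fun ξ => geo_eq A hGn hGng (by rw [hnc]; exact hy't) ξ (hcg n hnC hpn ξ))
    have hAB : (fun t => dist q (e.symm (e (c t)))) =ᶠ[𝓝 (0:ℝ)] fun t => ‖n (c t)‖ := by
      filter_upwards [hne] with t ht
      rw [e.left_inv ht.1, hnorm _ ht.2]
    rw [hec, hcd] at hA
    rw [hnc, hv] at hB
    have hAB2 : hess Γ (fun z => dist q (e.symm z)) y w w = hess Γn (fun z => ‖z‖) (τ y) (Dτ w) (Dτ w) := by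
      rw [← hA, ← hB]
      exact (hAB.deriv).deriv_eq
    have hGB : IsMet (ball 0 r) Gn := by
      rw [← hn.target]
      exact hGn
    have hΓB : IsLC (ball 0 r) Gn Γn := by
      rw [← hn.target]
      exact hΓn
    have hfin := hHSB V r K Gn Γn hr hK hGB hΓB
      (fun x hx w => by
        rw [hGng x (by rw [hn.target]; exact hx)]
        exact hn.gauss x hx w)
      (fun x hx v w => (abs_le.1 (hsec x (by rw [hn.target]; exact hx) v w)).1)
      (τ y) hy'b hy'0 (Dτ w)
    rw [hAB2, hgt, ← hGng _ hy't, ← hny]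
    exact hfin

end Pool.Agent.H823.BG
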