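import Mathlib
import Pool.Agent.H823.BG.StmW

/-!
# Project BG: the Hessian comparison `HSB`
-/

open scoped Topology ContDiff RealInnerProductSpace
open Set Metric Filter

noncomputable section

universe u

namespace Pool.Agent.H823.BG.PHSB

/-- The algebra of the Riccati comparison. -/
theorem alg {K s τ g h D : ℝ} (hK : K ≤ s ^ 2) (hs : 0 < s) (hτ : 0 < τ) (hg : 0 < g)
    (h1 : (1 + τ * s) * g ≤ τ * h) (h2 : g * D ≤ K * g ^ 2 - h ^ 2) :
    0 < s * g - h - τ * D := by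
  obtain ⟨u, hu⟩ : ∃ u, u = τ * h - (1 + τ * s) * g := ⟨_, rfl⟩
  have hu0 : 0 ≤ u := by rw [hu]; linarith
  have e1 : τ * h = u + (1 + τ * s) * g := by rw [hu]; ring
  have h3 : τ ^ 2 * (g * D) ≤ τ ^ 2 * (K * g ^ 2) - (τ * h) ^ 2 := by
    have := mul_le_mul_of_nonneg_left h2 (sq_nonneg τ)
    nlinarith [this]
  have h4 : 0 < τ * g * (s * g - h - τ * D) := by
    have e2 : τ * g * (s * g - h - τ * D) = τ * s * g ^ 2 - g * (τ * h) - τ ^ 2 * (g * D) := by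
      ring
    rw [e2]
    have e3 : τ * s * g ^ 2 - g * (τ * h) - (τ ^ 2 * (K * g ^ 2) - (τ * h) ^ 2) =
        u ^ 2 + u * g + 2 * (τ * s) * (u * g) + 2 * (τ * s) * g ^ 2 +
          τ ^ 2 * (s ^ 2 - K) * g ^ 2 := by
      rw [e1]; ring
    have p1 : 0 ≤ u * g := mul_nonneg hu0 hg.le
    have p2 : 0 < τ * s := mul_pos hτ hs
    have p3 : 0 ≤ 2 * (τ * s) * (u * g) := by positivity
    have p4 : 0 < 2 * (τ * s) * g ^ 2 := by positivity
    have p5 : 0 ≤ τ ^ 2 * (s ^ 2 - K) * g ^ 2 := by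
      have : 0 ≤ s ^ 2 - K := by linarith
      positivity
    nlinarith [sq_nonneg u]
  have h5 : 0 < τ * g := mul_pos hτ hg
  exact (pos_iff_pos_of_mul_pos h4).1 h5

/-- Abstract Riccati comparison for a pair of quadratic forms along an interval. -/
theorem ric_cmp {V : Type u} [NormedAddCommGroup V] [InnerProductSpace ℝ V]
    [FiniteDimensional ℝ V] {g h : ℝ → V → ℝ} {K p t₀ : ℝ} (hK : 0 ≤ K) (hp : p < t₀)
    (cg : ContinuousOn (fun q : ℝ × V => g q.1 q.2) (Ioc p t₀ ×ˢ (univ : Set V)))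
    (ch : ContinuousOn (fun q : ℝ × V => h q.1 q.2) (Ioc p t₀ ×ˢ (univ : Set V)))
    (hg2 : ∀ t (c : ℝ) w, g t (c • w) = c ^ 2 * g t w)
    (hh2 : ∀ t (c : ℝ) w, h t (c • w) = c ^ 2 * h t w)
    (gpos : ∀ t ∈ Ioc p t₀, ∀ w, w ≠ 0 → 0 < g t w)
    (ric : ∀ t₁ ∈ Ioc p t₀, ∀ w₁, ∃ W : ℝ → V, W t₁ = w₁ ∧ ContinuousAt W t₁ ∧
      HasDerivAt (fun t => g t (W t)) 0 t₁ ∧ ∃ D : ℝ, HasDerivAt (fun t => h t (W t)) D t₁ ∧
      g t₁ w₁ * D ≤ K * g t₁ w₁ ^ 2 - h t₁ w₁ ^ 2) (w : V) :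
    h t₀ w ≤ (1 / (t₀ - p) + √K) * g t₀ w := by
  by_contra hcon
  have hcon := lt_of_not_ge hcon
  have hw : w ≠ 0 := by
    rintro rfl
    have e1 : g t₀ 0 = 0 := by
      have := hg2 t₀ 0 0
      simpa using this
    have e2 : h t₀ 0 = 0 := by
      have := hh2 t₀ 0 0
      simpa using this
    rw [e1, e2] at hcon
    simp at hcon
  -- perturbation
  have hε : ∃ ε : ℝ, 0 < ε ∧ p + ε < t₀ ∧ (1 / (t₀ - (p + ε)) + √(K + ε)) * g t₀ w < h t₀ w := by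
    have hc : ContinuousAt (fun ε : ℝ => (1 / (t₀ - (p + ε)) + √(K + ε)) * g t₀ w) 0 := by
      refine ContinuousAt.mul (ContinuousAt.add (ContinuousAt.div continuousAt_const ?_ ?_) ?_)
        continuousAt_const
      · fun_prop
      · simp only [add_zero]; exact (sub_pos.2 hp).ne'
      · exact (Real.continuous_sqrt.comp (continuous_const.add continuous_id)).continuousAt
    have h1 : ∀ᶠ ε in 𝓝 (0:ℝ), (1 / (t₀ - (p + ε)) + √(K + ε)) * g t₀ w < h t₀ w := by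
      refine hc.eventually_lt continuousAt_const ?_
      simpa using hcon
    have h2 : ∀ᶠ ε in 𝓝 (0:ℝ), p + ε < t₀ := by
      have : ContinuousAt (fun ε : ℝ => p + ε) 0 := by fun_prop
      refine this.eventually_lt continuousAt_const ?_
      simpa using hp
    have h3 : ∀ᶠ ε in 𝓝[>] (0:ℝ), 0 < ε := eventually_mem_nhdsWithin
    obtain ⟨ε, e1, e2, e3⟩ := (h3.and ((h2.and h1).filter_mono nhdsWithin_le_nhds)).exists
    exact ⟨ε, e1, e2, e3⟩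
  obtain ⟨ε, hε, hat, hlt⟩ := hε
  obtain ⟨a, rfl⟩ : ∃ a, a = p + ε := ⟨_, rfl⟩
  obtain ⟨s, hs⟩ : ∃ s, s = √(K + ε) := ⟨_, rfl⟩
  have hs0 : 0 < s := by rw [hs]; exact Real.sqrt_pos.2 (by linarith)
  have hs2 : K ≤ s ^ 2 := by rw [hs, Real.sq_sqrt (by linarith)]; linarith
  rw [← hs] at hlt
  set a := p + ε with ha
  have hpa : p < a := by linarith
  -- the compact set
  obtain ⟨S, hS⟩ : ∃ S : Set (ℝ × V), S = Icc a t₀ ×ˢ sphere (0:V) 1 := ⟨_, rfl⟩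
  have hSc : IsCompact S := by rw [hS]; exact isCompact_Icc.prod (isCompact_sphere 0 1)
  have hSs : S ⊆ Ioc p t₀ ×ˢ (univ : Set V) := by
    rw [hS]
    rintro ⟨t, w⟩ ⟨h1, h2⟩
    exact ⟨⟨hpa.trans_le h1.1, h1.2⟩, mem_univ _⟩
  obtain ⟨φ, hφ⟩ : ∃ φ : ℝ × V → ℝ,
    φ = fun q => (q.1 - a) * h q.1 q.2 - (1 + (q.1 - a) * s) * g q.1 q.2 := ⟨_, rfl⟩
  have cφ : ContinuousOn φ S := by
    rw [hφ]
    have k1 : ContinuousOn (fun q : ℝ × V => q.1 - a) S := by fun_prop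
    have k2 : ContinuousOn (fun q : ℝ × V => 1 + (q.1 - a) * s) S := by fun_prop
    exact (k1.mul (ch.mono hSs)).sub (k2.mul (cg.mono hSs))
  obtain ⟨Z, hZ⟩ : ∃ Z : Set (ℝ × V), Z = S ∩ φ ⁻¹' Ici 0 := ⟨_, rfl⟩
  have hZc : IsCompact Z := by
    rw [hZ]
    exact hSc.of_isClosed_subset
      (cφ.preimage_isClosed_of_isClosed hSc.isClosed isClosed_Ici) inter_subset_left
  -- membership by homogeneity
  have key : ∀ t ∈ Icc a t₀, ∀ w : V, w ≠ 0 → 0 ≤ φ (t, w) → (t, ‖w‖⁻¹ • w) ∈ Z := by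
    intro t ht w hw h0
    have hn : ‖w‖ ≠ 0 := norm_ne_zero_iff.2 hw
    rw [hZ, hS]
    refine ⟨⟨ht, ?_⟩, ?_⟩
    · rw [mem_sphere_zero_iff_norm, norm_smul, norm_inv, norm_norm, inv_mul_cancel₀ hn]
    · show 0 ≤ φ (t, ‖w‖⁻¹ • w)
      have e : φ (t, ‖w‖⁻¹ • w) = (‖w‖⁻¹) ^ 2 * φ (t, w) := by
        rw [hφ]; simp only [hg2, hh2]; ring
      rw [e]
      positivity
  have hZn : Z.Nonempty := by
    refine ⟨_, key t₀ ⟨hat.le, le_rfl⟩ w hw ?_⟩
    have h1 : 0 < t₀ - a := by linarith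
    rw [hφ]
    have h2 : (1 + (t₀ - a) * s) * g t₀ w = (t₀ - a) * ((1 / (t₀ - a) + s) * g t₀ w) := by
      field_simp
    show 0 ≤ (t₀ - a) * h t₀ w - (1 + (t₀ - a) * s) * g t₀ w
    rw [h2, ← mul_sub]
    exact mul_nonneg h1.le (sub_nonneg.2 hlt.le)
  obtain ⟨⟨t₁, w₁⟩, hq, hmin⟩ := hZc.exists_isMinOn hZn continuous_fst.continuousOn
  have hq' := hq
  rw [hZ, hS] at hq'
  obtain ⟨⟨ht₁, hw₁⟩, hφ₁⟩ := hq'
  simp only at ht₁ hw₁
  have ht₁' : t₁ ∈ Ioc p t₀ := ⟨hpa.trans_le ht₁.1, ht₁.2⟩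
  have hw₁0 : w₁ ≠ 0 := by
    rintro rfl
    simp at hw₁
  have gp := gpos t₁ ht₁' w₁ hw₁0
  have hφ₂ : 0 ≤ (t₁ - a) * h t₁ w₁ - (1 + (t₁ - a) * s) * g t₁ w₁ := by
    have : 0 ≤ φ (t₁, w₁) := hφ₁
    rw [hφ] at this
    exact this
  have hτ : 0 < t₁ - a := by
    rcases eq_or_lt_of_le ht₁.1 with h0 | h0
    · exfalso
      rw [← h0] at hφ₂ gp
      simp only [sub_self, zero_mul, add_zero, one_mul, zero_sub] at hφ₂
      linarith
    · linarith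
  obtain ⟨W, hW, cW, dg, D, dh, hD⟩ := ric t₁ ht₁' w₁
  have hpos := alg hs2 hs0 hτ gp (by linarith) hD
  -- the function
  have dP : HasDerivAt (fun t => (1 + (t - a) * s) * g t (W t) - (t - a) * h t (W t))
      (s * g t₁ w₁ - h t₁ w₁ - (t₁ - a) * D) t₁ := by
    have d1 : HasDerivAt (fun t : ℝ => t - a) 1 t₁ := (hasDerivAt_id t₁).sub_const a
    have d2 : HasDerivAt (fun t : ℝ => 1 + (t - a) * s) (1 * s) t₁ :=
      (d1.mul_const s).const_add 1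
    have d3 := (d2.mul dg).sub (d1.mul dh)
    rw [hW] at d3
    have e : s * g t₁ w₁ - h t₁ w₁ - (t₁ - a) * D =
        1 * s * g t₁ w₁ + (1 + (t₁ - a) * s) * 0 - (1 * h t₁ w₁ + (t₁ - a) * D) := by ring
    rw [e]
    exact d3
  have ev1 : ∀ᶠ t in 𝓝[<] t₁,
      (1 + (t - a) * s) * g t (W t) - (t - a) * h t (W t) <
        (1 + (t₁ - a) * s) * g t₁ (W t₁) - (t₁ - a) * h t₁ (W t₁) := by
    have hsl := (hasDerivAt_iff_tendsto_slope_left_right.1 dP).1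
    have h1 := hsl.eventually_const_lt hpos
    filter_upwards [h1, self_mem_nhdsWithin] with t h2 h3
    have h3' : t - t₁ < 0 := sub_neg.2 h3
    rw [slope_def_field] at h2
    have h4 := (div_pos_iff.1 h2)
    rcases h4 with ⟨h5, h6⟩ | ⟨h5, h6⟩
    · exact absurd h6 (not_lt.2 h3'.le)
    · linarith
  have ev2 : ∀ᶠ t in 𝓝[<] t₁, W t ≠ 0 := by
    have : ∀ᶠ t in 𝓝 t₁, W t ≠ 0 := cW.eventually_ne (by rw [hW]; exact hw₁0)
    exact this.filter_mono nhdsWithin_le_nhds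
  have ev3 : ∀ᶠ t in 𝓝[<] t₁, a < t := by
    have : ∀ᶠ t in 𝓝 t₁, a < t := eventually_gt_nhds (by linarith)
    exact this.filter_mono nhdsWithin_le_nhds
  have ev4 : ∀ᶠ t in 𝓝[<] t₁, t < t₁ := eventually_mem_nhdsWithin
  obtain ⟨t, i1, i2, i3, i4⟩ := (ev1.and (ev2.and (ev3.and ev4))).exists
  have hmem := key t ⟨i3.le, i4.le.trans ht₁.2⟩ (W t) i2 (by
    rw [hφ]
    show 0 ≤ (t - a) * h t (W t) - (1 + (t - a) * s) * g t (W t)
    rw [hW] at i1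
    linarith)
  have hle : t₁ ≤ t := hmin hmem
  linarith

/-- The derivative of the norm. -/
theorem fd_norm {V : Type u} [NormedAddCommGroup V] [InnerProductSpace ℝ V] {x : V}
    (hx : x ≠ 0) (w : V) : fderiv ℝ (fun y : V => ‖y‖) x w = ‖x‖⁻¹ * ⟪x, w⟫ := by
  have hn : ‖x‖ ≠ 0 := norm_ne_zero_iff.2 hx
  have h1 : HasFDerivAt (fun y : V => ‖y‖ ^ 2) (2 • (innerSL ℝ) x) x :=
    (hasStrictFDerivAt_norm_sq x).hasFDerivAt
  have h2 := h1.sqrt (pow_ne_zero 2 hn)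
  have e : (fun y : V => √(‖y‖ ^ 2)) = fun y : V => ‖y‖ := by
    funext y
    exact Real.sqrt_sq (norm_nonneg y)
  rw [e] at h2
  rw [h2.fderiv, Real.sqrt_sq (norm_nonneg x)]
  simp only [smul_apply, innerSL_apply_apply, smul_eq_mul, nsmul_eq_mul]
  field_simp
  norm_num

end Pool.Agent.H823.BG.PHSB

namespace Pool.Agent.H823.BG

open PHSB in
theorem t_HSB (hRIC : S_RIC.{u}) : S_HSB.{u} := by
  intro V _ _ _ r K G Γ hr hK hM hL hgauss hcurv x hx hx0 w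
  obtain ⟨O, hO⟩ : ∃ O : Set V, O = ball (0:V) r \ {0} := ⟨_, rfl⟩
  have hOb : O ⊆ ball (0:V) r := by rw [hO]; exact sdiff_subset
  have hOo : IsOpen O := by rw [hO]; exact isOpen_ball.sdiff isClosed_singleton
  have hO0 : ∀ y ∈ O, y ≠ 0 := by
    intro y hy
    rw [hO] at hy
    exact hy.2
  obtain ⟨f, hf⟩ : ∃ f : V → ℝ, f = fun y => ‖y‖ := ⟨_, rfl⟩
  obtain ⟨N, hN⟩ : ∃ N : V → V, N = fun y => ‖y‖⁻¹ • y := ⟨_, rfl⟩
  have hM' : IsMet O G := ⟨hOo, hM.smooth.mono hOb, fun y hy => hM.symm y (hOb hy),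
    fun y hy => hM.pos y (hOb hy)⟩
  have hL' : IsLC O G Γ := ⟨hL.smooth.mono hOb, fun y hy => hL.symm y (hOb hy),
    fun y hy => hL.koszul y (hOb hy)⟩
  have fs : ContDiffOn ℝ ∞ f O := by
    intro y hy
    rw [hf]
    exact (contDiffAt_norm ℝ (hO0 y hy)).contDiffWithinAt
  have Ns : ContDiffOn ℝ ∞ N O := by
    intro y hy
    rw [hN]
    exact (((contDiffAt_norm ℝ (hO0 y hy)).inv (norm_ne_zero_iff.2 (hO0 y hy))).smul
      contDiffAt_id).contDiffWithinAt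
  have hgrad : ∀ y ∈ O, ∀ z, fderiv ℝ f y z = G y (N y) z := by
    intro y hy z
    rw [hf, hN]
    simp only [map_smul, smul_apply, smul_eq_mul]
    rw [fd_norm (hO0 y hy), hgauss y (hOb hy)]
  have hunit : ∀ y ∈ O, G y (N y) (N y) = 1 := by
    intro y hy
    have hn : ‖y‖ ≠ 0 := norm_ne_zero_iff.2 (hO0 y hy)
    rw [hN]
    simp only [map_smul, smul_apply, smul_eq_mul]
    rw [hgauss y (hOb hy), real_inner_self_eq_norm_sq]
    field_simp
  have hRIC' := hRIC V O G Γ f N K hK hM' hL' fs Ns hgrad hunit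
    (fun y hy v w => hcurv y (hOb hy) v w)
  -- the ray
  have hxn : 0 < ‖x‖ := norm_pos_iff.2 hx0
  have hxr : ‖x‖ < r := mem_ball_zero_iff.1 hx
  obtain ⟨v, hv⟩ : ∃ v : V, v = ‖x‖⁻¹ • x := ⟨_, rfl⟩
  have hv1 : ‖v‖ = 1 := by
    rw [hv, norm_smul, norm_inv, norm_norm, inv_mul_cancel₀ hxn.ne']
  have hxv : ‖x‖ • v = x := by
    rw [hv, smul_smul, mul_inv_cancel₀ hxn.ne', one_smul]
  have hray : ∀ t ∈ Ioo (0:ℝ) r, t • v ∈ O := by
    intro t ht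
    rw [hO]
    refine ⟨?_, ?_⟩
    · rw [mem_ball_zero_iff, norm_smul, hv1, mul_one, Real.norm_eq_abs, abs_of_pos ht.1]
      exact ht.2
    · simp only [mem_singleton_iff]
      intro h0
      have : ‖t • v‖ = 0 := by rw [h0, norm_zero]
      rw [norm_smul, hv1, mul_one, Real.norm_eq_abs, abs_of_pos ht.1] at this
      exact ht.1.ne' this
  have hNray : ∀ t ∈ Ioo (0:ℝ) r, N (t • v) = v := by
    intro t ht
    rw [hN]
    show ‖t • v‖⁻¹ • (t • v) = v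
    rw [norm_smul, hv1, mul_one, Real.norm_eq_abs, abs_of_pos ht.1, smul_smul,
      inv_mul_cancel₀ ht.1.ne', one_smul]
  obtain ⟨g, hg⟩ : ∃ g : ℝ → V → ℝ, g = fun t w => G (t • v) w w := ⟨_, rfl⟩
  obtain ⟨h, hh⟩ : ∃ h : ℝ → V → ℝ, h = fun t w => hess Γ f (t • v) w w := ⟨_, rfl⟩
  have mray : MapsTo (fun q : ℝ × V => q.1 • v) (Ioo (0:ℝ) r ×ˢ (univ : Set V)) O :=
    fun q hq => hray q.1 hq.1
  have cray : ContinuousOn (fun q : ℝ × V => q.1 • v) (Ioo (0:ℝ) r ×ˢ (univ : Set V)) := by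
    fun_prop
  have csnd : ContinuousOn (fun q : ℝ × V => q.2) (Ioo (0:ℝ) r ×ˢ (univ : Set V)) := by
    fun_prop
  have cg : ContinuousOn (fun q : ℝ × V => g q.1 q.2) (Ioo (0:ℝ) r ×ˢ (univ : Set V)) := by
    rw [hg]
    have c1 : ContinuousOn (fun q : ℝ × V => G (q.1 • v)) (Ioo (0:ℝ) r ×ˢ (univ : Set V)) :=
      hM'.smooth.continuousOn.comp cray mray
    exact (c1.clm_apply csnd).clm_apply csnd
  have fs1 : ContDiffOn ℝ ∞ (fderiv ℝ f) O := fs.fderiv_of_isOpen hOo (by simp)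
  have fs2 : ContDiffOn ℝ ∞ (fderiv ℝ (fderiv ℝ f)) O := fs1.fderiv_of_isOpen hOo (by simp)
  have ch : ContinuousOn (fun q : ℝ × V => h q.1 q.2) (Ioo (0:ℝ) r ×ˢ (univ : Set V)) := by
    rw [hh]
    have c1 : ContinuousOn (fun q : ℝ × V => fderiv ℝ (fderiv ℝ f) (q.1 • v))
        (Ioo (0:ℝ) r ×ˢ (univ : Set V)) := fs2.continuousOn.comp cray mray
    have c2 : ContinuousOn (fun q : ℝ × V => fderiv ℝ f (q.1 • v))
        (Ioo (0:ℝ) r ×ˢ (univ : Set V)) := fs1.continuousOn.comp cray mray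
    have c3 : ContinuousOn (fun q : ℝ × V => Γ (q.1 • v))
        (Ioo (0:ℝ) r ×ˢ (univ : Set V)) := hL'.smooth.continuousOn.comp cray mray
    exact ((c1.clm_apply csnd).clm_apply csnd).sub
      (c2.clm_apply ((c3.clm_apply csnd).clm_apply csnd))
  have hg2 : ∀ t (c : ℝ) w, g t (c • w) = c ^ 2 * g t w := by
    intro t c w
    rw [hg]
    simp only [map_smul, smul_apply, smul_eq_mul]
    ring
  have hh2 : ∀ t (c : ℝ) w, h t (c • w) = c ^ 2 * h t w := by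
    intro t c w
    rw [hh]
    simp only [hess, map_smul, smul_apply, smul_eq_mul]
    ring
  have gpos : ∀ t ∈ Ioo (0:ℝ) r, ∀ w, w ≠ 0 → 0 < g t w := by
    intro t ht w hw
    rw [hg]
    exact hM'.pos _ (hray t ht) w hw
  have ric : ∀ t₁ ∈ Ioo (0:ℝ) r, ∀ w₁, ∃ W : ℝ → V, W t₁ = w₁ ∧ ContinuousAt W t₁ ∧
      HasDerivAt (fun t => g t (W t)) 0 t₁ ∧ ∃ D : ℝ, HasDerivAt (fun t => h t (W t)) D t₁ ∧
      g t₁ w₁ * D ≤ K * g t₁ w₁ ^ 2 - h t₁ w₁ ^ 2 := by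
    intro t₁ ht₁ w₁
    have hc : HasDerivAt (fun t : ℝ => t • v) (N (t₁ • v)) t₁ := by
      rw [hNray t₁ ht₁]
      have := (hasDerivAt_id t₁).smul_const v
      rw [one_smul] at this
      exact this
    obtain ⟨z, hz⟩ : ∃ z : V, z = -(Γ (t₁ • v) (N (t₁ • v)) w₁) := ⟨_, rfl⟩
    have hW : HasDerivAt (fun t : ℝ => w₁ + (t - t₁) • z) z t₁ := by
      have := (((hasDerivAt_id t₁).sub_const t₁).smul_const z).const_add w₁
      rw [one_smul] at this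
      exact this
    have hW0 : w₁ + (t₁ - t₁) • z = w₁ := by rw [sub_self, zero_smul, add_zero]
    obtain ⟨h1, D, h2, h3⟩ := hRIC' (t₁ • v) (hray t₁ ht₁) w₁ (fun t : ℝ => t • v)
      (fun t : ℝ => w₁ + (t - t₁) • z) t₁ rfl hc hW0 (by rw [← hz]; exact hW)
    rw [hg, hh]
    exact ⟨fun t : ℝ => w₁ + (t - t₁) • z, hW0, hW.continuousAt, h1, D, h2, h3⟩
  have ex : ∀ w, h ‖x‖ w = hess Γ (fun y => ‖y‖) x w w := by
    intro w
    rw [hh, hf]
    show hess Γ (fun y => ‖y‖) (‖x‖ • v) w w = hess Γ (fun y => ‖y‖) x w w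
    rw [hxv]
  have eg : ∀ w, g ‖x‖ w = G x w w := by
    intro w
    rw [hg]
    show G (‖x‖ • v) w w = G x w w
    rw [hxv]
  constructor
  · have hs : Ioc (0:ℝ) ‖x‖ ⊆ Ioo 0 r := fun t ht => ⟨ht.1, ht.2.trans_lt hxr⟩
    have := ric_cmp (g := g) (h := h) hK hxn (cg.mono (prod_mono hs subset_rfl))
      (ch.mono (prod_mono hs subset_rfl)) hg2 hh2 (fun t ht => gpos t (hs ht))
      (fun t ht => ric t (hs ht)) w
    rw [ex, eg, sub_zero] at this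
    exact this
  · have hs : ∀ t ∈ Ioc (-r) (-‖x‖), -t ∈ Ioo 0 r := by
      intro t ht
      exact ⟨by linarith [ht.2], by linarith [ht.1]⟩
    have m2 : MapsTo (fun q : ℝ × V => (-q.1, q.2)) (Ioc (-r) (-‖x‖) ×ˢ (univ : Set V))
        (Ioo (0:ℝ) r ×ˢ (univ : Set V)) := fun q hq => ⟨hs q.1 hq.1, mem_univ _⟩
    have c2 : ContinuousOn (fun q : ℝ × V => (-q.1, q.2))
        (Ioc (-r) (-‖x‖) ×ˢ (univ : Set V)) := by fun_prop
    have := ric_cmp (g := fun t w => g (-t) w) (h := fun t w => -h (-t) w) hK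
      (p := -r) (t₀ := -‖x‖) (by linarith) (cg.comp c2 m2) ((ch.comp c2 m2).neg)
      (fun t c w => hg2 (-t) c w) (fun t c w => by rw [hh2]; ring)
      (fun t ht => gpos (-t) (hs t ht))
      (by
        intro t₁ ht₁ w₁
        obtain ⟨W, hW, cW, h1, D, h2, h3⟩ := ric (-t₁) (hs t₁ ht₁) w₁
        have hneg : HasDerivAt (fun t : ℝ => -t) (-1) t₁ := hasDerivAt_neg t₁
        refine ⟨fun t => W (-t), hW, ?_, ?_, D, ?_, ?_⟩
        · exact ContinuousAt.comp (f := fun t : ℝ => -t) cW continuous_neg.continuousAt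
        · have := HasDerivAt.comp t₁ h1 hneg
          rw [zero_mul] at this
          exact this
        · have := (HasDerivAt.comp t₁ h2 hneg).neg
          rw [mul_neg, mul_one, neg_neg] at this
          exact this
        · rw [neg_sq]
          exact h3) w
    simp only [neg_neg] at this
    rw [ex, eg] at this
    have e : -‖x‖ - -r = r - ‖x‖ := by ring
    rw [e] at this
    linarith

end Pool.Agent.H823.BG
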