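import Mathlib
import Pool.Agent.H823.BG.StmW

/-! # LIN: linear algebra of the Gram form (helper30) -/

set_option autoImplicit false

open scoped Topology ContDiff RealInnerProductSpace
open Set Metric

noncomputable section

universe u v w

namespace Pool.Agent.H823.BG

namespace PLIN

variable {V : Type u} [NormedAddCommGroup V] [InnerProductSpace ℝ V] [FiniteDimensional ℝ V]

/-- the combination of the vectors `n i` -/
def TT (n : Fin (Module.finrank ℝ V) → V) : V →ₗ[ℝ] V where
  toFun a := ∑ i, ⟪bas V i, a⟫ • n i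
  map_add' a a' := by
    rw [← Finset.sum_add_distrib]
    exact Finset.sum_congr rfl fun i _ => by rw [inner_add_right, add_smul]
  map_smul' c a := by
    rw [RingHom.id_apply, Finset.smul_sum]
    exact Finset.sum_congr rfl fun i _ => by rw [real_inner_smul_right, mul_smul]

/-- the vector of the products with the vectors `n i` -/
def LL (g : V →L[ℝ] V →L[ℝ] ℝ) (n : Fin (Module.finrank ℝ V) → V) : V →ₗ[ℝ] V where
  toFun w := ∑ i, g (n i) w • bas V i
  map_add' a a' := by
    rw [← Finset.sum_add_distrib]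
    exact Finset.sum_congr rfl fun i _ => by rw [map_add, add_smul]
  map_smul' c a := by
    rw [RingHom.id_apply, Finset.smul_sum]
    exact Finset.sum_congr rfl fun i _ => by rw [map_smul, smul_eq_mul, mul_smul]

theorem key (g : V →L[ℝ] V →L[ℝ] ℝ) (n : Fin (Module.finrank ℝ V) → V) (a w : V) :
    g (TT n a) w = ⟪a, LL g n w⟫ := by
  have h1 : g (TT n a) w = ∑ i, ⟪bas V i, a⟫ * g (n i) w := by
    show g (∑ i, ⟪bas V i, a⟫ • n i) w = _
    rw [map_sum, ContinuousLinearMap.sum_apply]
    exact Finset.sum_congr rfl fun i _ => by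
      rw [map_smul]
      rfl
  have h2 : ⟪a, LL g n w⟫ = ∑ i, ⟪bas V i, a⟫ * g (n i) w := by
    show ⟪a, ∑ i, g (n i) w • bas V i⟫ = _
    rw [inner_sum]
    exact Finset.sum_congr rfl fun i _ => by
      rw [real_inner_smul_right, real_inner_comm, mul_comm]
  rw [h1, h2]

omit [FiniteDimensional ℝ V] in
/-- the Cauchy-Schwarz inequality -/
theorem cs (g : V →L[ℝ] V →L[ℝ] ℝ) (hs : ∀ v w, g v w = g w v) (hp : ∀ v, v ≠ 0 → 0 < g v v)
    (u w : V) : g u w ^ 2 ≤ g u u * g w w := by
  by_cases hw : w = 0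
  · subst hw
    simp
  · have h1 := hp w hw
    have hnn : ∀ v, 0 ≤ g v v := fun v => by
      by_cases hv : v = 0
      · subst hv; simp
      · exact (hp v hv).le
    have h2 := hnn (g w w • u - g u w • w)
    have h3 : g (g w w • u - g u w • w) (g w w • u - g u w • w) =
        g w w * (g u u * g w w - g u w ^ 2) := by
      simp only [map_sub, map_smul, ContinuousLinearMap.sub_apply, ContinuousLinearMap.smul_apply,
        smul_eq_mul]
      rw [hs w u]
      ring
    rw [h3] at h2
    have h4 := nonneg_of_mul_nonneg_right h2 h1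
    linarith

end PLIN

open PLIN

theorem t_LIN : S_LIN.{u} := by
  intro V _ _ _ g n hs hp hg
  have hnn : ∀ v, 0 ≤ g v v := fun v => by
    by_cases hv : v = 0
    · subst hv; simp
    · exact (hp v hv).le
  have hT : ∀ a, ‖a‖ ^ 2 / 2 ≤ g (TT n a) (TT n a) ∧
      g (TT n a) (TT n a) ≤ 3 / 2 * ‖a‖ ^ 2 := by
    intro a
    have h1 := hg a a
    have h2 : |g (TT n a) (TT n a) - ⟪a, a⟫| ≤ (1 / 2) * ‖a‖ * ‖a‖ := h1
    rw [real_inner_self_eq_norm_sq, abs_le] at h2
    constructor <;> nlinarith [h2.1, h2.2]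
  have hinj : Function.Injective (TT n) := by
    refine (injective_iff_map_eq_zero (TT n)).2 fun a ha => ?_
    have h1 := (hT a).1
    rw [ha, map_zero] at h1
    have h2 : ‖a‖ ^ 2 ≤ 0 := by linarith
    have h3 : ‖a‖ = 0 := by
      have := norm_nonneg a
      nlinarith
    exact norm_eq_zero.1 h3
  have hsurj : Function.Surjective (TT n) := LinearMap.injective_iff_surjective.1 hinj
  refine ⟨fun w => ?_, fun w => ?_, fun v => ?_⟩
  · show g w w ≤ 2 * ‖LL g n w‖ ^ 2
    obtain ⟨a, rfl⟩ := hsurj w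
    obtain ⟨x, hx⟩ : ∃ x, x = g (TT n a) (TT n a) := ⟨_, rfl⟩
    have h1 : x ≤ ‖a‖ * ‖LL g n (TT n a)‖ := by
      rw [hx, key]
      exact real_inner_le_norm _ _
    have h2 : ‖a‖ ^ 2 ≤ 2 * x := by
      have := (hT a).1
      rw [← hx] at this
      linarith
    rw [← hx]
    have h3 : 0 ≤ x := by rw [hx]; exact hnn _
    have h4 := norm_nonneg (LL g n (TT n a))
    have h5 := norm_nonneg a
    by_contra hcon
    push Not at hcon
    have h6 : x ^ 2 ≤ ‖a‖ ^ 2 * ‖LL g n (TT n a)‖ ^ 2 := by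
      have := pow_le_pow_left₀ h3 h1 2
      rwa [mul_pow] at this
    have h7 : ‖a‖ ^ 2 * ‖LL g n (TT n a)‖ ^ 2 ≤ 2 * x * ‖LL g n (TT n a)‖ ^ 2 :=
      mul_le_mul_of_nonneg_right h2 (by positivity)
    have h8 : 0 < x := lt_of_le_of_lt (by positivity) hcon
    nlinarith
  · show ‖LL g n w‖ ^ 2 ≤ (3 / 2) * g w w
    obtain ⟨ξ, hξ⟩ : ∃ ξ, ξ = LL g n w := ⟨_, rfl⟩
    have h1 : ‖ξ‖ ^ 2 = g (TT n ξ) w := by
      rw [key, ← hξ, real_inner_self_eq_norm_sq]
    have h2 := cs g hs hp (TT n ξ) w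
    rw [← h1] at h2
    have h3 := (hT ξ).2
    have h4 := hnn w
    rw [← hξ]
    by_contra hcon
    push Not at hcon
    have h5 : (‖ξ‖ ^ 2) ^ 2 ≤ 3 / 2 * ‖ξ‖ ^ 2 * g w w :=
      h2.trans (mul_le_mul_of_nonneg_right h3 h4)
    have h6 : 0 < ‖ξ‖ ^ 2 := lt_of_le_of_lt (by positivity) hcon
    nlinarith
  · have hinj2 : Function.Injective ((LL g n).comp (TT n)) := by
      refine (injective_iff_map_eq_zero _).2 fun a ha => ?_
      have h1 : LL g n (TT n a) = 0 := ha
      have h2 := (hT a).1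
      rw [key, h1, inner_zero_right] at h2
      have h3 : ‖a‖ = 0 := by
        have := norm_nonneg a
        nlinarith
      exact norm_eq_zero.1 h3
    obtain ⟨a, ha⟩ := LinearMap.injective_iff_surjective.1 hinj2 v
    have ha' : LL g n (TT n a) = v := ha
    refine ⟨a, ha', ?_⟩
    have h2 := (hT a).1
    rw [key, ha'] at h2
    have h3 := real_inner_le_norm a v
    have h4 := norm_nonneg a
    have h5 := norm_nonneg v
    by_contra hcon
    push Not at hcon
    nlinarith

end Pool.Agent.H823.BG
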