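import Mathlib
import Pool.Agent.H823.BG.StmN

/-!
# NCH: existence of normal charts in the maximal atlas (inverse function theorem)
-/

open scoped Topology ContDiff Manifold RealInnerProductSpace
open Set Metric Filter MeasureTheory
open Pool.Agent.H823.HC

noncomputable section

namespace Pool.Agent.H823.BG

universe u v w

namespace PNCH

section lin

variable {V : Type u} [NormedAddCommGroup V] [InnerProductSpace ℝ V] [FiniteDimensional ℝ V]

/-- two inner products on a finite-dimensional space are isometric -/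
theorem exists_iso (g : V →L[ℝ] V →L[ℝ] ℝ) (hs : ∀ v w, g v w = g w v)
    (hp : ∀ v, v ≠ 0 → 0 < g v v) : ∃ L : V ≃L[ℝ] V, ∀ v w, g (L v) (L w) = ⟪v, w⟫ := by
  classical
  have : Invertible (2 : ℝ) := invertibleOfNonzero two_ne_zero
  let B : LinearMap.BilinForm ℝ V := LinearMap.mk₂ ℝ (fun v w => g v w)
    (fun x y z => by simp) (fun c x z => by simp) (fun x y z => by simp) (fun c x z => by simp)
  have hB : ∀ v w, B v w = g v w := fun v w => rfl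
  have hsymm : LinearMap.IsSymm B := ⟨fun v w => by rw [hB, hB]; simpa using hs v w⟩
  obtain ⟨b, hb⟩ := LinearMap.BilinForm.exists_orthogonal_basis hsymm
  have hpos : ∀ i, 0 < g (b i) (b i) := fun i => hp _ (b.ne_zero i)
  have hu : ∀ i, IsUnit ((√(g (b i) (b i)))⁻¹ : ℝ) := fun i =>
    (inv_ne_zero (Real.sqrt_ne_zero'.2 (hpos i))).isUnit
  let u := b.isUnitSMul hu
  have hue : ∀ i, u i = (√(g (b i) (b i)))⁻¹ • b i := fun i => by
    simp only [u, Module.Basis.isUnitSMul_apply]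
  have huu : ∀ i j, g (u i) (u j) = if i = j then 1 else 0 := by
    intro i j
    rw [hue, hue]
    simp only [map_smul, smul_apply, smul_eq_mul]
    split_ifs with h
    · subst h
      have h1 := Real.mul_self_sqrt (hpos i).le
      have h2 : √(g (b i) (b i)) ≠ 0 := Real.sqrt_ne_zero'.2 (hpos i)
      have h3 : g (b i) (b i) = √(g (b i) (b i)) * √(g (b i) (b i)) := h1.symm
      calc (√(g (b i) (b i)))⁻¹ * ((√(g (b i) (b i)))⁻¹ * g (b i) (b i))
          = (√(g (b i) (b i)))⁻¹ * ((√(g (b i) (b i)))⁻¹ *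
            (√(g (b i) (b i)) * √(g (b i) (b i)))) := by rw [← h3]
        _ = 1 := by field_simp
    · have h1 : g (b i) (b j) = 0 := hb h
      rw [h1, mul_zero, mul_zero]
  let L₀ : V ≃ₗ[ℝ] V := (bas V).toBasis.equiv u (Equiv.refl _)
  have hL₀ : ∀ i, L₀ (bas V i) = u i := fun i => by
    have := (bas V).toBasis.equiv_apply i u (Equiv.refl _)
    simpa using this
  refine ⟨L₀.toContinuousLinearEquiv, fun v w => ?_⟩
  have hexp : ∀ v, L₀ v = ∑ i, ⟪bas V i, v⟫ • u i := by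
    intro v
    conv_lhs => rw [← (bas V).sum_repr' v]
    rw [map_sum]
    exact Finset.sum_congr rfl fun i _ => by rw [map_smul, hL₀]
  show g (L₀ v) (L₀ w) = _
  rw [hexp v, hexp w]
  simp only [map_sum, map_smul, sum_apply, smul_apply,
    smul_eq_mul, huu]
  rw [← (bas V).sum_inner_mul_inner v w]
  refine Finset.sum_congr rfl fun i _ => ?_
  simp [real_inner_comm]
  try ring

end lin

section man

variable {V : Type u} [NormedAddCommGroup V] [InnerProductSpace ℝ V] [FiniteDimensional ℝ V]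
  {M : Type v} [TopologicalSpace M] [ChartedSpace V M] [IsManifold 𝓘(ℝ, V) ∞ M]

/-- the inverse function theorem, for a map from the model space to a manifold -/
theorem loc {F : V → M} {v : V} (hF : ContMDiffAt 𝓘(ℝ, V) 𝓘(ℝ, V) ∞ F v)
    (hi : Function.Injective (mfderiv 𝓘(ℝ, V) 𝓘(ℝ, V) F v)) :
    ∃ ψ : M → V, ContMDiffAt 𝓘(ℝ, V) 𝓘(ℝ, V) ∞ ψ (F v) ∧ ψ (F v) = v ∧
      ∀ᶠ y in 𝓝 (F v), F (ψ y) = y := by
  have : CompleteSpace V := FiniteDimensional.complete ℝ V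
  have : IsManifold 𝓘(ℝ, V) 1 M := IsManifold.of_le (n := ∞) (by norm_num)
  set φ := chartAt V (F v) with hφ
  have hmem : F v ∈ φ.source := mem_chart_source V (F v)
  have hφs : ContMDiffAt 𝓘(ℝ, V) 𝓘(ℝ, V) ∞ φ (F v) :=
    contMDiffAt_of_mem_maximalAtlas (IsManifold.chart_mem_maximalAtlas (F v)) hmem
  have hgm : ContMDiffAt 𝓘(ℝ, V) 𝓘(ℝ, V) ∞ (φ ∘ F) v := hφs.comp v hF
  have hg : ContDiffAt ℝ ∞ (φ ∘ F) v := hgm.contDiffAt
  have hinj : Function.Injective (fderiv ℝ (φ ∘ F) v) := by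
    have h1 : mfderiv 𝓘(ℝ, V) 𝓘(ℝ, V) (φ ∘ F) v =
        (mfderiv 𝓘(ℝ, V) 𝓘(ℝ, V) φ (F v)).comp (mfderiv 𝓘(ℝ, V) 𝓘(ℝ, V) F v) :=
      mfderiv_comp v (hφs.mdifferentiableAt (by norm_num)) (hF.mdifferentiableAt (by norm_num))
    have h2 : Function.Injective (mfderiv 𝓘(ℝ, V) 𝓘(ℝ, V) φ (F v)) :=
      (mdifferentiable_chart (F v)).mfderiv_injective hmem
    rw [mfderiv_eq_fderiv] at h1
    rw [h1]
    exact h2.comp hi
  let f' : V ≃L[ℝ] V :=
    (LinearEquiv.ofInjectiveEndo (fderiv ℝ (φ ∘ F) v).toLinearMap hinj).toContinuousLinearEquiv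
  have hf' : HasFDerivAt (φ ∘ F) (f' : V →L[ℝ] V) v := by
    have h1 := (hg.differentiableAt (by norm_num)).hasFDerivAt
    have h2 : (f' : V →L[ℝ] V) = fderiv ℝ (φ ∘ F) v := by
      ext w
      rfl
    rw [h2]
    exact h1
  have hst := hg.hasStrictFDerivAt' hf' (by norm_num)
  set q := hg.localInverse hf' (by norm_num) with hq
  have hq1 : q ((φ ∘ F) v) = v := hg.localInverse_apply_image hf' (by norm_num)
  have hq2 : ContDiffAt ℝ ∞ q ((φ ∘ F) v) := hg.to_localInverse hf' (by norm_num)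
  have hq3 : ∀ᶠ z in 𝓝 ((φ ∘ F) v), (φ ∘ F) (q z) = z := hst.eventually_right_inverse
  have hψ : ContMDiffAt 𝓘(ℝ, V) 𝓘(ℝ, V) ∞ (q ∘ φ) (F v) :=
    ContMDiffAt.comp (F v) hq2.contMDiffAt hφs
  refine ⟨q ∘ φ, hψ, hq1, ?_⟩
  have h1 : ∀ᶠ y in 𝓝 (F v), (φ ∘ F) (q (φ y)) = φ y := hφs.continuousAt.eventually hq3
  have h2 : ∀ᶠ y in 𝓝 (F v), y ∈ φ.source := φ.open_source.mem_nhds hmem
  have h3 : ∀ᶠ y in 𝓝 (F v), F ((q ∘ φ) y) ∈ φ.source := by
    have h4 : ContinuousAt (F ∘ (q ∘ φ)) (F v) := by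
      apply ContinuousAt.comp _ hψ.continuousAt
      have : (q ∘ φ) (F v) = v := hq1
      rw [this]
      exact hF.continuousAt
    have h5 : (F ∘ (q ∘ φ)) (F v) ∈ φ.source := by
      show F (q ((φ ∘ F) v)) ∈ _
      rw [hq1]
      exact hmem
    exact h4.eventually (φ.open_source.mem_nhds h5)
  filter_upwards [h1, h2, h3] with y q1 q2 q3
  exact φ.injOn q3 q2 q1

/-- an injective immersion of a ball is the inverse of a chart -/
theorem build {F : V → M} {r : ℝ} (hF : ContMDiffOn 𝓘(ℝ, V) 𝓘(ℝ, V) ∞ F (ball 0 r))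
    (hinj : InjOn F (ball 0 r))
    (him : ∀ v ∈ ball (0 : V) r, Function.Injective (mfderiv 𝓘(ℝ, V) 𝓘(ℝ, V) F v)) :
    ∃ e : OpenPartialHomeomorph M V, e ∈ Charts V M ∧ e.target = ball 0 r ∧ ⇑e.symm = F := by
  have hFa : ∀ v ∈ ball (0 : V) r, ContMDiffAt 𝓘(ℝ, V) 𝓘(ℝ, V) ∞ F v := fun v hv =>
    hF.contMDiffAt (isOpen_ball.mem_nhds hv)
  set inv : M → V := Function.invFunOn F (ball 0 r) with hinv
  have hleft : LeftInvOn inv F (ball 0 r) := hinj.leftInvOn_invFunOn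
  have hkey : ∀ v ∈ ball (0 : V) r, ContMDiffAt 𝓘(ℝ, V) 𝓘(ℝ, V) ∞ inv (F v) ∧
      F '' ball 0 r ∈ 𝓝 (F v) := by
    intro v hv
    obtain ⟨ψ, h1, h2, h3⟩ := loc (hFa v hv) (him v hv)
    have h4 : ∀ᶠ y in 𝓝 (F v), ψ y ∈ ball (0 : V) r := by
      apply h1.continuousAt.eventually
      rw [h2]
      exact isOpen_ball.mem_nhds hv
    constructor
    · refine h1.congr_of_eventuallyEq ?_
      filter_upwards [h3, h4] with y q1 q2
      conv_lhs => rw [← q1]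
      exact hleft q2
    · filter_upwards [h3, h4] with y q1 q2
      exact ⟨ψ y, q2, q1⟩
  have hopen : IsOpen (F '' ball 0 r) := by
    rw [isOpen_iff_mem_nhds]
    rintro _ ⟨v, hv, rfl⟩
    exact (hkey v hv).2
  have hsm : ContMDiffOn 𝓘(ℝ, V) 𝓘(ℝ, V) ∞ inv (F '' ball 0 r) := by
    rintro _ ⟨v, hv, rfl⟩
    exact (hkey v hv).1.contMDiffWithinAt
  let e : OpenPartialHomeomorph M V :=
    { toFun := inv
      invFun := F
      source := F '' ball 0 r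
      target := ball 0 r
      map_source' := by
        rintro _ ⟨v, hv, rfl⟩
        rw [hleft hv]
        exact hv
      map_target' := fun v hv => mem_image_of_mem F hv
      left_inv' := by
        rintro _ ⟨v, hv, rfl⟩
        rw [hleft hv]
      right_inv' := fun v hv => hleft hv
      open_source := hopen
      open_target := isOpen_ball
      continuousOn_toFun := hsm.continuousOn
      continuousOn_invFun := hF.continuousOn }
  exact ⟨e, e.mem_maximalAtlas_of_contMDiffOn hsm hF, rfl, rfl⟩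

end man

section AK

variable {V : Type u} [NormedAddCommGroup V] [InnerProductSpace ℝ V]
  {M : Type v} [MetricSpace M] [ChartedSpace V M] (A : AlmostKahler V M)

theorem gC_eq {e : OpenPartialHomeomorph M V} {F : V → M} (h : ⇑e.symm = F) (x v w : V) :
    A.gC e x v w = A.om (F x) (mfderiv 𝓘(ℝ, V) 𝓘(ℝ, V) F x v)
      (A.J (F x) (mfderiv 𝓘(ℝ, V) 𝓘(ℝ, V) F x w)) := by
  subst h
  rfl

/-- the metric at a point, for vectors of the model space -/
theorem om_congr {y y' : M} (h : y = y') (a b : V) :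
    A.om y (a : TangentSpace 𝓘(ℝ, V) y) (A.J y (b : TangentSpace 𝓘(ℝ, V) y)) =
      A.om y' (a : TangentSpace 𝓘(ℝ, V) y') (A.J y' (b : TangentSpace 𝓘(ℝ, V) y')) := by
  subst h
  rfl

end AK

end PNCH

open PNCH in
theorem t_NCH (hTENG : S_TENG.{u, v}) (hGAU : S_GAU.{u, v}) : S_NCH.{u, v} := by
  intro V _ _ _ M _ _ _ A r hr hA p
  obtain ⟨e, he, hp, E, hE, hinj, himm⟩ := hA p
  obtain ⟨G, hG, hGe⟩ := hTENG V M A e he
  have hpt : e p ∈ e.target := e.map_source hp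
  obtain ⟨L, hL⟩ := exists_iso (G (e p)) (hG.symm _ hpt) (hG.pos _ hpt)
  have hg : ∀ v w, A.gC e (e p) v w = G (e p) v w := fun v w => (hGe _ hpt v w).symm
  have hgL : ∀ v w, A.gC e (e p) (L v) (L w) = ⟪v, w⟫ := fun v w => by rw [hg, hL]
  have hLr : ∀ v, v ∈ ball (0 : V) r ↔ A.gC e (e p) (L v) (L v) < r ^ 2 := by
    intro v
    rw [hgL, real_inner_self_eq_norm_sq, mem_ball_zero_iff]
    exact (sq_lt_sq₀ (norm_nonneg _) hr.le).symm
  have hopen : IsOpen {v : V | A.gC e (e p) v v < r ^ 2} := by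
    simp_rw [hg]
    have hc : Continuous fun v : V => G (e p) v v := by fun_prop
    exact isOpen_lt hc continuous_const
  have hEs : ∀ v, A.gC e (e p) v v < r ^ 2 → ContMDiffAt 𝓘(ℝ, V) 𝓘(ℝ, V) ∞ E v := fun v hv =>
    hE.smooth.contMDiffAt (hopen.mem_nhds hv)
  have hLs : ContMDiff 𝓘(ℝ, V) 𝓘(ℝ, V) ∞ L := L.contDiff.contMDiff
  have hEL : ∀ x ∈ ball (0 : V) r, ContMDiffAt 𝓘(ℝ, V) 𝓘(ℝ, V) ∞ (E ∘ L) x := fun x hx =>
    ContMDiffAt.comp x (hEs (L x) ((hLr x).1 hx)) hLs.contMDiffAt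
  have hm : ∀ x ∈ ball (0 : V) r, ∀ v : V, mfderiv 𝓘(ℝ, V) 𝓘(ℝ, V) (E ∘ L) x v =
      mfderiv 𝓘(ℝ, V) 𝓘(ℝ, V) E (L x) (L v) := by
    intro x hx v
    rw [mfderiv_comp x ((hEs (L x) ((hLr x).1 hx)).mdifferentiableAt (by norm_num))
      (hLs.contMDiffAt.mdifferentiableAt (by norm_num))]
    have h1 : mfderiv 𝓘(ℝ, V) 𝓘(ℝ, V) (L : V → V) x = (L : V →L[ℝ] V) := by
      rw [mfderiv_eq_fderiv]
      exact L.fderiv
    rw [h1]
    rfl
  obtain ⟨e₁, h1, h2, h3⟩ := build (F := E ∘ L) (r := r)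
    (fun x hx => (hEL x hx).contMDiffWithinAt)
    (fun x hx y hy hxy => L.injective (hinj ((hLr x).1 hx) ((hLr y).1 hy) hxy))
    (fun x hx a b hab => by
      rw [hm x hx, hm x hx] at hab
      exact L.injective (himm (L x) ((hLr x).1 hx) hab))
  have h00 : (0 : V) ∈ ball (0 : V) r := mem_ball_self hr
  refine ⟨e₁, h1, h2, ?_, ?_, ?_⟩
  · rw [h3]
    show E (L 0) = p
    rw [map_zero, hE.zero]
  · intro x hx w
    rw [gC_eq A h3, hm x hx, hm x hx, ← hgL x w]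
    exact hGAU V M A r p e E hr he hp hE (L x) ((hLr x).1 hx) (L w)
  · intro v w
    have h0 : A.gC e (e p) (0 : V) 0 < r ^ 2 := by
      have := (hLr 0).1 h00
      rwa [map_zero] at this
    have hE0 : ContMDiffAt 𝓘(ℝ, V) 𝓘(ℝ, V) ∞ E 0 := hEs 0 h0
    have hE0s : E 0 ∈ e.source := by rw [hE.zero]; exact hp
    have hes : ContMDiffAt 𝓘(ℝ, V) 𝓘(ℝ, V) ∞ e (E 0) := contMDiffAt_of_mem_maximalAtlas he hE0s
    have heE : ContDiffAt ℝ ∞ (e ∘ E) 0 := (hes.comp 0 hE0).contDiffAt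
    have hD : ∀ u : V, fderiv ℝ (e ∘ E) 0 u = u := by
      intro u
      have h4 : HasDerivAt (fun t : ℝ => t • u) u 0 := by
        simpa using (hasDerivAt_id (0 : ℝ)).smul_const u
      have h5 : HasFDerivAt (e ∘ E) (fderiv ℝ (e ∘ E) 0) ((0 : ℝ) • u) := by
        rw [zero_smul]
        exact (heE.differentiableAt (by norm_num)).hasFDerivAt
      have h6 : HasDerivAt (fun t : ℝ => e (E (t • u))) (fderiv ℝ (e ∘ E) 0 u) 0 :=
        HasFDerivAt.comp_hasDerivAt (l := e ∘ E) (f := fun t : ℝ => t • u) (0 : ℝ) h5 h4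
      rw [← h6.deriv]
      exact hE.veloc u
    have hmE : ∀ u : V, (mfderiv 𝓘(ℝ, V) 𝓘(ℝ, V) E 0 u : V) = frame e (e p) u := by
      intro u
      have h7 : E =ᶠ[𝓝 (0 : V)] (e.symm ∘ (e ∘ E)) := by
        have := hE0.continuousAt.eventually (e.open_source.mem_nhds hE0s)
        filter_upwards [this] with y hy
        exact (e.left_inv hy).symm
      have h8 : e (E 0) = e p := by rw [hE.zero]
      have h9 : MDifferentiableAt 𝓘(ℝ, V) 𝓘(ℝ, V) e.symm ((e ∘ E) 0) := by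
        apply ContMDiffAt.mdifferentiableAt (n := ∞) _ (by norm_num)
        apply contMDiffAt_symm_of_mem_maximalAtlas he
        show e (E 0) ∈ _
        rw [h8]
        exact hpt
      have h10 : MDifferentiableAt 𝓘(ℝ, V) 𝓘(ℝ, V) (e ∘ E) 0 :=
        (hes.comp 0 hE0).mdifferentiableAt (by norm_num)
      have h11 : (mfderiv 𝓘(ℝ, V) 𝓘(ℝ, V) E 0 : V →L[ℝ] V) =
          (mfderiv 𝓘(ℝ, V) 𝓘(ℝ, V) (e.symm ∘ (e ∘ E)) 0 : V →L[ℝ] V) := h7.mfderiv_eq
      have h12 : (mfderiv 𝓘(ℝ, V) 𝓘(ℝ, V) (e.symm ∘ (e ∘ E)) 0 : V →L[ℝ] V) =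
          (mfderiv 𝓘(ℝ, V) 𝓘(ℝ, V) e.symm ((e ∘ E) 0) : V →L[ℝ] V).comp
            (mfderiv 𝓘(ℝ, V) 𝓘(ℝ, V) (e ∘ E) 0 : V →L[ℝ] V) := mfderiv_comp 0 h9 h10
      have h13 : (mfderiv 𝓘(ℝ, V) 𝓘(ℝ, V) (e ∘ E) 0 : V →L[ℝ] V) = fderiv ℝ (e ∘ E) 0 :=
        mfderiv_eq_fderiv
      have h14 : (mfderiv 𝓘(ℝ, V) 𝓘(ℝ, V) E 0 : V →L[ℝ] V) u =
          (mfderiv 𝓘(ℝ, V) 𝓘(ℝ, V) e.symm ((e ∘ E) 0) : V →L[ℝ] V) u := by
        rw [h11, h12]
        show (mfderiv 𝓘(ℝ, V) 𝓘(ℝ, V) e.symm ((e ∘ E) 0) : V →L[ℝ] V)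
          ((mfderiv 𝓘(ℝ, V) 𝓘(ℝ, V) (e ∘ E) 0 : V →L[ℝ] V) u) = _
        exact congrArg (mfderiv 𝓘(ℝ, V) 𝓘(ℝ, V) e.symm ((e ∘ E) 0) : V →L[ℝ] V)
          ((congrArg (fun T : V →L[ℝ] V => T u) h13).trans (hD u))
      have h15 : (e ∘ E) 0 = e p := h8
      rw [h15] at h14
      exact h14
    rw [gC_eq A h3, hm 0 h00, hm 0 h00, ← hgL v w]
    show A.om (E (L 0)) (mfderiv 𝓘(ℝ, V) 𝓘(ℝ, V) E (L 0) (L v))
      (A.J (E (L 0)) (mfderiv 𝓘(ℝ, V) 𝓘(ℝ, V) E (L 0) (L w))) = _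
    rw [map_zero]
    have h16 : E 0 = e.symm (e p) := by rw [hE.zero, e.left_inv hp]
    have h17 := om_congr A h16 (mfderiv 𝓘(ℝ, V) 𝓘(ℝ, V) E 0 (L v) : V)
      (mfderiv 𝓘(ℝ, V) 𝓘(ℝ, V) E 0 (L w) : V)
    refine h17.trans ?_
    rw [hmE, hmE]
    rfl

end Pool.Agent.H823.BG
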