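import Mathlib
import Pool.Agent.H823.BG.StmW

/-!
# Project BG, NEAR: the Gram form is close to the scalar product near `0`
-/

open scoped Topology ContDiff RealInnerProductSpace
open Set Metric

noncomputable section

universe u v w

namespace Pool.Agent.H823.BG

namespace PNEAR

variable {V : Type u} [NormedAddCommGroup V] [InnerProductSpace ℝ V] [FiniteDimensional ℝ V]
  {s C : ℝ} {G : V → V →L[ℝ] V →L[ℝ] ℝ} {Γ : V → V →L[ℝ] V →L[ℝ] V}
  {f : Fin (Module.finrank ℝ V) → V → ℝ} {N : Fin (Module.finrank ℝ V) → V → V}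

omit [FiniteDimensional ℝ V] in
theorem mem_ball_smul {x : V} (hx : x ∈ ball (0 : V) s) {t : ℝ} (h0 : 0 ≤ t) (h1 : t ≤ 1) :
    t • x ∈ ball (0 : V) s := by
  rw [mem_ball_zero_iff] at hx ⊢
  rw [norm_smul, Real.norm_of_nonneg h0]
  have := norm_nonneg x
  nlinarith

theorem radial (D : DistData s C G Γ f N) {x : V} (hx : x ∈ ball (0 : V) s) {t : ℝ} (h0 : 0 ≤ t)
    (h1 : t ≤ 1) : G (t • x) x x = ‖x‖ ^ 2 := by
  rcases h0.eq_or_lt with h | h
  · rw [← h, zero_smul, D.inner_zero, real_inner_self_eq_norm_sq]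
  · have h2 := D.gauss (t • x) (mem_ball_smul hx h0 h1) x
    rw [map_smul, smul_apply, real_inner_smul_left, real_inner_self_eq_norm_sq,
      smul_eq_mul] at h2
    exact mul_left_cancel₀ h.ne' h2

theorem gam_zero (D : DistData s C G Γ f N) (a a' : V) : gam G N 0 a a' = ⟪a, a'⟫ := by
  unfold gam
  rw [D.inner_zero]
  simp only [D.N_zero]
  rw [OrthonormalBasis.sum_repr', OrthonormalBasis.sum_repr']

end PNEAR

open PNEAR

theorem t_NEAR (hGRAM : S_GRAM.{u}) : S_NEAR.{u} := by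
  intro V _ _ _ s C G Γ f N hs hC D x hx a a'
  have hd : ∀ t ∈ Icc (0 : ℝ) 1, HasDerivWithinAt (fun t : ℝ => gam G N (t • x) a a')
      (fderiv ℝ (fun y => gam G N y a a') (t • x) x) (Icc 0 1) t := by
    intro t ht
    have h1 := (hGRAM V s C G Γ f N hs hC D (t • x) (mem_ball_smul hx ht.1 ht.2) a a').1
    have h2 : HasDerivAt (fun t : ℝ => t • x) x t := by
      have := (hasDerivAt_id t).smul_const x
      simpa using this
    exact (h1.hasFDerivAt.comp_hasDerivAt t h2).hasDerivWithinAt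
  have hb : ∀ t ∈ Ico (0 : ℝ) 1, ‖fderiv ℝ (fun y => gam G N y a a') (t • x) x‖ ≤
      2 * Module.finrank ℝ V * C * ‖x‖ * ‖a‖ * ‖a'‖ := by
    intro t ht
    have h1 := (hGRAM V s C G Γ f N hs hC D (t • x) (mem_ball_smul hx ht.1 ht.2.le) a a').2 x
    rw [radial D hx ht.1 ht.2.le, Real.sqrt_sq (norm_nonneg x)] at h1
    exact h1
  have h3 := norm_image_sub_le_of_norm_deriv_le_segment_01' hd hb
  simp only [one_smul, zero_smul] at h3
  rw [gam_zero D, Real.norm_eq_abs] at h3
  exact h3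

end Pool.Agent.H823.BG
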