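import Mathlib
import Pool.Agent.H823.BG.StmN

/-!
# OUT: from a smooth section in a chart to a good chart
-/

open scoped Topology ContDiff Manifold RealInnerProductSpace
open Set Metric Filter MeasureTheory
open Pool.Agent.H823.HC

noncomputable section

namespace Pool.Agent.H823.BG.POUT

universe u v

section

variable {V : Type u} [NormedAddCommGroup V] [InnerProductSpace ℝ V]

lemma surj [FiniteDimensional ℝ V] {s R : ℝ} {F σ : V → V} (hF : ContDiffOn ℝ ∞ F (ball 0 s))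
    (hσ : ContDiffOn ℝ ∞ σ (ball 0 R))
    (h : ∀ y ∈ ball (0:V) R, σ y ∈ ball (0:V) s ∧ F (σ y) = y) {y : V} (hy : y ∈ ball (0:V) R) :
    Function.Surjective (fderiv ℝ σ y) := by
  have hσ' : DifferentiableAt ℝ σ y :=
    (hσ.contDiffAt (isOpen_ball.mem_nhds hy)).differentiableAt (by simp)
  have hF' : DifferentiableAt ℝ F (σ y) :=
    (hF.contDiffAt (isOpen_ball.mem_nhds (h y hy).1)).differentiableAt (by simp)
  have h1 : HasFDerivAt (F ∘ σ) ((fderiv ℝ F (σ y)).comp (fderiv ℝ σ y)) y :=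
    hF'.hasFDerivAt.comp y hσ'.hasFDerivAt
  have h2 : HasFDerivAt (F ∘ σ) (ContinuousLinearMap.id ℝ V) y := by
    refine (hasFDerivAt_id y).congr_of_eventuallyEq ?_
    filter_upwards [isOpen_ball.mem_nhds hy] with z hz
    exact (h z hz).2
  have h3 := h1.unique h2
  have h4 : Function.Injective (fderiv ℝ σ y) := by
    intro a b hab
    have h5 := DFunLike.congr_fun h3 a
    have h6 := DFunLike.congr_fun h3 b
    change fderiv ℝ F (σ y) (fderiv ℝ σ y a) = a at h5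
    change fderiv ℝ F (σ y) (fderiv ℝ σ y b) = b at h6
    rw [← h5, ← h6, hab]
  exact (LinearMap.injective_iff_surjective (f := (fderiv ℝ σ y : V →ₗ[ℝ] V))).1 h4

lemma isOpen_img [FiniteDimensional ℝ V] {s R : ℝ} {F σ : V → V} (hF : ContDiffOn ℝ ∞ F (ball 0 s))
    (hσ : ContDiffOn ℝ ∞ σ (ball 0 R))
    (h : ∀ y ∈ ball (0:V) R, σ y ∈ ball (0:V) s ∧ F (σ y) = y) :
    IsOpen (σ '' ball (0:V) R) := by
  rw [isOpen_iff_mem_nhds]
  rintro _ ⟨y, hy, rfl⟩
  have h1 : HasStrictFDerivAt σ (fderiv ℝ σ y) y :=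
    (hσ.contDiffAt (isOpen_ball.mem_nhds hy)).hasStrictFDerivAt (by simp)
  have h2 := h1.map_nhds_eq_of_surj (LinearMap.range_eq_top.2 (surj hF hσ h hy))
  rw [← h2]
  exact image_mem_map (isOpen_ball.mem_nhds hy)

/-- The diffeomorphism `F` from the image of the section. -/
def diffeo [FiniteDimensional ℝ V] {s R : ℝ} {F σ : V → V} (hF : ContDiffOn ℝ ∞ F (ball 0 s))
    (hσ : ContDiffOn ℝ ∞ σ (ball 0 R))
    (h : ∀ y ∈ ball (0:V) R, σ y ∈ ball (0:V) s ∧ F (σ y) = y) : OpenPartialHomeomorph V V where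
  toFun := F
  invFun := σ
  source := σ '' ball 0 R
  target := ball 0 R
  map_source' := by
    rintro _ ⟨y, hy, rfl⟩
    rw [(h y hy).2]
    exact hy
  map_target' := fun y hy => ⟨y, hy, rfl⟩
  left_inv' := by
    rintro _ ⟨y, hy, rfl⟩
    rw [(h y hy).2]
  right_inv' := fun y hy => (h y hy).2
  open_source := isOpen_img hF hσ h
  open_target := isOpen_ball
  continuousOn_toFun := hF.continuousOn.mono (by
    rintro _ ⟨y, hy, rfl⟩
    exact (h y hy).1)
  continuousOn_invFun := hσ.continuousOn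

lemma diffeo_mem [FiniteDimensional ℝ V] {s R : ℝ} {F σ : V → V}
    (hF : ContDiffOn ℝ ∞ F (ball 0 s)) (hσ : ContDiffOn ℝ ∞ σ (ball 0 R))
    (h : ∀ y ∈ ball (0:V) R, σ y ∈ ball (0:V) s ∧ F (σ y) = y) :
    diffeo hF hσ h ∈ contDiffGroupoid ∞ 𝓘(ℝ, V) := by
  rw [contDiffGroupoid, mem_groupoid_of_pregroupoid]
  constructor
  · change ContDiffOn ℝ ∞ F _
    refine hF.mono ?_
    rintro x ⟨hx, -⟩
    obtain ⟨y, hy, rfl⟩ := hx
    exact (h y hy).1
  · change ContDiffOn ℝ ∞ σ _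
    refine hσ.mono ?_
    rintro x ⟨hx, -⟩
    exact hx

lemma trans_mem {M : Type v} [TopologicalSpace M] [ChartedSpace V M]
    {e : OpenPartialHomeomorph M V} (he : e ∈ Charts V M) {ψ : OpenPartialHomeomorph V V}
    (hψ : ψ ∈ contDiffGroupoid ∞ 𝓘(ℝ, V)) : e.trans ψ ∈ Charts V M := by
  intro e' he'
  obtain ⟨h1, h2⟩ := he e' he'
  constructor
  · rw [OpenPartialHomeomorph.trans_symm_eq_symm_trans_symm, OpenPartialHomeomorph.trans_assoc]
    exact (contDiffGroupoid ∞ 𝓘(ℝ, V)).trans ((contDiffGroupoid ∞ 𝓘(ℝ, V)).symm hψ) h1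
  · rw [← OpenPartialHomeomorph.trans_assoc]
    exact (contDiffGroupoid ∞ 𝓘(ℝ, V)).trans h2 hψ

end

end Pool.Agent.H823.BG.POUT

namespace Pool.Agent.H823.BG

universe u v

open POUT in
theorem t_OUT : S_OUT.{u, v} := by
  intro V _ _ _ M _ _ _ A s R K p e G F σ hs hR he hsub hp hG hF hσ hσ0 h hlow hup hder
  have hmem := trans_mem he (diffeo_mem hF hσ h)
  have h0R : (0 : V) ∈ ball (0:V) R := mem_ball_self hR
  have h0s : (0 : V) ∈ ball (0:V) s := mem_ball_self hs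
  have hsymm : ∀ y, (e.trans (diffeo hF hσ h)).symm y = e.symm (σ y) := fun y => rfl
  have hfr : ∀ y ∈ ball (0:V) R, ∀ v, frame (e.trans (diffeo hF hσ h)) y v =
      frame e (σ y) (fderiv ℝ σ y v) := by
    intro y hy v
    have h1 : MDifferentiableAt 𝓘(ℝ, V) 𝓘(ℝ, V) e.symm (σ y) :=
      (contMDiffAt_symm_of_mem_maximalAtlas he (hsub (h y hy).1)).mdifferentiableAt (by simp)
    have h2 : DifferentiableAt ℝ σ y :=
      (hσ.contDiffAt (isOpen_ball.mem_nhds hy)).differentiableAt (by simp)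
    have h3 := mfderiv_comp y h1 h2.mdifferentiableAt
    have h4 := DFunLike.congr_fun h3 v
    rw [mfderiv_eq_fderiv] at h4
    exact h4
  have hg : ∀ y ∈ ball (0:V) R, ∀ v w, A.gC (e.trans (diffeo hF hσ h)) y v w =
      G (σ y) (fderiv ℝ σ y v) (fderiv ℝ σ y w) := by
    intro y hy v w
    rw [hG (σ y) (h y hy).1]
    unfold AlmostKahler.gC
    have h1 := hfr y hy v
    have h2 := hfr y hy w
    rw [h1, h2]
    rfl
  refine ⟨e.trans (diffeo hF hσ h), ⟨hmem, ?_, ?_, ?_, ?_, ?_, ?_⟩⟩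
  · rw [OpenPartialHomeomorph.trans_source]
    refine ⟨?_, ?_⟩
    · rw [← hp]
      exact e.map_target (hsub h0s)
    · change e p ∈ σ '' ball 0 R
      rw [← hp, e.right_inv (hsub h0s)]
      exact ⟨0, h0R, hσ0⟩
  · change F (e p) = 0
    rw [← hp, e.right_inv (hsub h0s)]
    have h1 := (h 0 h0R).2
    rwa [hσ0] at h1
  · intro y hy
    rw [OpenPartialHomeomorph.trans_target]
    exact ⟨hy, hsub (h y hy).1⟩
  · intro y hy v
    rw [hg y hy]
    exact hlow y hy v
  · intro y hy v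
    rw [hg y hy]
    exact hup y hy v
  · intro y hy u v w
    have h1 : (fun z => A.gC (e.trans (diffeo hF hσ h)) z v w) =ᶠ[𝓝 y]
        fun z => G (σ z) (fderiv ℝ σ z v) (fderiv ℝ σ z w) := by
      filter_upwards [isOpen_ball.mem_nhds hy] with z hz
      exact hg z hz v w
    rw [h1.fderiv_eq]
    exact hder y hy u v w

end Pool.Agent.H823.BG
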