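import Mathlib
import Pool.Agent.H823.BG.StmW

/-!
# RIC: the Riccati inequality for the Hessian of a function with a unit gradient
-/

open scoped Topology ContDiff RealInnerProductSpace
open Set Metric

noncomputable section

namespace Pool.Agent.H823.BG

universe u v w

namespace PRIC

variable {V : Type u} [NormedAddCommGroup V] [InnerProductSpace ℝ V]
  {E : Type v} [NormedAddCommGroup E] [NormedSpace ℝ E]

theorem hd1 {O : Set V} (hO : IsOpen O) {F : V → E} (hF : ContDiffOn ℝ ∞ F O) {x : V}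
    (hx : x ∈ O) : HasFDerivAt F (fderiv ℝ F x) x :=
  ((hF.contDiffAt (hO.mem_nhds hx)).differentiableAt (by simp)).hasFDerivAt

theorem hd2 {O : Set V} (hO : IsOpen O) {F : V → E} (hF : ContDiffOn ℝ ∞ F O) {x : V}
    (hx : x ∈ O) : HasFDerivAt (fderiv ℝ F) (fderiv ℝ (fderiv ℝ F) x) x :=
  (((hF.contDiffAt (hO.mem_nhds hx)).fderiv_right (m := ∞) (by simp)).differentiableAt
    (by simp)).hasFDerivAt

theorem symm2 {O : Set V} (hO : IsOpen O) {F : V → E} (hF : ContDiffOn ℝ ∞ F O) {x : V}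
    (hx : x ∈ O) (v w : V) : fderiv ℝ (fderiv ℝ F) x v w = fderiv ℝ (fderiv ℝ F) x w v :=
  ((hF.contDiffAt (hO.mem_nhds hx)).isSymmSndFDerivAt
    (by simpa using (WithTop.coe_le_coe.2 le_top : ((2 : ℕ∞) : WithTop ℕ∞) ≤ ((⊤ : ℕ∞) : WithTop ℕ∞)))).eq v w

theorem hd_bil {G : V → V →L[ℝ] V →L[ℝ] E} {G' : V →L[ℝ] V →L[ℝ] V →L[ℝ] E} {x : V}
    (hG : HasFDerivAt G G' x) {a b : V → V} {a' b' : V →L[ℝ] V} (ha : HasFDerivAt a a' x)
    (hb : HasFDerivAt b b' x) : ∃ L : V →L[ℝ] E, HasFDerivAt (fun y => G y (a y) (b y)) L x ∧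
      ∀ u, L u = G' u (a x) (b x) + G x (a' u) (b x) + G x (a x) (b' u) :=
  ⟨_, (hG.clm_apply ha).clm_apply hb, fun u => by simp; abel⟩

theorem hd_curve {G : V → V →L[ℝ] V →L[ℝ] E} {G' : V →L[ℝ] V →L[ℝ] V →L[ℝ] E} {c : ℝ → V}
    {c' : V} {t : ℝ} (hG : HasFDerivAt G G' (c t)) (hc : HasDerivAt c c' t) {a b : ℝ → V}
    {a' b' : V} (ha : HasDerivAt a a' t) (hb : HasDerivAt b b' t) :
    HasDerivAt (fun t => G (c t) (a t) (b t))
      (G' c' (a t) (b t) + G (c t) a' (b t) + G (c t) (a t) b') t := by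
  have h1 := HasFDerivAt.comp_hasDerivAt (E := V →L[ℝ] V →L[ℝ] E) (F := V) (l := G) (l' := G')
    t hG hc
  have h2 : HasDerivAt (fun t => G (c t) (a t)) (G' c' (a t) + G (c t) a') t := h1.clm_apply ha
  exact (h2.clm_apply hb).congr_deriv (by simp)

/-- two derivatives of the same function -/
theorem uniq {O : Set V} (hO : IsOpen O) {F H : V → E} {F' H' : V →L[ℝ] E} {x : V}
    (hx : x ∈ O) (h : ∀ y ∈ O, F y = H y) (hF : HasFDerivAt F F' x) (hH : HasFDerivAt H H' x) :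
    F' = H' := by
  have h1 : F =ᶠ[𝓝 x] H := by
    filter_upwards [hO.mem_nhds hx] with y hy using h y hy
  exact (hF.congr_of_eventuallyEq h1.symm).unique hH

/-- the derivative of the metric is symmetric -/
theorem dG_symm {O : Set V} {G : V → V →L[ℝ] V →L[ℝ] ℝ} (hM : IsMet O G) {x : V} (hx : x ∈ O)
    (u v w : V) : fderiv ℝ G x u v w = fderiv ℝ G x u w v := by
  have hG := hd1 hM.isOpen hM.smooth hx
  obtain ⟨L1, h1, e1⟩ := hd_bil hG (hasFDerivAt_const v x) (hasFDerivAt_const w x)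
  obtain ⟨L2, h2, e2⟩ := hd_bil hG (hasFDerivAt_const w x) (hasFDerivAt_const v x)
  have h := uniq hM.isOpen hx (fun y hy => hM.symm y hy v w) h1 h2
  have e3 := e1 u
  rw [h, e2 u] at e3
  simpa using e3.symm

/-- the metric is parallel -/
theorem compat {O : Set V} {G : V → V →L[ℝ] V →L[ℝ] ℝ} {Γ : V → V →L[ℝ] V →L[ℝ] V}
    (hM : IsMet O G) (hL : IsLC O G Γ) {x : V} (hx : x ∈ O) (u v w : V) :
    fderiv ℝ G x u v w = G x (Γ x u v) w + G x v (Γ x u w) := by
  have e1 := hL.koszul x hx u v w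
  have e2 := hL.koszul x hx u w v
  rw [hM.symm x hx v (Γ x u w)]
  have e3 := dG_symm hM hx u v w
  have e4 := dG_symm hM hx v u w
  have e5 := dG_symm hM hx w u v
  linarith

/-- Cauchy-Schwarz -/
theorem cs {O : Set V} {G : V → V →L[ℝ] V →L[ℝ] ℝ} (hM : IsMet O G) {x : V} (hx : x ∈ O)
    (a c : V) : G x a c ^ 2 ≤ G x a a * G x c c := by
  have nn : ∀ v, 0 ≤ G x v v := by
    intro v
    by_cases h : v = 0
    · rw [h, map_zero]
    · exact (hM.pos x hx v h).le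
  have h : ∀ t : ℝ, 0 ≤ G x c c * (t * t) + (2 * G x a c) * t + G x a a := by
    intro t
    have h1 := nn (a + t • c)
    have h2 : G x (a + t • c) (a + t • c) = G x c c * (t * t) + (2 * G x a c) * t + G x a a := by
      simp only [map_add, map_smul, add_apply, smul_apply, smul_eq_mul]
      rw [hM.symm x hx c a]
      ring
    rw [h2] at h1
    exact h1
  have h3 := discrim_le_zero h
  unfold discrim at h3
  nlinarith

/-- nondegeneracy -/
theorem nondeg {O : Set V} {G : V → V →L[ℝ] V →L[ℝ] ℝ} (hM : IsMet O G) {x : V} (hx : x ∈ O)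
    {a : V} (h : ∀ w, G x a w = 0) : a = 0 := by
  by_contra hne
  exact (hM.pos x hx _ hne).ne' (h a)

/-- the Weingarten operator -/
def UU (Γ : V → V →L[ℝ] V →L[ℝ] V) (N : V → V) (x v : V) : V := fderiv ℝ N x v + Γ x v (N x)

section

variable {O : Set V} {G : V → V →L[ℝ] V →L[ℝ] ℝ} {Γ : V → V →L[ℝ] V →L[ℝ] V} {f : V → ℝ}
  {N : V → V}

/-- the Hessian by means of the Weingarten operator -/
theorem hess_eq (hM : IsMet O G) (hL : IsLC O G Γ) (hf : ContDiffOn ℝ ∞ f O)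
    (hN : ContDiffOn ℝ ∞ N O) (hg : ∀ x ∈ O, ∀ w, fderiv ℝ f x w = G x (N x) w) {x : V}
    (hx : x ∈ O) (v w : V) : hess Γ f x v w = G x (UU Γ N x v) w := by
  obtain ⟨L, h1, e1⟩ := hd_bil (hd1 hM.isOpen hM.smooth hx) (hd1 hM.isOpen hN hx)
    (hasFDerivAt_const w x)
  have h2 : HasFDerivAt (fun y => fderiv ℝ f y w) ((fderiv ℝ (fderiv ℝ f) x).flip w) x := by
    have := (hd2 hM.isOpen hf hx).clm_apply (hasFDerivAt_const w x)
    refine this.congr_fderiv ?_
    ext u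
    simp
  have h := uniq hM.isOpen hx (fun y hy => hg y hy w) h2 h1
  have e2 := e1 v
  rw [← h] at e2
  rw [ContinuousLinearMap.flip_apply] at e2
  unfold hess
  rw [e2, compat hM hL hx, hg x hx]
  unfold UU
  simp only [zero_apply, map_zero, add_zero, map_add, add_apply]
  ring

theorem hess_symm (hM : IsMet O G) (hL : IsLC O G Γ) (hf : ContDiffOn ℝ ∞ f O)
    {x : V} (hx : x ∈ O) (v w : V) : hess Γ f x v w = hess Γ f x w v := by
  unfold hess
  rw [symm2 hM.isOpen hf hx v w, hL.symm x hx v w]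

theorem U_symm (hM : IsMet O G) (hL : IsLC O G Γ) (hf : ContDiffOn ℝ ∞ f O)
    (hN : ContDiffOn ℝ ∞ N O) (hg : ∀ x ∈ O, ∀ w, fderiv ℝ f x w = G x (N x) w) {x : V}
    (hx : x ∈ O) (v w : V) : G x (UU Γ N x v) w = G x (UU Γ N x w) v := by
  rw [← hess_eq hM hL hf hN hg hx, ← hess_eq hM hL hf hN hg hx, hess_symm hM hL hf hx]

theorem U_N (hM : IsMet O G) (hL : IsLC O G Γ) (hf : ContDiffOn ℝ ∞ f O)
    (hN : ContDiffOn ℝ ∞ N O) (hg : ∀ x ∈ O, ∀ w, fderiv ℝ f x w = G x (N x) w)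
    (hu : ∀ x ∈ O, G x (N x) (N x) = 1) {x : V} (hx : x ∈ O) : UU Γ N x (N x) = 0 := by
  refine nondeg hM hx fun w => ?_
  rw [U_symm hM hL hf hN hg hx]
  obtain ⟨L, h1, e1⟩ := hd_bil (hd1 hM.isOpen hM.smooth hx) (hd1 hM.isOpen hN hx)
    (hd1 hM.isOpen hN hx)
  have h := uniq hM.isOpen hx (fun y hy => hu y hy) h1 (hasFDerivAt_const (1:ℝ) x)
  have e2 := e1 w
  rw [h, compat hM hL hx] at e2
  unfold UU
  simp only [zero_apply, map_add, add_apply] at e2 ⊢
  have s1 := hM.symm x hx (N x) (Γ x w (N x))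
  have s2 := hM.symm x hx (N x) (fderiv ℝ N x w)
  linarith

/-- the derivative of `U N = 0` -/
theorem dUN (hM : IsMet O G) (hL : IsLC O G Γ) (hf : ContDiffOn ℝ ∞ f O)
    (hN : ContDiffOn ℝ ∞ N O) (hg : ∀ x ∈ O, ∀ w, fderiv ℝ f x w = G x (N x) w)
    (hu : ∀ x ∈ O, G x (N x) (N x) = 1) {x : V} (hx : x ∈ O) (w : V) :
    fderiv ℝ (fderiv ℝ N) x w (N x) + fderiv ℝ N x (fderiv ℝ N x w) +
      fderiv ℝ Γ x w (N x) (N x) + Γ x (fderiv ℝ N x w) (N x) + Γ x (N x) (fderiv ℝ N x w) = 0 := by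
  obtain ⟨L, h1, e1⟩ := hd_bil (hd1 hM.isOpen hL.smooth hx) (hd1 hM.isOpen hN hx)
    (hd1 hM.isOpen hN hx)
  have h2 := (hd2 hM.isOpen hN hx).clm_apply (hd1 hM.isOpen hN hx)
  have h3 := h2.add h1
  have h := uniq hM.isOpen hx (fun y hy => U_N hM hL hf hN hg hu hy) h3
    (hasFDerivAt_const (0:V) x)
  have e2 := congrArg (fun M => M w) h
  simp only [add_apply, e1 w, zero_apply] at e2
  simp at e2
  rw [← e2]
  abel

/-- the Riccati equation -/
theorem ric (hM : IsMet O G) (hL : IsLC O G Γ) (hf : ContDiffOn ℝ ∞ f O)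
    (hN : ContDiffOn ℝ ∞ N O) (hg : ∀ x ∈ O, ∀ w, fderiv ℝ f x w = G x (N x) w)
    (hu : ∀ x ∈ O, G x (N x) (N x) = 1) {x : V} (hx : x ∈ O) (w : V) {c W : ℝ → V} {t : ℝ}
    (hc0 : c t = x) (hc : HasDerivAt c (N x) t) (hW0 : W t = w)
    (hW : HasDerivAt W (-(Γ x (N x) w)) t) :
    HasDerivAt (fun t => hess Γ f (c t) (W t) (W t))
      (G x (riemV Γ x (N x) w (N x)) w - G x (UU Γ N x w) (UU Γ N x w)) t := by
  subst hc0
  subst hW0
  have hev : (fun t => hess Γ f (c t) (W t) (W t)) =ᶠ[𝓝 t]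
      fun t => G (c t) (UU Γ N (c t) (W t)) (W t) := by
    filter_upwards [hc.continuousAt.eventually (hM.isOpen.mem_nhds hx)] with s hs
    exact hess_eq hM hL hf hN hg hs _ _
  have hNc : HasDerivAt (fun s => N (c s)) (fderiv ℝ N (c t) (N (c t))) t :=
    (hd1 hM.isOpen hN hx).comp_hasDerivAt t hc
  have hU1 : HasDerivAt (fun s => fderiv ℝ N (c s) (W s))
      (fderiv ℝ (fderiv ℝ N) (c t) (N (c t)) (W t) +
        fderiv ℝ N (c t) (-(Γ (c t) (N (c t)) (W t)))) t :=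
    ((hd2 hM.isOpen hN hx).comp_hasDerivAt t hc).clm_apply hW
  have hU2 := hd_curve (hd1 hM.isOpen hL.smooth hx) hc hW hNc
  have hU : HasDerivAt (fun s => UU Γ N (c s) (W s)) _ t := hU1.add hU2
  have h := hd_curve (hd1 hM.isOpen hM.smooth hx) hc hU hW
  refine (h.congr_of_eventuallyEq hev).congr_deriv ?_
  rw [compat hM hL hx]
  have e1 := dUN hM hL hf hN hg hu hx (W t)
  rw [symm2 hM.isOpen hN hx] at e1
  have e2 : fderiv ℝ N (c t) (N (c t)) = -(Γ (c t) (N (c t)) (N (c t))) := by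
    have := U_N hM hL hf hN hg hu hx
    unfold UU at this
    exact eq_neg_of_add_eq_zero_left this
  have e3 : G (c t) (UU Γ N (c t) (W t)) (UU Γ N (c t) (W t)) =
      G (c t) (UU Γ N (c t) (UU Γ N (c t) (W t))) (W t) :=
    U_symm hM hL hf hN hg hx _ _
  rw [e3, ← sub_apply, ← map_sub]
  have key : Γ (c t) (N (c t)) (UU Γ N (c t) (W t)) +
      (fderiv ℝ (fderiv ℝ N) (c t) (N (c t)) (W t) +
        fderiv ℝ N (c t) (-(Γ (c t) (N (c t)) (W t))) +
      (fderiv ℝ Γ (c t) (N (c t)) (W t) (N (c t)) +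
        Γ (c t) (-(Γ (c t) (N (c t)) (W t))) (N (c t)) +
        Γ (c t) (W t) (fderiv ℝ N (c t) (N (c t))))) =
      riemV Γ (c t) (N (c t)) (W t) (N (c t)) - UU Γ N (c t) (UU Γ N (c t) (W t)) := by
    have e4 : fderiv ℝ (fderiv ℝ N) (c t) (N (c t)) (W t) =
        -(fderiv ℝ N (c t) (fderiv ℝ N (c t) (W t)) +
      fderiv ℝ Γ (c t) (W t) (N (c t)) (N (c t)) + Γ (c t) (fderiv ℝ N (c t) (W t)) (N (c t)) +
        Γ (c t) (N (c t)) (fderiv ℝ N (c t) (W t))) := by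
      rw [eq_neg_iff_add_eq_zero, ← e1]
      abel
    rw [e4, e2]
    unfold UU riemV
    simp only [map_add, map_neg, add_apply, neg_apply]
    rw [hL.symm (c t) hx (W t) (N (c t))]
    abel
  rw [← key]
  simp only [map_add, add_apply, map_neg]
  ring

end

end PRIC

open PRIC in
theorem t_RIC : S_RIC.{u} := by
  intro V _ _ _ O G Γ f N K hK hM hL hf hN hg hu hcur x hx w c W t hc0 hc hW0 hW
  constructor
  · have h := hd_curve (G := G) (t := t) (c := c) (by rw [hc0]; exact hd1 hM.isOpen hM.smooth hx)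
      hc hW hW
    refine h.congr_deriv ?_
    rw [hc0, hW0, compat hM hL hx, map_neg, map_neg, neg_apply]
    ring
  · refine ⟨_, ric hM hL hf hN hg hu hx w hc0 hc hW0 hW, ?_⟩
    rw [hess_eq hM hL hf hN hg hx]
    have h1 := hcur x hx w (N x)
    rw [hu x hx] at h1
    have h2 : riemV Γ x (N x) w (N x) = -riemV Γ x w (N x) (N x) := by
      unfold riemV
      abel
    have h3 : G x (riemV Γ x (N x) w (N x)) w ≤ K * G x w w := by
      rw [h2, map_neg, neg_apply]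
      have := sq_nonneg (G x w (N x))
      nlinarith
    have h4 := cs hM hx (UU Γ N x w) w
    have h5 : 0 ≤ G x w w := by
      by_cases h : w = 0
      · rw [h, map_zero]
      · exact (hM.pos x hx w h).le
    nlinarith [mul_le_mul_of_nonneg_left h3 h5]

end Pool.Agent.H823.BG
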