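import Mathlib
import Pool.Agent.H823.BG.StmN

/-!
# Project BG: the sectional curvature bound in terms of the connection `Γ` of `IsLC` (`S_SECV`)
-/

open scoped Topology ContDiff Manifold
open Set Metric

noncomputable section

namespace Pool.Agent.H823.BG

universe u v w

namespace PSECV

section

variable {V : Type u} [NormedAddCommGroup V] [NormedSpace ℝ V]
  {W : Type w} [NormedAddCommGroup W] [NormedSpace ℝ W]

/-- The derivative of `y ↦ G y v w`. -/
lemma fderiv_eval (G : V → V →L[ℝ] V →L[ℝ] W) {x : V} (hG : DifferentiableAt ℝ G x) (v w : V) :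
    DifferentiableAt ℝ (fun y => G y v w) x ∧
      ∀ u, fderiv ℝ (fun y => G y v w) x u = fderiv ℝ G x u v w := by
  have h1 : HasFDerivAt G (fderiv ℝ G x) x := hG.hasFDerivAt
  have h2 := (h1.clm_apply (hasFDerivAt_const v x)).clm_apply (hasFDerivAt_const w x)
  refine ⟨h2.differentiableAt, fun u => ?_⟩
  rw [h2.fderiv]
  simp

end

end PSECV

theorem t_SECV : S_SECV.{u, v} := by
  intro V _ _ _ M _ _ _ A K hSec e he G Γ hMet hG hLC x hx v w
  have hO : IsOpen e.target := hMet.isOpen
  have hGd : ∀ y ∈ e.target, DifferentiableAt ℝ G y := fun y hy =>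
    (hMet.smooth.contDiffAt (hO.mem_nhds hy)).differentiableAt (by simp)
  have hΓd : ∀ y ∈ e.target, DifferentiableAt ℝ Γ y := fun y hy =>
    (hLC.smooth.contDiffAt (hO.mem_nhds hy)).differentiableAt (by simp)
  have hfd : ∀ y ∈ e.target, ∀ a b u : V,
      fderiv ℝ (fun z => A.gC e z a b) y u = fderiv ℝ G y u a b := by
    intro y hy a b u
    have h1 : (fun z => A.gC e z a b) =ᶠ[𝓝 y] (fun z => G z a b) := by
      filter_upwards [hO.mem_nhds hy] with z hz
      exact (hG z hz a b).symm
    rw [h1.fderiv_eq]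
    exact (PSECV.fderiv_eval G (hGd y hy) a b).2 u
  have hChr : A.IsChristoffel e (fun x v w => Γ x v w) := by
    intro y hy a b c
    rw [hfd y hy, hfd y hy, hfd y hy, ← hG y hy]
    exact hLC.koszul y hy a b c
  have hR : Pool.Agent.H823.HC.riem (fun x v w => Γ x v w) x v w w = riemV Γ x v w w := by
    unfold Pool.Agent.H823.HC.riem riemV
    rw [(PSECV.fderiv_eval Γ (hΓd x hx) w w).2 v, (PSECV.fderiv_eval Γ (hΓd x hx) v w).2 w]
  have h := hSec e he (fun x v w => Γ x v w) hChr x hx v w
  rw [hR, ← hG x hx, ← hG x hx, ← hG x hx, ← hG x hx] at h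
  exact h

end Pool.Agent.H823.BG
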