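import Mathlib
import Pool.Agent.H823.BG.StmW

/-!
# Project BG, part SIG: the metric in the distance coordinates
-/

open scoped Topology ContDiff RealInnerProductSpace
open Set Metric

noncomputable section

namespace Pool.Agent.H823.BG

universe u v w

namespace PSIG

variable {V : Type u} [NormedAddCommGroup V] [InnerProductSpace ℝ V] [FiniteDimensional ℝ V]

/-- The combination of the vectors `n i`. -/
def TT (n : Fin (Module.finrank ℝ V) → V) (a : V) : V := ∑ i, ⟪bas V i, a⟫ • n i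

/-- The adjoint of `TT`. -/
def LL (g : V →L[ℝ] V →L[ℝ] ℝ) (n : Fin (Module.finrank ℝ V) → V) (w : V) : V :=
  ∑ i, g (n i) w • bas V i

theorem inner_LL (g : V →L[ℝ] V →L[ℝ] ℝ) (n : Fin (Module.finrank ℝ V) → V) (a w : V) :
    ⟪a, LL g n w⟫ = g (TT n a) w := by
  unfold LL TT
  rw [inner_sum, map_sum, sum_apply]
  refine Finset.sum_congr rfl fun i _ => ?_
  rw [inner_smul_right, map_smul, smul_apply, smul_eq_mul, real_inner_comm,
    mul_comm]

theorem LL_sub (g : V →L[ℝ] V →L[ℝ] ℝ) (n : Fin (Module.finrank ℝ V) → V) (w w' : V) :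
    LL g n (w - w') = LL g n w - LL g n w' := by
  unfold LL
  rw [← Finset.sum_sub_distrib]
  refine Finset.sum_congr rfl fun i _ => ?_
  rw [map_sub, sub_smul]

omit [FiniteDimensional ℝ V] in
theorem hasDeriv_zero (B : V → V →L[ℝ] V →L[ℝ] ℝ) (p q : V → V) (y : V)
    (hB : DifferentiableAt ℝ B y) (hp : DifferentiableAt ℝ p y) (hq : DifferentiableAt ℝ q y)
    (hp0 : p y = 0) (hq0 : q y = 0) :
    HasFDerivAt (fun z => B z (p z) (q z)) (0 : V →L[ℝ] ℝ) y := by
  have h1 := (hB.hasFDerivAt.clm_apply hp.hasFDerivAt).clm_apply hq.hasFDerivAt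
  refine h1.congr_fderiv ?_
  ext u
  simp [hp0, hq0]

end PSIG

open PSIG

theorem t_SIG (hGRAM : S_GRAM.{u}) (hNEAR : S_NEAR.{u}) (hLIN : S_LIN.{u}) : S_SIG.{u} := by
  intro V _ _ _ s C R G Γ f N σ hs hC hR hD hsmall hσ hsec
  have hn : (0 : ℝ) ≤ Module.finrank ℝ V := Nat.cast_nonneg _
  -- linear algebra at the points of the ball
  have hlin : ∀ x ∈ ball (0 : V) s,
      (∀ w, G x w w ≤ 2 * ‖LL (G x) (fun i => N i x) w‖ ^ 2) ∧
      (∀ w, ‖LL (G x) (fun i => N i x) w‖ ^ 2 ≤ (3 / 2) * G x w w) ∧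
      ∀ v : V, ∃ a : V, LL (G x) (fun i => N i x) (TT (fun i => N i x) a) = v ∧
        ‖a‖ ≤ 2 * ‖v‖ := by
    intro x hx
    refine hLIN V (G x) (fun i => N i x) (hD.met.symm x hx) (hD.met.pos x hx) ?_
    intro a a'
    have h1 := hNEAR V s C G Γ f N hs hC hD x hx a a'
    refine h1.trans ?_
    have h2 : ‖x‖ ≤ s := by
      rw [mem_ball_zero_iff] at hx
      exact hx.le
    have h3 : 2 * Module.finrank ℝ V * C * ‖x‖ ≤ 1 / 2 :=
      (mul_le_mul_of_nonneg_left h2 (by positivity)).trans hsmall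
    have h4 : 0 ≤ ‖a‖ * ‖a'‖ := by positivity
    nlinarith
  -- differentiability
  have hσd : ∀ y ∈ ball (0 : V) R, DifferentiableAt ℝ σ y := fun y hy =>
    (hσ.contDiffAt (isOpen_ball.mem_nhds hy)).differentiableAt (by simp)
  have hσd2 : ∀ y ∈ ball (0 : V) R, DifferentiableAt ℝ (fderiv ℝ σ) y := fun y hy =>
    ((hσ.contDiffAt (isOpen_ball.mem_nhds hy)).fderiv_right (m := 1) (by norm_cast)
      ).differentiableAt (by simp)
  have hfd : ∀ i, ∀ x ∈ ball (0 : V) s, DifferentiableAt ℝ (f i) x := fun i x hx =>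
    ((hD.f_smooth i).contDiffAt (isOpen_ball.mem_nhds hx)).differentiableAt (by simp)
  have hNd : ∀ i, ∀ x ∈ ball (0 : V) s, DifferentiableAt ℝ (N i) x := fun i x hx =>
    ((hD.N_smooth i).contDiffAt (isOpen_ball.mem_nhds hx)).differentiableAt (by simp)
  have hGd : ∀ x ∈ ball (0 : V) s, DifferentiableAt ℝ G x := fun x hx =>
    (hD.met.smooth.contDiffAt (isOpen_ball.mem_nhds hx)).differentiableAt (by simp)
  -- the derivative of the section
  have hL : ∀ y ∈ ball (0 : V) R, ∀ v : V,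
      LL (G (σ y)) (fun i => N i (σ y)) (fderiv ℝ σ y v) = v := by
    intro y hy v
    have h1 : HasFDerivAt (fun z => ∑ i, (f i (σ z) - f i 0) • bas V i)
        (∑ i, ((fderiv ℝ (f i) (σ y)).comp (fderiv ℝ σ y)).smulRight (bas V i)) y := by
      refine HasFDerivAt.fun_sum fun i _ => ?_
      have h2 : HasFDerivAt (fun z => f i (σ z)) ((fderiv ℝ (f i) (σ y)).comp (fderiv ℝ σ y)) y :=
        (hfd i (σ y) (hsec y hy).1).hasFDerivAt.comp y (hσd y hy).hasFDerivAt
      exact (h2.sub_const (f i 0)).smul_const (bas V i)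
    have h2 : HasFDerivAt (fun z => ∑ i, (f i (σ z) - f i 0) • bas V i)
        (ContinuousLinearMap.id ℝ V) y := by
      refine (hasFDerivAt_id y).congr_of_eventuallyEq ?_
      filter_upwards [isOpen_ball.mem_nhds hy] with z hz
      exact (hsec z hz).2
    have h3 := congrArg (fun A : V →L[ℝ] V => A v) (h1.unique h2)
    simp only [sum_apply, ContinuousLinearMap.smulRight_apply,
      ContinuousLinearMap.comp_apply, ContinuousLinearMap.id_apply] at h3
    rw [← h3]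
    unfold LL
    refine Finset.sum_congr rfl fun i _ => ?_
    rw [h3, hD.grad i (σ y) (hsec y hy).1]
  intro y hy
  obtain ⟨hx, -⟩ := hsec y hy
  obtain ⟨l1, l2, l3⟩ := hlin (σ y) hx
  refine ⟨fun v => ?_, fun v => ?_, ?_⟩
  · have h1 := l2 (fderiv ℝ σ y v)
    rwa [hL y hy] at h1
  · have h1 := l1 (fderiv ℝ σ y v)
    rwa [hL y hy] at h1
  intro u v w
  obtain ⟨a, ha, ha'⟩ := l3 v
  obtain ⟨c, hc, hc'⟩ := l3 w
  -- injectivity
  have hinj : ∀ p q : V, LL (G (σ y)) (fun i => N i (σ y)) p =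
      LL (G (σ y)) (fun i => N i (σ y)) q → p = q := by
    intro p q h
    by_contra hne
    have h1 := hD.met.pos (σ y) hx (p - q) (sub_ne_zero.2 hne)
    have h2 := l1 (p - q)
    rw [LL_sub, h, sub_self, norm_zero] at h2
    have h3 : (2 : ℝ) * 0 ^ 2 = 0 := by norm_num
    rw [h3] at h2
    exact absurd h1 (not_lt.2 h2)
  have ea : fderiv ℝ σ y v - TT (fun i => N i (σ y)) a = 0 :=
    sub_eq_zero.2 (hinj _ _ (by rw [hL y hy, ha]))
  have ec : fderiv ℝ σ y w - TT (fun i => N i (σ y)) c = 0 :=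
    sub_eq_zero.2 (hinj _ _ (by rw [hL y hy, hc]))
  have hTd : ∀ a : V, DifferentiableAt ℝ (fun z => TT (fun i => N i (σ z)) a) y := by
    intro a
    unfold TT
    refine DifferentiableAt.fun_sum fun i _ => ?_
    exact ((hNd i (σ y) hx).comp y (hσd y hy)).const_smul _
  have hDd : ∀ v : V, DifferentiableAt ℝ (fun z => fderiv ℝ σ z v) y := fun v =>
    (hσd2 y hy).clm_apply (differentiableAt_const v)
  have hGσ : DifferentiableAt ℝ (fun z => G (σ z)) y :=
    DifferentiableAt.comp (G := V →L[ℝ] V →L[ℝ] ℝ) (g := G) y (hGd _ hx) (hσd y hy)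
  have hQ := hasDeriv_zero (fun z => G (σ z))
    (fun z => fderiv ℝ σ z v - TT (fun i => N i (σ z)) a)
    (fun z => fderiv ℝ σ z w - TT (fun i => N i (σ z)) c) y hGσ
    ((hDd v).sub (hTd a)) ((hDd w).sub (hTd c)) ea ec
  obtain ⟨hA1, hA2⟩ := hGRAM V s C G Γ f N hs hC hD (σ y) hx a c
  have hA : HasFDerivAt (fun z => gam G N (σ z) a c)
      ((fderiv ℝ (fun x => gam G N x a c) (σ y)).comp (fderiv ℝ σ y)) y :=
    hA1.hasFDerivAt.comp y (hσd y hy).hasFDerivAt
  have hh : HasFDerivAt (fun z => G (σ z) (fderiv ℝ σ z v) (fderiv ℝ σ z w))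
      (0 - (fderiv ℝ (fun x => gam G N x a c) (σ y)).comp (fderiv ℝ σ y)) y := by
    have h1 := (hQ.add_const (⟪a, w⟫ + ⟪c, v⟫)).fun_sub hA
    refine h1.congr_of_eventuallyEq ?_
    filter_upwards [isOpen_ball.mem_nhds hy] with z hz
    have hz' := (hsec z hz).1
    have e1 : G (σ z) (TT (fun i => N i (σ z)) a) (fderiv ℝ σ z w) = ⟪a, w⟫ := by
      rw [← inner_LL, hL z hz]
    have e2 : G (σ z) (fderiv ℝ σ z v) (TT (fun i => N i (σ z)) c) = ⟪c, v⟫ := by
      rw [hD.met.symm (σ z) hz', ← inner_LL, hL z hz]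
    have e3 : gam G N (σ z) a c =
        G (σ z) (TT (fun i => N i (σ z)) a) (TT (fun i => N i (σ z)) c) := rfl
    simp only [map_sub, sub_apply, e1, e2, e3]
    ring
  rw [hh.fderiv]
  have h5 := hA2 (fderiv ℝ σ y u)
  have h6 : |((0 : V →L[ℝ] ℝ) - (fderiv ℝ (fun x => gam G N x a c) (σ y)).comp
      (fderiv ℝ σ y)) u| = |fderiv ℝ (fun x => gam G N x a c) (σ y) (fderiv ℝ σ y u)| := by
    rw [zero_sub, neg_apply, abs_neg, ContinuousLinearMap.comp_apply]
  rw [h6]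
  refine h5.trans ?_
  have h7 : √(G (σ y) (fderiv ℝ σ y u) (fderiv ℝ σ y u)) ≤ 3 / 2 * ‖u‖ := by
    have h8 := l1 (fderiv ℝ σ y u)
    rw [hL y hy] at h8
    apply Real.sqrt_le_iff.2
    refine ⟨by positivity, ?_⟩
    nlinarith [sq_nonneg ‖u‖]
  calc 2 * (Module.finrank ℝ V : ℝ) * C * √(G (σ y) (fderiv ℝ σ y u) (fderiv ℝ σ y u)) *
        ‖a‖ * ‖c‖ ≤ 2 * (Module.finrank ℝ V : ℝ) * C * (3 / 2 * ‖u‖) *
        (2 * ‖v‖) * (2 * ‖w‖) := by gcongr
    _ = 12 * (Module.finrank ℝ V : ℝ) * C * ‖u‖ * ‖v‖ * ‖w‖ := by ring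

end Pool.Agent.H823.BG
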