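import Mathlib
import Pool.Agent.H823.BG.StmN

/-!
# TENG: the coordinate expression of the metric in a chart, as a smooth bilinear form
-/

open scoped Topology ContDiff Manifold
open Set Metric Filter MeasureTheory
open Pool.Agent.H823.HC

noncomputable section

namespace Pool.Agent.H823.BG

universe u v w

namespace PTENG

section lin

variable {V : Type u} [NormedAddCommGroup V] [InnerProductSpace ℝ V] [FiniteDimensional ℝ V]

/-- the continuous bilinear form given by a bilinear function -/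
theorem exists_bil (B : V → V → V → ℝ) (h1 : ∀ p x y z, B p (x + y) z = B p x z + B p y z)
    (h2 : ∀ p (c : ℝ) x z, B p (c • x) z = c • B p x z)
    (h3 : ∀ p x y z, B p x (y + z) = B p x y + B p x z)
    (h4 : ∀ p (c : ℝ) x z, B p x (c • z) = c • B p x z) :
    ∃ G : V → V →L[ℝ] V →L[ℝ] ℝ, ∀ p v w, G p v w = B p v w :=
  ⟨fun p => LinearMap.toContinuousLinearMap
    ((LinearMap.toContinuousLinearMap : (V →ₗ[ℝ] ℝ) ≃ₗ[ℝ] (V →L[ℝ] ℝ)).toLinearMap ∘ₗ
      LinearMap.mk₂ ℝ (B p) (h1 p) (h2 p) (h3 p) (h4 p)), fun _ _ _ => rfl⟩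

theorem smooth_bil {G : V → V →L[ℝ] V →L[ℝ] ℝ} {s : Set V}
    (h : ∀ v w, ContDiffOn ℝ ∞ (fun x => G x v w) s) : ContDiffOn ℝ ∞ G s :=
  contDiffOn_clm_apply.2 fun v => contDiffOn_clm_apply.2 fun w => h v w

end lin

section AK

variable {V : Type u} [NormedAddCommGroup V] [InnerProductSpace ℝ V]
  {M : Type v} [MetricSpace M] [ChartedSpace V M] (A : AlmostKahler V M)

theorem frame_add (e : OpenPartialHomeomorph M V) (x v w : V) :
    frame e x (v + w) = frame e x v + frame e x w :=
  (mfderiv 𝓘(ℝ, V) 𝓘(ℝ, V) e.symm x).map_add v w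

theorem frame_smul (e : OpenPartialHomeomorph M V) (x : V) (c : ℝ) (v : V) :
    frame e x (c • v) = c • frame e x v :=
  (mfderiv 𝓘(ℝ, V) 𝓘(ℝ, V) e.symm x).map_smul c v

/-- the differential of the inverse of a chart is injective -/
theorem frame_ne [IsManifold 𝓘(ℝ, V) ∞ M] {e : OpenPartialHomeomorph M V} (he : e ∈ Charts V M)
    {x : V} (hx : x ∈ e.target) {v : V} (hv : v ≠ 0) : frame e x v ≠ 0 := by
  intro h
  apply hv
  have hd1 : MDifferentiableOn 𝓘(ℝ, V) 𝓘(ℝ, V) e e.source :=
    (contMDiffOn_of_mem_maximalAtlas he).mdifferentiableOn (by simp)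
  have hd2 : MDifferentiableOn 𝓘(ℝ, V) 𝓘(ℝ, V) e.symm e.target :=
    (contMDiffOn_symm_of_mem_maximalAtlas he).mdifferentiableOn (by simp)
  have hd : e.MDifferentiable 𝓘(ℝ, V) 𝓘(ℝ, V) := ⟨hd1, hd2⟩
  have h1 := hd.comp_symm_deriv hx
  have h2 := congrArg (fun L => L v) h1
  have h3 : mfderiv 𝓘(ℝ, V) 𝓘(ℝ, V) e (e.symm x) (frame e x v) = v := h2
  rw [h, map_zero] at h3
  exact h3.symm

end AK

end PTENG

open PTENG in
theorem t_TENG : S_TENG.{u, v} := by
  intro V _ _ _ M _ _ _ A e he
  obtain ⟨G, hG⟩ := exists_bil (fun x v w => A.gC e x v w)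
    (fun p x y z => by
      show A.gC e p (x + y) z = A.gC e p x z + A.gC e p y z
      unfold AlmostKahler.gC
      rw [frame_add, map_add]; rfl)
    (fun p c x z => by
      show A.gC e p (c • x) z = c • A.gC e p x z
      unfold AlmostKahler.gC
      rw [frame_smul, map_smul]; rfl)
    (fun p x y z => by
      show A.gC e p x (y + z) = A.gC e p x y + A.gC e p x z
      unfold AlmostKahler.gC
      rw [frame_add, map_add, map_add])
    (fun p c x z => by
      show A.gC e p x (c • z) = c • A.gC e p x z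
      unfold AlmostKahler.gC
      rw [frame_smul, map_smul, map_smul])
  have fG : ∀ v w, (fun y => G y v w) = fun y => A.gC e y v w := fun v w =>
    funext fun y => hG y v w
  refine ⟨G, ⟨e.open_target, smooth_bil fun v w => ?_, ?_, ?_⟩, fun x _ v w => hG x v w⟩
  · rw [fG]
    exact A.smooth_g e he v w
  · intro x _ v w
    rw [hG, hG]
    exact A.symm (e.symm x) (frame e x v) (frame e x w)
  · intro x hx v hv
    rw [hG]
    exact A.pos (e.symm x) (frame e x v) (frame_ne he hx hv)

end Pool.Agent.H823.BG
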