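import Mathlib
import Pool.Agent.H823.BG.Asm
import Pool.Agent.H823.BG.P_CHR
import Pool.Agent.H823.BG.P_GRD
import Pool.Agent.H823.BG.P_RIC
import Pool.Agent.H823.BG.P_HSB
import Pool.Agent.H823.BG.P_HCUR
import Pool.Agent.H823.BG.P_GRAM
import Pool.Agent.H823.BG.P_NEAR
import Pool.Agent.H823.BG.P_LIN
import Pool.Agent.H823.BG.P_FLOW
import Pool.Agent.H823.BG.P_SIG
import Pool.Agent.H823.BG.P_TENG
import Pool.Agent.H823.BG.P_SECV
import Pool.Agent.H823.BG.P_GEO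
import Pool.Agent.H823.BG.P_ENE
import Pool.Agent.H823.BG.P_GAU
import Pool.Agent.H823.BG.P_NCH
import Pool.Agent.H823.BG.P_DST
import Pool.Agent.H823.BG.P_HDI
import Pool.Agent.H823.BG.P_COO
import Pool.Agent.H823.BG.P_OUT
import Pool.Agent.H823.HC.Main

/-! # Project BG: bounded sectional curvature and a lower bound of the injectivity radius imply
bounded geometry -/

namespace Pool.Agent.H823.BG

universe u v

theorem c_TENG : S_TENG.{u, v} := t_TENG

theorem c_GAU : S_GAU.{u, v} := t_GAU t_ENE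

theorem c_NCH : S_NCH.{u, v} := t_NCH c_TENG c_GAU

theorem c_DST : S_DST.{u, v} := t_DST Pool.Agent.H823.HC.t_LEN

theorem c_HDI : S_HDI.{u, v} :=
  t_HDI c_NCH c_DST c_TENG t_CHR t_SECV (t_HSB t_RIC) t_GEO t_HCUR

theorem c_COO : S_COO.{u, v} := t_COO c_DST c_HDI t_GRD

theorem c_NEAR : S_NEAR.{u} := t_NEAR t_GRAM

theorem c_SIG : S_SIG.{u} := t_SIG t_GRAM c_NEAR t_LIN

theorem main : S_BGF.{u, v} :=
  t_BGF c_TENG t_CHR c_NCH c_COO c_NEAR t_LIN t_FLOW c_SIG t_OUT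

end Pool.Agent.H823.BG
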