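import Mathlib
import Pool.Agent.H823.BG.StmN

/-! # GEO: geodesics with a given initial velocity (helper106) -/

set_option autoImplicit false

open scoped Topology ContDiff Manifold RealInnerProductSpace
open Set Metric Filter MeasureTheory
open Pool.Agent.H823.HC

noncomputable section

namespace Pool.Agent.H823.BG

universe u v w

namespace PGEO

variable {V : Type u} [NormedAddCommGroup V] [InnerProductSpace ℝ V]
  {M : Type v} [MetricSpace M] [ChartedSpace V M]

theorem continuous_gC (A : AlmostKahler V M) (e : OpenPartialHomeomorph M V) (x : V) :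
    Continuous (fun v : V => A.gC e x v v) := by
  let B : V →L[ℝ] V →L[ℝ] ℝ := A.om (e.symm x)
  let J : V →L[ℝ] V := A.J (e.symm x)
  let F : V →L[ℝ] V := mfderiv 𝓘(ℝ, V) 𝓘(ℝ, V) e.symm x
  have h : Continuous (fun v : V => B (F v) (J (F v))) := by fun_prop
  exact h

theorem gC_zero (A : AlmostKahler V M) (e : OpenPartialHomeomorph M V) (x : V) :
    A.gC e x 0 0 = 0 := by
  let B : V →L[ℝ] V →L[ℝ] ℝ := A.om (e.symm x)
  let J : V →L[ℝ] V := A.J (e.symm x)
  let F : V →L[ℝ] V := mfderiv 𝓘(ℝ, V) 𝓘(ℝ, V) e.symm x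
  have h : B (F 0) (J (F 0)) = 0 := by simp
  exact h

theorem isOpen_U (A : AlmostKahler V M) (e : OpenPartialHomeomorph M V) (x : V) (r : ℝ) :
    IsOpen {v : V | A.gC e x v v < r ^ 2} :=
  isOpen_lt (continuous_gC A e x) continuous_const

/-- the transition map between two charts is differentiable -/
theorem trans_diff {e e' : OpenPartialHomeomorph M V} (he : e ∈ Charts V M) (he' : e' ∈ Charts V M)
    {y : M} (hy : y ∈ e.source) (hy' : y ∈ e'.source) :
    DifferentiableAt ℝ (fun x => e' (e.symm x)) (e y) := by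
  have h1 : ContMDiffAt 𝓘(ℝ, V) 𝓘(ℝ, V) ∞ e' y :=
    (contMDiffOn_of_mem_maximalAtlas he').contMDiffAt (e'.open_source.mem_nhds hy')
  have h2 : ContMDiffAt 𝓘(ℝ, V) 𝓘(ℝ, V) ∞ e.symm (e y) :=
    (contMDiffOn_symm_of_mem_maximalAtlas he).contMDiffAt
      (e.open_target.mem_nhds (e.map_source hy))
  have h3 : ContMDiffAt 𝓘(ℝ, V) 𝓘(ℝ, V) ∞ (fun x => e' (e.symm x)) (e y) := by
    have h4 : e.symm (e y) = y := e.left_inv hy
    have h5 : ContMDiffAt 𝓘(ℝ, V) 𝓘(ℝ, V) ∞ e' (e.symm (e y)) := by rwa [h4]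
    exact h5.comp (e y) h2
  exact (contMDiffAt_iff_contDiffAt.1 h3).differentiableAt (by simp)

/-- the derivatives of the transition maps are inverse to each other -/
theorem trans_inv {e e' : OpenPartialHomeomorph M V} (he : e ∈ Charts V M) (he' : e' ∈ Charts V M)
    {y : M} (hy : y ∈ e.source) (hy' : y ∈ e'.source) (w : V) :
    fderiv ℝ (fun x => e' (e.symm x)) (e y) (fderiv ℝ (fun x => e (e'.symm x)) (e' y) w) = w := by
  have h1 := trans_diff he he' hy hy'
  have h2 := trans_diff he' he hy' hy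
  have e1 : e (e'.symm (e' y)) = e y := by rw [e'.left_inv hy']
  have h1' : DifferentiableAt ℝ (fun x => e' (e.symm x)) ((fun x => e (e'.symm x)) (e' y)) := by
    simp only [e1]
    exact h1
  have h3 := fderiv_comp (e' y) h1' h2
  have h4 : ((fun x => e' (e.symm x)) ∘ (fun x => e (e'.symm x))) =ᶠ[𝓝 (e' y)] id := by
    have h5 : ∀ᶠ x in 𝓝 (e' y), x ∈ e'.target := e'.open_target.mem_nhds (e'.map_source hy')
    have h6 : ∀ᶠ x in 𝓝 (e' y), e'.symm x ∈ e.source := by
      have hc : ContinuousAt e'.symm (e' y) := e'.symm.continuousAt (e'.map_source hy')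
      apply hc
      rw [e'.left_inv hy']
      exact e.open_source.mem_nhds hy
    filter_upwards [h5, h6] with x hx1 hx2
    simp only [Function.comp_apply, id]
    rw [e.left_inv hx2, e'.right_inv hx1]
  rw [h4.fderiv_eq, fderiv_id] at h3
  have h7 := congrArg (fun L : V →L[ℝ] V => L w) h3
  simp only [ContinuousLinearMap.comp_apply, e1] at h7
  exact h7.symm

end PGEO

theorem t_GEO : S_GEO.{u, v} := by
  intro V _ _ _ M _ _ _ A r hr hinj y e' he' hy' w
  obtain ⟨e, he, hy, E, hE, -, -⟩ := hinj y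
  set w' : V := fderiv ℝ (fun x => e (e'.symm x)) (e' y) w with hw'
  have hc0 : (fun t : ℝ => E (t • w')) 0 = y := by
    simp only [zero_smul]
    exact hE.zero
  have hU : {v : V | A.gC e (e y) v v < r ^ 2} ∈ 𝓝 (0 : V) :=
    (PGEO.isOpen_U A e (e y) r).mem_nhds (by
      show A.gC e (e y) 0 0 < r ^ 2
      rw [PGEO.gC_zero]
      positivity)
  have hsm : ContMDiffAt 𝓘(ℝ, ℝ) 𝓘(ℝ, V) ∞ (fun t : ℝ => E (t • w')) 0 := by
    have h1 : ContMDiffAt 𝓘(ℝ, V) 𝓘(ℝ, V) ∞ E ((0 : ℝ) • w') := by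
      rw [zero_smul]
      exact hE.smooth.contMDiffAt hU
    have h2 : ContMDiffAt 𝓘(ℝ, ℝ) 𝓘(ℝ, V) ∞ (fun t : ℝ => t • w') 0 := by
      rw [contMDiffAt_iff_contDiffAt]
      fun_prop
    exact h1.comp (0 : ℝ) h2
  refine ⟨fun t => E (t • w'), hc0, hsm, ?_, ?_⟩
  · -- the velocity
    have hcont : ContinuousAt (fun t : ℝ => E (t • w')) 0 := hsm.continuousAt
    have hev : ∀ᶠ t in 𝓝 (0 : ℝ), E (t • w') ∈ e.source := by
      apply hcont
      show e.source ∈ 𝓝 (E ((0 : ℝ) • w'))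
      rw [show E ((0 : ℝ) • w') = y from hc0]
      exact e.open_source.mem_nhds hy
    have h1 : (fun t : ℝ => e' (E (t • w'))) =ᶠ[𝓝 0]
        (fun t => (fun x => e' (e.symm x)) (e (E (t • w')))) := by
      filter_upwards [hev] with t ht
      rw [e.left_inv ht]
    rw [h1.deriv_eq]
    have hd : HasDerivAt (fun t : ℝ => e (E (t • w'))) w' 0 := by
      have h2 : ContMDiffAt 𝓘(ℝ, V) 𝓘(ℝ, V) ∞ e (E ((0 : ℝ) • w')) := by
        rw [show E ((0 : ℝ) • w') = y from hc0]
        exact (contMDiffOn_of_mem_maximalAtlas he).contMDiffAt (e.open_source.mem_nhds hy)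
      have h3 : ContMDiffAt 𝓘(ℝ, ℝ) 𝓘(ℝ, V) ∞ (fun t : ℝ => e (E (t • w'))) 0 :=
        h2.comp (0 : ℝ) hsm
      have h4 : DifferentiableAt ℝ (fun t : ℝ => e (E (t • w'))) 0 :=
        (contMDiffAt_iff_contDiffAt.1 h3).differentiableAt (by simp)
      have h5 := h4.hasDerivAt
      rwa [hE.veloc w'] at h5
    have hy0 : e (E ((0 : ℝ) • w')) = e y := by rw [show E ((0 : ℝ) • w') = y from hc0]
    have h6 : HasFDerivAt (fun x => e' (e.symm x)) (fderiv ℝ (fun x => e' (e.symm x)) (e y))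
        (e (E ((0 : ℝ) • w'))) := by
      rw [hy0]
      exact (PGEO.trans_diff he he' hy hy').hasFDerivAt
    have h7 := h6.comp_hasDerivAt (0 : ℝ) hd
    have h8 := h7.deriv
    have h9 : deriv (fun t : ℝ => (fun x => e' (e.symm x)) (e (E (t • w')))) 0 =
        fderiv ℝ (fun x => e' (e.symm x)) (e y) w' := h8
    rw [h9, hw']
    exact PGEO.trans_inv he he' hy hy' w
  · intro e'' he'' hy'' ξ
    have h1 := hE.geod w' 0 (by
      rw [zero_smul, PGEO.gC_zero]
      positivity) e'' he'' (by rw [zero_smul, hE.zero]; exact hy'') ξ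
    simp only [zero_add] at h1
    exact h1

end Pool.Agent.H823.BG
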